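import Pool.Agent.K3h48.MN.Norms
import Pool.Agent.Y868.VR.A4
import Pool.Agent.H98R3.OM.A1

/-!
# Multinorm obstruction: density of the twists
-/

set_option autoImplicit false
set_option linter.unusedSectionVars false

namespace Pool.Agent.K3h48.MN

open Finset Filter Topology Pool.Agent.Y868.VR

section

variable {ℓ p q : ℕ} [hℓ : Fact ℓ.Prime] [hp : Fact p.Prime] [hq : Fact q.Prime]
  (χ : (ZMod p)ˣ →* Multiplicative (ZMod ℓ)) (ψ : (ZMod q)ˣ →* Multiplicative (ZMod ℓ))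

/-- the vector of the sums -/
noncomputable def FF (c : {m : ZMod ℓ // m ≠ 0} → ZMod ℓ) (n : ℕ) : Multiplicative (ZMod ℓ) :=
  Multiplicative.ofAdd (∑ m, c m * ssum (wt χ ψ m.1) (n : ℚ))

lemma FF_one (c : {m : ZMod ℓ // m ≠ 0} → ZMod ℓ) : FF χ ψ c 1 = 1 := by
  unfold FF
  simp [ssum_one]

lemma FF_mul (c : {m : ZMod ℓ // m ≠ 0} → ZMod ℓ) {m n : ℕ} (hm : 0 < m) (hn : 0 < n) :
    FF χ ψ c (m * n) = FF χ ψ c m * FF χ ψ c n := by
  unfold FF
  rw [← ofAdd_add, ← sum_add_distrib]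
  congr 1
  refine sum_congr rfl fun i _ => ?_
  rw [Nat.cast_mul, ssum_mul _ (Nat.cast_ne_zero.2 hm.ne') (Nat.cast_ne_zero.2 hn.ne'), mul_add]

variable {χ ψ}

lemma FF_prime (c : {m : ZMod ℓ // m ≠ 0} → ZMod ℓ) (m : {m : ZMod ℓ // m ≠ 0}) {r : ℕ}
    (hr : r.Prime) (h1 : ind χ (r : ZMod p) = 1) (h2 : ind ψ (r : ZMod q) = m.1) :
    FF χ ψ c r = Multiplicative.ofAdd (c m) := by
  classical
  unfold FF
  congr 1
  rw [sum_eq_single m]
  · rw [ssum_prime _ hr, wt, if_pos (by rw [h1, h2, mul_one]), h1, mul_one]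
  · intro m' _ hm'
    rw [ssum_prime _ hr, wt, if_neg, mul_zero]
    rw [h1, h2, mul_one]
    intro h
    exact hm' (Subtype.ext h.symm)
  · intro h
    exact absurd (mem_univ m) h

end

section

variable (ℓ : ℕ) [hℓ : Fact ℓ.Prime]

instance instTopMZ : TopologicalSpace (Multiplicative (ZMod ℓ)) := ⊥

instance instDisMZ : DiscreteTopology (Multiplicative (ZMod ℓ)) := ⟨rfl⟩

/-- the standard character -/
noncomputable def stdχ : PontryaginDual (Multiplicative (ZMod ℓ)) :=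
  (⟨(ZMod.toCircle (N := ℓ)).toMonoidHom, continuous_of_discreteTopology⟩ :
    Multiplicative (ZMod ℓ) →ₜ* Circle)

lemma ev_std (x : ZMod ℓ) : ev (Multiplicative.ofAdd x) (stdχ ℓ) = ZMod.stdAddChar x := rfl

lemma stdχ_pow : stdχ ℓ ^ ℓ = 1 := by
  refine ContinuousMonoidHom.ext fun g => ?_
  have h0 : ∀ n : ℕ, ((stdχ ℓ) ^ n) g = (stdχ ℓ g) ^ n := by
    intro n
    induction n with
    | zero => rfl
    | succ n ih =>
      rw [pow_succ, pow_succ, ← ih]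
      rfl
  have h1 := h0 ℓ
  have h2 : g ^ ℓ = 1 := by
    apply Multiplicative.toAdd.injective
    rw [toAdd_pow, nsmul_eq_mul, CharP.cast_eq_zero, zero_mul]
    rfl
  have h3 : ((1 : PontryaginDual (Multiplicative (ZMod ℓ))) g : Circle) = 1 := rfl
  refine h1.trans ?_
  rw [← map_pow, h2, map_one]
  exact h3.symm

end

section

variable {ℓ p q : ℕ} [hℓ : Fact ℓ.Prime] [hp : Fact p.Prime] [hq : Fact q.Prime]
  {χ : (ZMod p)ˣ →* Multiplicative (ZMod ℓ)} {ψ : (ZMod q)ˣ →* Multiplicative (ZMod ℓ)}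

lemma not_HH (hχ : Function.Surjective χ) (hψ : Function.Surjective ψ) (hpq : p ≠ q)
    {c : {m : ZMod ℓ // m ≠ 0} → ZMod ℓ} (hc : c ≠ 0) : stdχ ℓ ∉ HH (FF χ ψ c) := by
  classical
  rintro ⟨τ, C, h⟩
  have hτ : τ = 0 := by
    obtain ⟨D, hD⟩ := h.pow ℓ
    rw [stdχ_pow] at hD
    have h1 := hD.uniq (PP.one (FF χ ψ c))
    rcases mul_eq_zero.1 h1 with h2 | h2
    · exact absurd (Nat.cast_eq_zero.1 h2) hℓ.out.ne_zero
    · exact h2
  rw [hτ] at h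
  obtain ⟨m, hm⟩ : ∃ m, c m ≠ 0 := by
    by_contra hcon
    push Not at hcon
    exact hc (funext hcon)
  obtain ⟨n, hn, hn1, hn2⟩ := exists_kn hχ hψ hpq (1 : ZMod ℓ) m.1
  have : NeZero (p * q) := ⟨pq_ne⟩
  have hunit : IsUnit (n : ZMod (p * q)) := (ZMod.isUnit_iff_coprime n (p * q)).2 hn
  apply Pool.Agent.H98R3.OM.not_summable_class hunit
  set δ : ℝ := 1 - (ZMod.stdAddChar (c m) : ℂ).re with hδ
  have hδ0 : 0 < δ := by
    have h1 : ‖(ZMod.stdAddChar (c m) : ℂ)‖ = 1 := AddChar.norm_apply _ _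
    have h2 : (ZMod.stdAddChar (c m) : ℂ) ≠ 1 := by
      intro h3
      apply hm
      have h4 : (ZMod.stdAddChar (c m) : ℂ) = ZMod.stdAddChar (0 : ZMod ℓ) := by
        rw [h3, AddChar.map_zero_eq_one]
      exact ZMod.injective_stdAddChar h4
    have h3 : (ZMod.stdAddChar (c m) : ℂ).re ≤ 1 := by
      rw [← h1]; exact Complex.re_le_norm _
    rcases h3.lt_or_eq with h4 | h4
    · rw [hδ]; linarith
    · exfalso
      apply h2
      have h5 : (ZMod.stdAddChar (c m) : ℂ).im = 0 := by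
        have h6 := Complex.sq_norm (ZMod.stdAddChar (c m) : ℂ)
        rw [Complex.normSq_apply, h1, h4] at h6
        have h7 : (ZMod.stdAddChar (c m) : ℂ).im * (ZMod.stdAddChar (c m) : ℂ).im = 0 := by
          linarith
        exact mul_self_eq_zero.1 h7
      exact Complex.ext h4 h5
  have hgx : ∀ r : Nat.Primes, ((r : ℕ) : ZMod (p * q)) = n →
      gx (FF χ ψ c) (stdχ ℓ) 0 r = (1 / ((r : ℕ) : ℝ)) * δ := by
    intro r hr
    have h1 : ((r : ℕ) : ZMod p) = (n : ZMod p) := by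
      rw [ZMod.natCast_eq_natCast_iff] at hr ⊢
      exact hr.of_mul_right q
    have h2 : ((r : ℕ) : ZMod q) = (n : ZMod q) := by
      rw [ZMod.natCast_eq_natCast_iff] at hr ⊢
      exact hr.of_mul_left p
    have h3 := FF_prime c m r.2 (by rw [h1, hn1]) (by rw [h2, hn2])
    unfold gx gg
    simp only
    rw [h3, ev_std, add_zero, Real.rpow_neg_one, one_div]
    simp [hδ]
  have h1 : Summable (fun r : Nat.Primes =>
      if ((r : ℕ) : ZMod (p * q)) = n then 1 / ((r : ℕ) : ℝ) else 0) := by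
    refine summable_of_sum_le (c := C / δ) (fun r => by positivity) fun S => ?_
    rw [le_div_iff₀ hδ0, sum_mul]
    refine le_trans (sum_le_sum fun r _ => ?_) (h S)
    split_ifs with h2
    · rw [hgx r h2]
    · rw [zero_mul]
      exact gx_nonneg _ _ _ _
  have h2 : Summable (fun r : ℕ => Set.indicator {r : ℕ | r.Prime}
      (fun r : ℕ => if (r : ZMod (p * q)) = n then 1 / (r : ℝ) else 0) r) :=
    summable_subtype_iff_indicator.1 h1
  refine h2.congr fun r => ?_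
  by_cases hr : r.Prime
  · rw [Set.indicator_of_mem (show r ∈ {r : ℕ | r.Prime} from hr)]
    simp [hr]
  · rw [Set.indicator_of_notMem (show r ∉ {r : ℕ | r.Prime} from hr), if_neg fun h => hr h.1]

lemma mean_zero (hχ : Function.Surjective χ) (hψ : Function.Surjective ψ) (hpq : p ≠ q)
    {c : {m : ZMod ℓ // m ≠ 0} → ZMod ℓ} (hc : c ≠ 0) :
    Tendsto (fun N : ℕ => (∑ n ∈ Ioc 0 N, (ZMod.stdAddChar
      (∑ m, c m * ssum (wt χ ψ m.1) (n : ℚ)) : ℂ)) / (N : ℂ)) atTop (𝓝 0) := by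
  have h := mz (bf_mb (FF_one χ ψ c) (fun m n hm hn _ => FF_mul χ ψ c hm hn) (stdχ ℓ))
    (bf_np (not_HH hχ hψ hpq hc))
  simp only [bf_sum] at h
  exact h

lemma orth (x : {m : ZMod ℓ // m ≠ 0} → ZMod ℓ) :
    ∑ c : {m : ZMod ℓ // m ≠ 0} → ZMod ℓ, (ZMod.stdAddChar (∑ m, c m * x m) : ℂ) =
      if x = 0 then (ℓ : ℂ) ^ (ℓ - 1) else 0 := by
  classical
  have h1 : ∀ c : {m : ZMod ℓ // m ≠ 0} → ZMod ℓ, (ZMod.stdAddChar (∑ m, c m * x m) : ℂ) =
      ∏ m, (ZMod.stdAddChar (c m * x m) : ℂ) := by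
    intro c
    have key : ∀ s : Finset {m : ZMod ℓ // m ≠ 0}, (ZMod.stdAddChar (∑ m ∈ s, c m * x m) : ℂ) =
        ∏ m ∈ s, (ZMod.stdAddChar (c m * x m) : ℂ) := by
      intro s
      induction s using Finset.induction_on with
      | empty => rw [sum_empty, prod_empty, AddChar.map_zero_eq_one]
      | insert m s hm ih => rw [sum_insert hm, prod_insert hm, AddChar.map_add_eq_mul, ih]
    exact key univ
  rw [sum_congr rfl fun c _ => h1 c]
  have h2 := (Finset.prod_univ_sum (fun _ : {m : ZMod ℓ // m ≠ 0} => (univ : Finset (ZMod ℓ)))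
    (fun m y => (ZMod.stdAddChar (y * x m) : ℂ)))
  rw [Fintype.piFinset_univ] at h2
  rw [← h2]
  have h3 : ∀ m : {m : ZMod ℓ // m ≠ 0}, ∑ y : ZMod ℓ, (ZMod.stdAddChar (y * x m) : ℂ) =
      if x m = 0 then (ℓ : ℂ) else 0 := by
    intro m
    have h4 := AddChar.sum_mulShift (x m) (ZMod.isPrimitive_stdAddChar ℓ)
    rw [ZMod.card] at h4
    exact_mod_cast h4
  rw [prod_congr rfl fun m _ => h3 m]
  split_ifs with hx
  · have h4 : ∀ m : {m : ZMod ℓ // m ≠ 0}, (if x m = 0 then (ℓ : ℂ) else 0) = ℓ :=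
      fun m => if_pos (by rw [hx]; rfl)
    rw [prod_congr rfl fun m _ => h4 m, prod_const, card_univ]
    congr 1
    rw [Fintype.card_subtype_compl, ZMod.card, Fintype.card_subtype_eq]
  · obtain ⟨m, hm⟩ : ∃ m, x m ≠ 0 := by
      by_contra hcon
      push Not at hcon
      exact hx (funext hcon)
    exact prod_eq_zero (mem_univ m) (if_neg hm)

/-- the density of the numbers with vanishing sums -/
theorem density (hχ : Function.Surjective χ) (hψ : Function.Surjective ψ) (hpq : p ≠ q) :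
    Tendsto (fun N : ℕ => (Nat.card {n : ℕ // 1 ≤ n ∧ n ≤ N ∧
      ∀ m : ZMod ℓ, m ≠ 0 → ssum (wt χ ψ m) (n : ℚ) = 0} : ℝ) / (N : ℝ)) atTop
      (𝓝 ((ℓ : ℝ) ^ (ℓ - 1))⁻¹) := by
  classical
  have hℓ0 : (ℓ : ℂ) ^ (ℓ - 1) ≠ 0 := pow_ne_zero _ (Nat.cast_ne_zero.2 hℓ.out.ne_zero)
  set x : ℕ → {m : ZMod ℓ // m ≠ 0} → ZMod ℓ := fun n m => ssum (wt χ ψ m.1) (n : ℚ) with hx
  have hcard : ∀ N : ℕ, (Nat.card {n : ℕ // 1 ≤ n ∧ n ≤ N ∧
      ∀ m : ZMod ℓ, m ≠ 0 → ssum (wt χ ψ m) (n : ℚ) = 0} : ℂ) =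
      ((ℓ : ℂ) ^ (ℓ - 1))⁻¹ * ∑ c : {m : ZMod ℓ // m ≠ 0} → ZMod ℓ,
        ∑ n ∈ Ioc 0 N, (ZMod.stdAddChar (∑ m, c m * x n m) : ℂ) := by
    intro N
    rw [sum_comm]
    rw [sum_congr rfl fun n _ => orth (x n)]
    rw [← sum_filter, sum_const, nsmul_eq_mul, mul_comm, mul_assoc, mul_inv_cancel₀ hℓ0, mul_one]
    congr 1
    rw [← Nat.card_eq_finsetCard]
    refine Nat.card_congr (Equiv.subtypeEquivRight fun n => ?_)
    rw [mem_filter, mem_Ioc]
    constructor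
    · rintro ⟨h1, h2, h3⟩
      exact ⟨⟨h1, h2⟩, funext fun m => h3 m.1 m.2⟩
    · rintro ⟨⟨h1, h2⟩, h3⟩
      exact ⟨h1, h2, fun m hm => congrFun h3 ⟨m, hm⟩⟩
  have hlim : Tendsto (fun N : ℕ => (Nat.card {n : ℕ // 1 ≤ n ∧ n ≤ N ∧
      ∀ m : ZMod ℓ, m ≠ 0 → ssum (wt χ ψ m) (n : ℚ) = 0} : ℂ) / (N : ℂ)) atTop
      (𝓝 (((ℓ : ℂ) ^ (ℓ - 1))⁻¹ * ∑ c : {m : ZMod ℓ // m ≠ 0} → ZMod ℓ,
        if c = 0 then 1 else 0)) := by
    have h1 : ∀ N : ℕ, (Nat.card {n : ℕ // 1 ≤ n ∧ n ≤ N ∧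
        ∀ m : ZMod ℓ, m ≠ 0 → ssum (wt χ ψ m) (n : ℚ) = 0} : ℂ) / (N : ℂ) =
        ((ℓ : ℂ) ^ (ℓ - 1))⁻¹ * ∑ c : {m : ZMod ℓ // m ≠ 0} → ZMod ℓ,
        (∑ n ∈ Ioc 0 N, (ZMod.stdAddChar (∑ m, c m * x n m) : ℂ)) / (N : ℂ) := by
      intro N
      rw [hcard, mul_div_assoc, sum_div]
    simp only [h1]
    refine Tendsto.const_mul _ (tendsto_finsetSum _ fun c _ => ?_)
    split_ifs with hc
    · subst hc
      refine Tendsto.congr' ?_ tendsto_const_nhds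
      filter_upwards [eventually_ge_atTop 1] with N hN
      have hN0 : (N : ℂ) ≠ 0 := by
        have : 0 < N := hN
        exact_mod_cast this.ne'
      simp [hN0]
    · exact mean_zero hχ hψ hpq hc
  rw [sum_ite_eq' univ (0 : {m : ZMod ℓ // m ≠ 0} → ZMod ℓ), if_pos (mem_univ _), mul_one] at hlim
  have h2 := (Complex.continuous_re.tendsto _).comp hlim
  have h3 : (((ℓ : ℂ) ^ (ℓ - 1))⁻¹).re = ((ℓ : ℝ) ^ (ℓ - 1))⁻¹ := by
    rw [← Complex.ofReal_natCast, ← Complex.ofReal_pow, ← Complex.ofReal_inv, Complex.ofReal_re]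
  rw [h3] at h2
  refine h2.congr fun N => ?_
  simp only [Function.comp_def]
  rw [← Complex.ofReal_natCast, ← Complex.ofReal_natCast, ← Complex.ofReal_div, Complex.ofReal_re]

end

end Pool.Agent.K3h48.MN
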