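import Pool.Agent.K3h48.MN.Norms
import Pool.Agent.W976.MF.SPL

/-!
# Multinorm obstruction: existence of the primes
-/

set_option autoImplicit false
set_option linter.unusedSectionVars false

namespace Pool.Agent.K3h48.MN

open Polynomial

/-- characters of order `ℓ` -/
lemma exists_char {ℓ p : ℕ} [Fact ℓ.Prime] [Fact p.Prime] (h : ℓ ∣ p - 1) :
    ∃ χ : (ZMod p)ˣ →* Multiplicative (ZMod ℓ), Function.Surjective χ := by
  have hc : Nat.card (ZMod p)ˣ = p - 1 := by rw [Nat.card_eq_fintype_card, ZMod.card_units]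
  have hcyc : IsCyclic (ZMod p)ˣ := inferInstance
  let e : Multiplicative (ZMod (Nat.card (ZMod p)ˣ)) ≃* (ZMod p)ˣ := zmodCyclicMulEquiv hcyc
  have hd : ℓ ∣ Nat.card (ZMod p)ˣ := by rw [hc]; exact h
  let f : ZMod (Nat.card (ZMod p)ˣ) →+ ZMod ℓ := (ZMod.castHom hd (ZMod ℓ)).toAddMonoidHom
  refine ⟨(AddMonoidHom.toMultiplicative f).comp e.symm.toMonoidHom, ?_⟩
  have hf : Function.Surjective f := ZMod.castHom_surjective hd
  intro y
  obtain ⟨x, hx⟩ := hf y.toAdd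
  refine ⟨e (Multiplicative.ofAdd x), ?_⟩
  rw [MonoidHom.comp_apply]
  have h1 : e.symm.toMonoidHom (e (Multiplicative.ofAdd x)) = Multiplicative.ofAdd x :=
    e.symm_apply_apply _
  rw [h1]
  change Multiplicative.ofAdd (f x) = y
  rw [hx]
  rfl

/-- `-1` is an `ℓ`-th power -/
lemma neg_one_pow {ℓ p : ℕ} (hℓ : 0 < ℓ) [hp : Fact p.Prime] (h : 2 * ℓ ∣ p - 1) :
    ∃ u : ZMod p, u ^ ℓ = -1 := by
  obtain ⟨m, hm⟩ := h
  have hp1 : 0 < p - 1 := Nat.sub_pos_of_lt hp.out.one_lt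
  have hm0 : 0 < m := by
    rcases Nat.eq_zero_or_pos m with h0 | h0
    · rw [h0, mul_zero] at hm
      omega
    · exact h0
  obtain ⟨g, hg⟩ := IsCyclic.exists_generator (α := (ZMod p)ˣ)
  have hord : orderOf g = p - 1 := by
    rw [orderOf_eq_card_of_forall_mem_zpowers hg, Nat.card_eq_fintype_card, ZMod.card_units]
  refine ⟨((g ^ m : (ZMod p)ˣ) : ZMod p), ?_⟩
  have h1 : (((g ^ m : (ZMod p)ˣ) : ZMod p) ^ ℓ) ^ 2 = 1 := by
    rw [← Units.val_pow_eq_pow_val, ← Units.val_pow_eq_pow_val, ← pow_mul, ← pow_mul]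
    have h2 : m * (ℓ * 2) = p - 1 := by rw [hm]; ring
    rw [h2, ← hord, pow_orderOf_eq_one, Units.val_one]
  have h3 : ((g ^ m : (ZMod p)ˣ) : ZMod p) ^ ℓ ≠ 1 := by
    intro h4
    rw [← Units.val_pow_eq_pow_val, ← Units.val_one, Units.val_inj, ← pow_mul] at h4
    have h5 := orderOf_dvd_of_pow_eq_one h4
    rw [hord, hm] at h5
    have h6 := Nat.le_of_dvd (Nat.mul_pos hm0 hℓ) h5
    nlinarith [Nat.mul_pos hm0 hℓ]
  rw [sq] at h1
  rcases mul_self_eq_one_iff.1 h1 with h4 | h4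
  · exact absurd h4 h3
  · exact h4

lemma ind_pow_zero {ℓ p : ℕ} [hℓ : Fact ℓ.Prime] [Fact p.Prime]
    (χ : (ZMod p)ˣ →* Multiplicative (ZMod ℓ)) {x : ZMod p} (h : ∃ u : ZMod p, u ^ ℓ = x) :
    ind χ x = 0 := by
  obtain ⟨u, rfl⟩ := h
  rcases eq_or_ne u 0 with rfl | hu
  · rw [zero_pow hℓ.out.ne_zero, ind_zero]
  · rw [ind_pow χ hu, CharP.cast_eq_zero, zero_mul]

open Pool.Agent.W458.MF in
/-- the second prime -/
theorem exists_q {ℓ p : ℕ} (hℓ : 0 < ℓ) (hp : p.Prime) (B : ℕ) :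
    ∃ q : ℕ, q.Prime ∧ B < q ∧ q ≡ 1 [MOD 2 * ℓ] ∧ q ≡ 1 [MOD p] ∧ ∃ u : ZMod q, u ^ ℓ = p := by
  set n : ℕ := 2 * ℓ * p with hn
  have hn0 : 0 < n := by
    have := hp.pos
    positivity
  set R : ℤ[X] := (X ^ n - 1) * (X ^ ℓ - C (p : ℤ)) with hR
  have hm1 : (X ^ n - 1 : ℤ[X]).Monic := by
    have := monic_X_pow_sub_C (1 : ℤ) hn0.ne'
    rwa [C_1] at this
  have hmon : R.Monic := hm1.mul (monic_X_pow_sub_C _ hℓ.ne')
  have hsep : (R.map (Int.castRingHom ℚ)).Separable := by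
    have h1 : R.map (Int.castRingHom ℚ) = (X ^ n - 1) * (X ^ ℓ - C (p : ℚ)) := by
      rw [hR]
      simp
    rw [h1]
    have hp0 : (p : ℚ) ≠ 0 := Nat.cast_ne_zero.2 hp.ne_zero
    refine Separable.mul ?_ ?_ ?_
    · have := separable_X_pow_sub_C (1 : ℚ) (n := n) (Nat.cast_ne_zero.2 hn0.ne') one_ne_zero
      rwa [C_1] at this
    · exact separable_X_pow_sub_C (p : ℚ) (Nat.cast_ne_zero.2 hℓ.ne') hp0
    · have h2 : (X ^ ℓ - C (p : ℚ)) ∣ (X ^ n - C ((p : ℚ) ^ (2 * p))) := by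
        have h3 : (X ^ n : ℚ[X]) = (X ^ ℓ) ^ (2 * p) := by
          rw [← pow_mul, hn]
          congr 1
          ring
        rw [h3, C_pow]
        exact sub_dvd_pow_sub_pow _ _ _
      obtain ⟨D, hD⟩ := h2
      have h4 : (p : ℚ) ^ (2 * p) - 1 ≠ 0 := by
        have h5 : (1 : ℚ) < (p : ℚ) ^ (2 * p) :=
          one_lt_pow₀ (by exact_mod_cast hp.one_lt) (mul_pos two_pos hp.pos).ne'
        linarith
      refine ⟨C (((p : ℚ) ^ (2 * p) - 1)⁻¹), -(C (((p : ℚ) ^ (2 * p) - 1)⁻¹) * D), ?_⟩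
      have h5 : (C (((p : ℚ) ^ (2 * p) - 1)⁻¹) : ℚ[X]) * (C ((p : ℚ) ^ (2 * p)) - 1) = 1 := by
        rw [← C_1, ← C_sub, ← C_mul, inv_mul_cancel₀ h4]
      have h6 : (C (((p : ℚ) ^ (2 * p) - 1)⁻¹) : ℚ[X]) * (X ^ n - 1) +
          -(C (((p : ℚ) ^ (2 * p) - 1)⁻¹) * D) * (X ^ ℓ - C (p : ℚ)) =
          C (((p : ℚ) ^ (2 * p) - 1)⁻¹) * ((X ^ n - 1) - (X ^ ℓ - C (p : ℚ)) * D) := by ring
      rw [h6, ← hD]
      refine Eq.trans ?_ h5
      ring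
  obtain ⟨q, ⟨hq, hspl⟩, hqB⟩ := (Pool.Agent.W976.MF.SPL R hmon hsep).exists_gt (max B n)
  have : Fact q.Prime := ⟨hq⟩
  have hqB' : B < q := lt_of_le_of_lt (le_max_left _ _) hqB
  have hqn : n < q := lt_of_le_of_lt (le_max_right _ _) hqB
  obtain ⟨T, hT⟩ := hspl
  have hRs : (R.map (Int.castRingHom (ZMod q))).Splits := by
    rw [hT]
    exact Splits.prod fun t _ => Splits.X_sub_C t
  have hR0 : R.map (Int.castRingHom (ZMod q)) ≠ 0 := (hmon.map _).ne_zero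
  have hRm : R.map (Int.castRingHom (ZMod q)) = (X ^ n - 1) * (X ^ ℓ - C (p : ZMod q)) := by
    rw [hR]
    simp
  have hnq : (n : ZMod q) ≠ 0 := by
    rw [Ne, ZMod.natCast_eq_zero_iff]
    intro h
    exact absurd (Nat.le_of_dvd hn0 h) (not_le.2 hqn)
  have hnz : NeZero (n : ZMod q) := ⟨hnq⟩
  have hdvd : n ∣ q - 1 := by
    have h1 : (cyclotomic n (ZMod q)).Splits := by
      refine hRs.of_dvd hR0 ?_
      rw [hRm]
      exact Dvd.dvd.mul_right (cyclotomic.dvd_X_pow_sub_one n _) _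
    obtain ⟨ω, hω⟩ := h1.exists_eval_eq_zero (degree_cyclotomic_pos n _ hn0).ne'
    have h2 : IsPrimitiveRoot ω n := isRoot_cyclotomic_iff.1 hω
    rw [h2.eq_orderOf]
    have hω0 : ω ≠ 0 := h2.ne_zero hn0.ne'
    exact ZMod.orderOf_dvd_card_sub_one hω0
  have hq1 : 1 ≤ q := hq.one_lt.le
  refine ⟨q, hq, hqB', ?_, ?_, ?_⟩
  · exact ((Nat.modEq_iff_dvd' hq1).2 ((Dvd.intro p rfl).trans hdvd)).symm
  · exact ((Nat.modEq_iff_dvd' hq1).2 ((Dvd.intro_left (2 * ℓ) rfl).trans hdvd)).symm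
  · have h1 : (X ^ ℓ - C (p : ZMod q)).Splits := by
      refine hRs.of_dvd hR0 ?_
      rw [hRm]
      exact Dvd.intro_left _ rfl
    have h2 : (X ^ ℓ - C (p : ZMod q)).degree ≠ 0 := by
      rw [degree_X_pow_sub_C hℓ]
      exact_mod_cast hℓ.ne'
    obtain ⟨u, hu⟩ := h1.exists_eval_eq_zero h2
    refine ⟨u, ?_⟩
    rw [eval_sub, eval_pow, eval_X, eval_C, sub_eq_zero] at hu
    exact hu

end Pool.Agent.K3h48.MN
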