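import Pool.Agent.K3h48.MN.Family
import Mathlib.NumberTheory.Padics.RingHoms
import Mathlib.NumberTheory.Padics.Complex

/-!
# Multinorm obstruction: local points
-/

set_option autoImplicit false
set_option linter.unusedSectionVars false

namespace Pool.Agent.K3h48.MN

open Polynomial IntermediateField Pool.Agent.W623.SecC

section padic

variable {r : ℕ} [hr : Fact r.Prime]

/-- a Frobenius automorphism over the `r`-adic numbers -/
theorem exists_FD_padic (B : Type) [Field B] [Algebra ℚ_[r] B] [IsAlgClosure ℚ_[r] B] :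
    ∃ D : FD ℚ_[r] B r, ∀ a : ℤ_[r], algebraMap ℚ_[r] B (a : ℚ_[r]) ∈ D.V := by
  letI : Algebra ℤ_[r] B := ((algebraMap ℚ_[r] B).comp (algebraMap ℤ_[r] ℚ_[r])).toAlgebra
  haveI : IsScalarTower ℤ_[r] ℚ_[r] B := IsScalarTower.of_algebraMap_eq fun _ => rfl
  have hcard : Nat.card (IsLocalRing.ResidueField ℤ_[r]) = r := by
    rw [Nat.card_congr (PadicInt.residueField (p := r)).toEquiv, Nat.card_zmod]
  have hirr : Irreducible (r : ℤ_[r]) := PadicInt.irreducible_p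
  have hfin : Finite (IsLocalRing.ResidueField ℤ_[r]) :=
    Nat.finite_of_card_ne_zero (by rw [hcard]; exact hr.out.ne_zero)
  obtain ⟨V, φ, h1, h2, h3, h4⟩ := W327.SecC.partB1 ℤ_[r] ℚ_[r] B
  rw [hcard] at h4
  refine ⟨⟨V, φ, ?_, h3, h4, ?_⟩, fun a => h1 a⟩
  · have h5 := h2 (r : ℤ_[r]) hirr.1
    rwa [map_natCast] at h5
  · intro N hN hrN c hc hc0
    have hNk : (N : IsLocalRing.ResidueField ℤ_[r]) ≠ 0 := by
      intro h
      apply hrN
      have h6 : ((r : ℕ) : IsLocalRing.ResidueField ℤ_[r]) = 0 := by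
        rw [← map_natCast (IsLocalRing.residue ℤ_[r]), IsLocalRing.residue_eq_zero_iff]
        exact hirr.1
      by_contra hcon
      have h7 : Nat.Coprime N r := (Nat.coprime_comm.1 ((hr.out.coprime_iff_not_dvd).2 hcon))
      have h8 : ((Nat.gcd N r : ℕ) : IsLocalRing.ResidueField ℤ_[r]) = 0 := by
        have h9 := congrArg (fun z : ℤ => (z : IsLocalRing.ResidueField ℤ_[r]))
          (Nat.gcd_eq_gcd_ab N r)
        simp only [Int.cast_natCast, Int.cast_add, Int.cast_mul, h, h6, zero_mul, add_zero] at h9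
        exact h9
      rw [h7, Nat.cast_one] at h8
      exact one_ne_zero h8
    have h5 := Pool.Agent.W308.SecC.partB2 ℤ_[r] ℚ_[r] B V h1 h2 (r : ℤ_[r]) hirr
      (X ^ N - 1 : ℤ_[r][X])
      (by
        have h6 : (X ^ N - 1 : ℤ_[r][X]).Monic := by
          have := monic_X_pow_sub_C (1 : ℤ_[r]) hN
          rwa [C_1] at this
        rw [h6.leadingCoeff]
        exact isUnit_one)
      (by
        rw [Polynomial.map_sub, Polynomial.map_pow, map_X, Polynomial.map_one]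
        have h6 := separable_X_pow_sub_C (1 : IsLocalRing.ResidueField ℤ_[r]) hNk one_ne_zero
        rwa [C_1] at h6) c (by
        have h6 : {θ : B | aeval θ (X ^ N - 1 : ℤ_[r][X]) = 0} = {ζ : B | ζ ^ N = 1} := by
          ext θ
          simp [sub_eq_zero]
        rw [h6]
        exact hc) hc0
    rw [map_natCast] at h5
    exact h5

variable {B : Type} [Field B] [CharZero B] [Algebra ℚ_[r] B] (D : FD ℚ_[r] B r)

namespace FD

lemma zpow_mem {j : ℤ} (h : (r : B) ^ j ∈ D.V) : 0 ≤ j := by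
  by_contra hcon
  push Not at hcon
  obtain ⟨n, hn⟩ : ∃ n : ℕ, j = -((n : ℤ) + 1) := ⟨(-j - 1).toNat, by omega⟩
  have h1 : (r : B) ^ (n + 1) ∈ D.V.nonunits := by
    rw [pow_succ]
    exact nonunit_mul (pow_mem (D.V.nonunits_subset D.r_mem) n) D.r_mem
  have h2 : (1 : B) ∈ D.V.nonunits := by
    have h3 : (1 : B) = (r : B) ^ j * (r : B) ^ (n + 1) := by
      rw [hn, zpow_neg, ← Nat.cast_succ, zpow_natCast, inv_mul_cancel₀ (pow_ne_zero _ r_ne)]
    rw [h3]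
    exact nonunit_mul h h1
  exact (isU_one (V := D.V)).not_nonunit h2

lemma int_dvd {m : ℤ} {i : ℕ} (h : (m : B) / (r : B) ^ i ∈ D.V) : (r : ℤ) ^ i ∣ m := by
  rcases eq_or_ne m 0 with rfl | hm
  · exact dvd_zero _
  have hm' : (m : ℚ) ≠ 0 := Int.cast_ne_zero.2 hm
  have h1 := D.rat_unit hm'
  rw [Rat.cast_intCast] at h1
  have h2 : (r : B) ^ (padicValRat r (m : ℚ) - (i : ℤ)) =
      ((m : B) / (r : B) ^ (padicValRat r (m : ℚ)))⁻¹ * ((m : B) / (r : B) ^ i) := by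
    have h3 : (m : B) ≠ 0 := Int.cast_ne_zero.2 hm
    have h4 : (r : B) ^ (padicValRat r (m : ℚ)) ≠ 0 := zpow_ne_zero _ r_ne
    rw [zpow_sub₀ r_ne, zpow_natCast]
    field_simp
  have h5 : (r : B) ^ (padicValRat r (m : ℚ) - (i : ℤ)) ∈ D.V := by
    rw [h2]
    exact mul_mem h1.2.2 h
  have h6 := D.zpow_mem h5
  rw [padicValRat.of_int] at h6
  have h7 : i ≤ padicValInt r m := by omega
  exact padicValInt_dvd_iff _ m |>.2 (Or.inr h7)

/-- one step of the expansion -/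
lemma step {N : ℕ} (hN : N ≠ 0) (hrN : ¬ r ∣ N) {x : B} (hx : x ∈ D.V) (hφ : D.φ x = x)
    (hE : x ∈ IntermediateField.adjoin ℚ_[r] {ζ : B | ζ ^ N = 1}) :
    ∃ n : ℤ, (x - n) / (r : B) ∈ D.V := by
  obtain ⟨n, hn⟩ := D.residue_int hx hφ
  refine ⟨n, ?_⟩
  rcases eq_or_ne (x - (n : B)) 0 with h0 | h0
  · rw [h0, zero_div]; exact zero_mem _
  obtain ⟨j, hj⟩ := D.unram N hN hrN _ (sub_mem hE (intCast_mem _ n)) h0
  have h1 : 1 ≤ j := by
    by_contra hcon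
    push Not at hcon
    obtain ⟨m, rfl⟩ : ∃ m : ℕ, j = -(m : ℤ) := ⟨(-j).toNat, by omega⟩
    rw [zpow_neg, div_inv_eq_mul, zpow_natCast, mul_comm] at hj
    exact hj.not_nonunit (nonunit_mul (pow_mem (D.V.nonunits_subset D.r_mem) m) hn)
  obtain ⟨m, rfl⟩ : ∃ m : ℕ, j = (m : ℤ) + 1 := ⟨(j - 1).toNat, by omega⟩
  have h2 : (x - (n : B)) / (r : B) = (r : B) ^ m * ((x - (n : B)) / (r : B) ^ ((m : ℤ) + 1)) := by
    have h3 : (r : B) ≠ 0 := r_ne
    rw [zpow_add_one₀ h3, zpow_natCast]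
    field_simp
  rw [h2]
  exact mul_mem (pow_mem (D.V.nonunits_subset D.r_mem) m) hj.2.1

/-- the elements of the unramified field fixed by Frobenius are `r`-adic numbers -/
theorem fixed_mem (hD : ∀ a : ℤ_[r], algebraMap ℚ_[r] B (a : ℚ_[r]) ∈ D.V)
    {N : ℕ} (hN : N ≠ 0) (hrN : ¬ r ∣ N) {x : B} (hφ : D.φ x = x)
    (hE : x ∈ IntermediateField.adjoin ℚ_[r] {ζ : B | ζ ^ N = 1}) :
    ∃ y : ℚ_[r], algebraMap ℚ_[r] B y = x := by
  -- reduction to integral elements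
  suffices h : ∀ x : B, x ∈ D.V → D.φ x = x →
      x ∈ IntermediateField.adjoin ℚ_[r] {ζ : B | ζ ^ N = 1} →
      ∃ y : ℚ_[r], algebraMap ℚ_[r] B y = x by
    rcases eq_or_ne x 0 with rfl | hx0
    · exact ⟨0, map_zero _⟩
    obtain ⟨j, hj⟩ := D.unram N hN hrN x hE hx0
    have hrE : (r : B) ^ j ∈ IntermediateField.adjoin ℚ_[r] {ζ : B | ζ ^ N = 1} :=
      _root_.zpow_mem (_root_.natCast_mem _ r) j
    obtain ⟨y, hy⟩ := h (x / (r : B) ^ j) hj.2.1
      (by rw [map_div₀, hφ, map_zpow₀, map_natCast]) (div_mem hE hrE)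
    refine ⟨y * (r : ℚ_[r]) ^ j, ?_⟩
    rw [map_mul, hy, map_zpow₀, map_natCast, div_mul_cancel₀ _ (zpow_ne_zero _ r_ne)]
  clear hφ hE x
  intro x hx hφ hE
  have hrE : ∀ i : ℕ, (r : B) ^ i ∈ IntermediateField.adjoin ℚ_[r] {ζ : B | ζ ^ N = 1} :=
    fun i => pow_mem (_root_.natCast_mem _ r) i
  have hr0 : (r : B) ≠ 0 := r_ne
  have hrV : ∀ i : ℕ, (r : B) ^ i ∈ D.V := fun i => pow_mem (D.V.nonunits_subset D.r_mem) i
  have key : ∀ i : ℕ, ∃ s : ℤ, (x - s) / (r : B) ^ i ∈ D.V := by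
    intro i
    induction i with
    | zero => exact ⟨0, by rw [Int.cast_zero, sub_zero, pow_zero, div_one]; exact hx⟩
    | succ i ih =>
      obtain ⟨s, hs⟩ := ih
      obtain ⟨n, hn⟩ := D.step hN hrN hs
        (by rw [map_div₀, map_sub, hφ, map_intCast, map_pow, map_natCast])
        (div_mem (sub_mem hE (intCast_mem _ s)) (hrE i))
      refine ⟨s + n * (r : ℤ) ^ i, ?_⟩
      have h1 : (x - ((s + n * (r : ℤ) ^ i : ℤ) : B)) / (r : B) ^ (i + 1) =
          ((x - s) / (r : B) ^ i - n) / r := by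
        push_cast
        rw [pow_succ]
        field_simp
        ring
      rw [h1]
      exact hn
  choose s hs using key
  have hcompat : ∀ {i j : ℕ}, i ≤ j → (r : ℤ) ^ i ∣ s i - s j := by
    intro i j hij
    apply D.int_dvd
    obtain ⟨m, rfl⟩ := Nat.exists_eq_add_of_le hij
    have h1 : (((s i - s (i + m) : ℤ) : B)) / (r : B) ^ i =
        ((x - s (i + m)) / (r : B) ^ (i + m)) * (r : B) ^ m - (x - s i) / (r : B) ^ i := by
      push_cast
      rw [pow_add]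
      field_simp
      ring
    rw [h1]
    exact sub_mem (mul_mem (hs _) (hrV _)) (hs _)
  have hprec : IsPrecomplete (IsLocalRing.maximalIdeal ℤ_[r]) ℤ_[r] := inferInstance
  obtain ⟨y, hy⟩ := hprec.prec' (fun i => (s i : ℤ_[r])) (by
    intro i j hij
    rw [SModEq.sub_mem, smul_eq_mul, Ideal.mul_top, PadicInt.maximalIdeal_eq_span_p,
      Ideal.span_singleton_pow, Ideal.mem_span_singleton]
    have h1 := (Int.castRingHom ℤ_[r]).map_dvd (hcompat hij)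
    simpa using h1)
  refine ⟨(y : ℚ_[r]), ?_⟩
  have hdiff : ∀ i : ℕ, (x - algebraMap ℚ_[r] B (y : ℚ_[r])) / (r : B) ^ i ∈ D.V := by
    intro i
    have h1 := hy i
    rw [SModEq.sub_mem, smul_eq_mul, Ideal.mul_top, PadicInt.maximalIdeal_eq_span_p,
      Ideal.span_singleton_pow, Ideal.mem_span_singleton] at h1
    obtain ⟨c, hc⟩ := h1
    have h2 : ((s i : ℤ) : B) - algebraMap ℚ_[r] B (y : ℚ_[r]) =
        (r : B) ^ i * algebraMap ℚ_[r] B (c : ℚ_[r]) := by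
      have h3 : algebraMap ℚ_[r] B (((s i : ℤ_[r]) - y : ℤ_[r]) : ℚ_[r]) =
          algebraMap ℚ_[r] B (((r : ℤ_[r]) ^ i * c : ℤ_[r]) : ℚ_[r]) := by rw [hc]
      rw [PadicInt.coe_sub, PadicInt.coe_mul, PadicInt.coe_pow, PadicInt.coe_intCast,
        PadicInt.coe_natCast, map_sub, map_mul, map_pow, map_intCast, map_natCast] at h3
      exact h3
    have h4 : (x - algebraMap ℚ_[r] B (y : ℚ_[r])) / (r : B) ^ i =
        (x - s i) / (r : B) ^ i + algebraMap ℚ_[r] B (c : ℚ_[r]) := by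
      have h5 : x - algebraMap ℚ_[r] B (y : ℚ_[r]) =
          (x - s i) + (r : B) ^ i * algebraMap ℚ_[r] B (c : ℚ_[r]) := by
        rw [← h2]; ring
      rw [h5]
      field_simp
    rw [h4]
    exact add_mem (hs i) (hD c)
  by_contra hne
  have h0 : x - algebraMap ℚ_[r] B (y : ℚ_[r]) ≠ 0 := fun h => hne (sub_eq_zero.1 h).symm
  obtain ⟨j, hj⟩ := D.unram N hN hrN _ (sub_mem hE (IntermediateField.algebraMap_mem _ _)) h0
  have h1 := mul_mem hj.2.2 (hdiff (j.toNat + 1))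
  have h2 : ((x - algebraMap ℚ_[r] B (y : ℚ_[r])) / (r : B) ^ j)⁻¹ *
      ((x - algebraMap ℚ_[r] B (y : ℚ_[r])) / (r : B) ^ (j.toNat + 1)) =
      (r : B) ^ (j - (j.toNat + 1 : ℕ)) := by
    rw [zpow_sub₀ r_ne, zpow_natCast]
    field_simp
  rw [h2] at h1
  have h3 := D.zpow_mem h1
  have h4 := Int.self_le_toNat j
  omega

end FD

end padic

end Pool.Agent.K3h48.MN

namespace Pool.Agent.K3h48.MN

open Polynomial IntermediateField Pool.Agent.W623.SecC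

lemma exists_prim (A : Type*) [Field A] [CharZero A] [IsAlgClosed A] {N : ℕ} (hN : 0 < N) :
    ∃ ζ : A, IsPrimitiveRoot ζ N := by
  have : NeZero (N : A) := ⟨Nat.cast_ne_zero.2 hN.ne'⟩
  obtain ⟨ζ, hζ⟩ := IsAlgClosed.exists_root (cyclotomic N A) (degree_cyclotomic_pos N A hN).ne'
  exact ⟨ζ, isRoot_cyclotomic_iff.1 hζ⟩

lemma aeval_hom {R S : Type*} [Field R] [CharZero R] [Field S] [CharZero S] (f : R →+* S)
    (P : ℚ[X]) (y : R) : aeval (f y) P = f (aeval y P) := by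
  rw [aeval_def, aeval_def, hom_eval₂]
  congr 1
  exact RingHom.ext_rat _ _

lemma pow_pow_one {A : Type*} [Field A] {ζ : A} {N : ℕ} (h : ζ ^ N = 1) (r : ℕ) :
    (ζ ^ r) ^ N = 1 := by
  rw [← pow_mul, mul_comm, pow_mul, h, one_pow]

theorem padic_root {E : Type*} [Field E] [CharZero E] {N : ℕ} (hN : 0 < N) {ξ₀ : E}
    (hξ₀ : IsPrimitiveRoot ξ₀ N) {r : ℕ} [hr : Fact r.Prime] (hrN : ¬ r ∣ N) (g : ℚ[X])
    (h : aeval (ξ₀ ^ r) g = aeval ξ₀ g) :
    ∃ y : ℚ_[r], aeval y (minpoly ℚ (aeval ξ₀ g : E)) = 0 := by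
  have hB0 : CharZero (AlgebraicClosure ℚ_[r]) :=
    charZero_of_injective_algebraMap (algebraMap ℚ_[r] (AlgebraicClosure ℚ_[r])).injective
  obtain ⟨D, hD⟩ := exists_FD_padic (r := r) (AlgebraicClosure ℚ_[r])
  obtain ⟨ξ, hξ⟩ := exists_prim (AlgebraicClosure ℚ_[r]) hN
  rw [minpoly_transfer hN hξ₀ hξ g]
  have h1 : aeval (ξ ^ r) g = aeval ξ g := by
    rw [← sub_eq_zero, ← expand_aeval, ← map_sub, aeval_zero_iff hN hξ, ← aeval_zero_iff hN hξ₀,
      map_sub, expand_aeval, h, sub_self]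
  have h2 : D.φ (aeval ξ g) = aeval ξ g := by
    have h3 := D.frob_root hN.ne' hrN hξ.pow_eq_one
    have h4 : D.φ (aeval ξ g) = aeval (D.φ ξ) g :=
      (aeval_hom ((D.φ : AlgebraicClosure ℚ_[r] ≃+* AlgebraicClosure ℚ_[r]) :
        AlgebraicClosure ℚ_[r] →+* AlgebraicClosure ℚ_[r]) g ξ).symm
    rw [h4, h3, h1]
  have h5 : aeval ξ g ∈ IntermediateField.adjoin ℚ_[r]
      {ζ : AlgebraicClosure ℚ_[r] | ζ ^ N = 1} := by
    have h6 : ξ ∈ IntermediateField.adjoin ℚ_[r] {ζ : AlgebraicClosure ℚ_[r] | ζ ^ N = 1} :=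
      IntermediateField.subset_adjoin _ _ hξ.pow_eq_one
    rw [aeval_def, eval₂_eq_sum_range]
    refine sum_mem fun i _ => mul_mem ?_ (pow_mem h6 i)
    have h7 : (algebraMap ℚ (AlgebraicClosure ℚ_[r])) (g.coeff i) =
        algebraMap ℚ_[r] (AlgebraicClosure ℚ_[r]) (algebraMap ℚ ℚ_[r] (g.coeff i)) := by
      simp
    rw [h7]
    exact IntermediateField.algebraMap_mem _ _
  obtain ⟨y, hy⟩ := D.fixed_mem hD hN.ne' hrN h2 h5
  refine ⟨y, ?_⟩
  apply (algebraMap ℚ_[r] (AlgebraicClosure ℚ_[r])).injective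
  rw [map_zero, ← aeval_hom, hy]
  exact minpoly.aeval ℚ (aeval ξ g : AlgebraicClosure ℚ_[r])

lemma root_of_aut {E : Type*} [Field E] [CharZero E] [IsGalois ℚ E] {θ ξ : E} {N : ℕ}
    (hN : 0 < N) (hξ : IsPrimitiveRoot ξ N) {r : ℕ} [hr : Fact r.Prime] (hrN : ¬ r ∣ N)
    (h1 : ∀ σ : E ≃ₐ[ℚ] E, σ ξ = ξ → σ θ = θ) (h2 : ∃ σ : E ≃ₐ[ℚ] E, σ ξ = ξ ^ r ∧ σ θ = θ) :
    ∃ y : ℚ_[r], aeval y (minpoly ℚ θ) = 0 := by
  have hξi : IsIntegral ℚ ξ := (hξ.isIntegral hN).tower_top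
  have h3 : θ ∈ ℚ⟮ξ⟯ := by
    refine Pool.Agent.W620.SC.mem_of_fixed _ fun σ hσ => h1 σ ?_
    exact (IntermediateField.mem_fixingSubgroup_iff _ _).1 hσ ξ (mem_adjoin_simple_self ℚ ξ)
  have h4 : θ ∈ Algebra.adjoin ℚ {ξ} := by
    rw [← IntermediateField.adjoin_simple_toSubalgebra_of_isAlgebraic hξi.isAlgebraic]
    exact h3
  rw [Algebra.adjoin_singleton_eq_range_aeval] at h4
  obtain ⟨g, hg⟩ := h4
  have hg' : aeval ξ g = θ := hg
  obtain ⟨σ, hσ, hσθ⟩ := h2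
  rw [← hg']
  refine padic_root hN hξ hrN g ?_
  rw [← hσ, aeval_algHom_apply σ, hg', hσθ]

section main

variable {ℓ p q : ℕ} [hℓ : Fact ℓ.Prime] [hp : Fact p.Prime] [hq : Fact q.Prime]
  {χ : (ZMod p)ˣ →* Multiplicative (ZMod ℓ)} {ψ : (ZMod q)ˣ →* Multiplicative (ZMod ℓ)}

lemma exists_aut_cyc {ζ : CyclotomicField (p * q) ℚ} (hζ : IsPrimitiveRoot ζ (p * q)) {n : ℕ}
    (hn : n.Coprime (p * q)) :
    ∃ σ : CyclotomicField (p * q) ℚ ≃ₐ[ℚ] CyclotomicField (p * q) ℚ, σ ζ = ζ ^ n ∧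
      ∀ ξ, ξ ^ (p * q) = 1 → σ ξ = ξ ^ n := by
  have hnorm : Normal ℚ (CyclotomicField (p * q) ℚ) :=
    (IsCyclotomicExtension.isGalois {p * q} ℚ (CyclotomicField (p * q) ℚ)).to_normal
  have h3 : minpoly ℚ (ζ ^ n) = minpoly ℚ ζ := by
    rw [← cyclotomic_eq_minpoly_rat hζ (Nat.pos_of_ne_zero pq_ne),
      ← cyclotomic_eq_minpoly_rat (hζ.pow_of_coprime n hn) (Nat.pos_of_ne_zero pq_ne)]
  obtain ⟨σ, hσ⟩ := (Normal.minpoly_eq_iff_mem_orbit _).1 h3
  have hσ' : σ ζ = ζ ^ n := hσ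
  refine ⟨σ, hσ', ?_⟩
  intro ξ hξ
  obtain ⟨i, -, rfl⟩ := hζ.eq_pow_of_pow_eq_one hξ
  rw [map_pow, hσ', ← pow_mul, ← pow_mul]
  exact congrArg (fun m => ζ ^ m) (mul_comm n i)

/-- the exponent of an automorphism of the cyclotomic field -/
lemma exp_cyc {ζ : CyclotomicField (p * q) ℚ} (hζ : IsPrimitiveRoot ζ (p * q))
    (σ : CyclotomicField (p * q) ℚ ≃ₐ[ℚ] CyclotomicField (p * q) ℚ) :
    ∃ n : ℕ, n.Coprime (p * q) ∧ σ ζ = ζ ^ n ∧ ∀ ξ, ξ ^ (p * q) = 1 → σ ξ = ξ ^ n := by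
  obtain ⟨n, hn, hσ⟩ := exists_exp' hζ σ
  refine ⟨n, hn, hσ, ?_⟩
  intro ξ hξ
  obtain ⟨i, -, rfl⟩ := hζ.eq_pow_of_pow_eq_one hξ
  rw [map_pow, hσ, ← pow_mul, ← pow_mul]
  exact congrArg (fun m => ζ ^ m) (mul_comm n i)

lemma modEq_of_pow {A : Type*} [Field A] {ξ : A} {N : ℕ} (hN : N ≠ 0) (hξ : IsPrimitiveRoot ξ N)
    {m n : ℕ} (h : ξ ^ m = ξ ^ n) : m ≡ n [MOD N] := by
  have : NeZero N := ⟨hN⟩
  have h0 : ξ ≠ 0 := hξ.ne_zero hN
  have h2 : ξ ^ ((n : ℤ) - (m : ℤ)) = 1 := by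
    rw [zpow_sub₀ h0, zpow_natCast, zpow_natCast, h, div_self (pow_ne_zero _ h0)]
  rw [hξ.zpow_eq_one_iff_dvd] at h2
  exact Nat.modEq_iff_dvd.2 h2

lemma pow_of_modEq {A : Type*} [Field A] {ξ : A} {N : ℕ} (hξ : IsPrimitiveRoot ξ N)
    {m n : ℕ} (h : m ≡ n [MOD N]) : ξ ^ m = ξ ^ n := by
  rw [pow_eq_pow_mod m hξ.pow_eq_one, pow_eq_pow_mod n hξ.pow_eq_one, h]

/-- over every `ℚ_r` one of the polynomials has a root -/
theorem exists_padic (hG : Good χ ψ) (θ : Option (ZMod ℓ) → CyclotomicField (p * q) ℚ)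
    (hθ : ∀ i, GenBy χ ψ (cs i).1 (cs i).2 (θ i)) (r : ℕ) [hr : Fact r.Prime] :
    ∃ i, ∃ y : ℚ_[r], aeval y (minpoly ℚ (θ i)) = 0 := by
  have hgal : IsGalois ℚ (CyclotomicField (p * q) ℚ) :=
    IsCyclotomicExtension.isGalois {p * q} ℚ (CyclotomicField (p * q) ℚ)
  obtain ⟨ζ, hζ⟩ : ∃ ζ : CyclotomicField (p * q) ℚ, IsPrimitiveRoot ζ (p * q) :=
    ⟨_, IsCyclotomicExtension.zeta_spec (p * q) ℚ _⟩
  have hcop : p.Coprime q := (Nat.coprime_primes hp.out hq.out).2 hG.ne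
  by_cases hrp : r = p
  · subst hrp
    refine ⟨some 0, root_of_aut hq.out.pos (prim_q hζ)
      (fun h => hG.ne ((Nat.prime_dvd_prime_iff_eq hr.out hq.out).1 h)) ?_ ?_⟩
    · intro σ hσ
      obtain ⟨n, hn, hσn, hall⟩ := exp_cyc hζ σ
      rw [hθ (some 0) σ n hall]
      have h1 : (ζ ^ r) ^ n = (ζ ^ r) ^ 1 := by
        rw [← hall (ζ ^ r) (pow_pow_one hζ.pow_eq_one r), hσ,
          pow_one]
      have h2 := modEq_of_pow hq.out.ne_zero (prim_q hζ) h1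
      have h3 : ((n : ℕ) : ZMod q) = 1 := by
        rw [(ZMod.natCast_eq_natCast_iff _ _ _).2 h2, Nat.cast_one]
      rw [h3, ind_one]
      simp [cs]
    · obtain ⟨n, hn1, hn2⟩ := Nat.chineseRemainder hcop 1 r
      have hnr : (n : ZMod q) = (r : ZMod q) := (ZMod.natCast_eq_natCast_iff _ _ _).2 hn2
      have hn : n.Coprime (r * q) := by
        refine Nat.Coprime.mul_right ?_ ?_
        · rw [Nat.coprime_comm, hr.out.coprime_iff_not_dvd, ← ZMod.natCast_eq_zero_iff,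
            (ZMod.natCast_eq_natCast_iff _ _ _).2 hn1, Nat.cast_one]
          exact one_ne_zero
        · rw [Nat.coprime_comm, hq.out.coprime_iff_not_dvd, ← ZMod.natCast_eq_zero_iff, hnr,
            ZMod.natCast_eq_zero_iff]
          intro h
          exact hG.ne ((Nat.prime_dvd_prime_iff_eq hq.out hr.out).1 h).symm
      obtain ⟨σ, hσn, hall⟩ := exists_aut_cyc hζ hn
      refine ⟨σ, ?_, ?_⟩
      · rw [hall (ζ ^ r) (pow_pow_one hζ.pow_eq_one r)]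
        exact pow_of_modEq (prim_q hζ) hn2
      · rw [hθ (some 0) σ n hall, hnr, hG.p_zero]
        simp [cs]
  by_cases hrq : r = q
  · subst hrq
    refine ⟨none, root_of_aut hp.out.pos (prim_p hζ)
      (fun h => hG.ne ((Nat.prime_dvd_prime_iff_eq hr.out hp.out).1 h).symm) ?_ ?_⟩
    · intro σ hσ
      obtain ⟨n, hn, hσn, hall⟩ := exp_cyc hζ σ
      rw [hθ none σ n hall]
      have h1 : (ζ ^ r) ^ n = (ζ ^ r) ^ 1 := by
        rw [← hall (ζ ^ r) (pow_pow_one hζ.pow_eq_one r), hσ,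
          pow_one]
      have h2 := modEq_of_pow hp.out.ne_zero (prim_p hζ) h1
      have h3 : ((n : ℕ) : ZMod p) = 1 := by
        rw [(ZMod.natCast_eq_natCast_iff _ _ _).2 h2, Nat.cast_one]
      rw [h3, ind_one]
      simp [cs]
    · obtain ⟨n, hn1, hn2⟩ := Nat.chineseRemainder hcop r 1
      have hnr : (n : ZMod p) = (r : ZMod p) := (ZMod.natCast_eq_natCast_iff _ _ _).2 hn1
      have hn : n.Coprime (p * r) := by
        refine Nat.Coprime.mul_right ?_ ?_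
        · rw [Nat.coprime_comm, hp.out.coprime_iff_not_dvd, ← ZMod.natCast_eq_zero_iff, hnr,
            ZMod.natCast_eq_zero_iff]
          intro h
          exact hG.ne ((Nat.prime_dvd_prime_iff_eq hp.out hr.out).1 h)
        · rw [Nat.coprime_comm, hr.out.coprime_iff_not_dvd, ← ZMod.natCast_eq_zero_iff,
            (ZMod.natCast_eq_natCast_iff _ _ _).2 hn2, Nat.cast_one]
          exact one_ne_zero
      obtain ⟨σ, hσn, hall⟩ := exists_aut_cyc hζ hn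
      refine ⟨σ, ?_, ?_⟩
      · rw [hall (ζ ^ r) (pow_pow_one hζ.pow_eq_one r)]
        exact pow_of_modEq (prim_p hζ) hn1
      · rw [hθ none σ n hall, hnr, hG.q_zero]
        simp [cs]
  -- the unramified case
  have hrp' : r.Coprime p := (Nat.coprime_primes hr.out hp.out).2 hrp
  have hrq' : r.Coprime q := (Nat.coprime_primes hr.out hq.out).2 hrq
  have hrpq : r.Coprime (p * q) := Nat.Coprime.mul_right hrp' hrq'
  obtain ⟨i, hi⟩ : ∃ i : Option (ZMod ℓ),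
      (cs i).1 * ind χ (r : ZMod p) + (cs i).2 * ind ψ (r : ZMod q) = 0 := by
    by_cases h0 : ind χ (r : ZMod p) = 0
    · exact ⟨none, by simp [cs, h0]⟩
    · refine ⟨some (-(ind ψ (r : ZMod q)) / ind χ (r : ZMod p)), ?_⟩
      simp only [cs]
      field_simp
      ring
  refine ⟨i, root_of_aut (Nat.pos_of_ne_zero pq_ne) hζ ?_ ?_ ?_⟩
  · rw [← hr.out.coprime_iff_not_dvd]
    exact hrpq
  · intro σ hσ
    obtain ⟨n, hn, hσn, hall⟩ := exp_cyc hζ σ
    have h1 : ζ ^ n = ζ ^ 1 := by rw [← hσn, hσ, pow_one]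
    have h2 := modEq_of_pow pq_ne hζ h1
    rw [hθ i σ n hall]
    have h3 := kn_congr (χ := χ) (ψ := ψ) (s := (cs i).1) (t := (cs i).2) h2
    rw [kn_one] at h3
    exact h3
  · obtain ⟨σ, hσn, hall⟩ := exists_aut_cyc hζ hrpq
    exact ⟨σ, hσn, (hθ i σ r hall).2 hi⟩

/-- over `ℝ` all polynomials have a root -/
theorem exists_real (hG : Good χ ψ) (θ : Option (ZMod ℓ) → CyclotomicField (p * q) ℚ)
    (hθ : ∀ i, GenBy χ ψ (cs i).1 (cs i).2 (θ i)) (i : Option (ZMod ℓ)) :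
    ∃ y : ℝ, aeval y (minpoly ℚ (θ i)) = 0 := by
  obtain ⟨ζ, hζ⟩ : ∃ ζ : CyclotomicField (p * q) ℚ, IsPrimitiveRoot ζ (p * q) :=
    ⟨_, IsCyclotomicExtension.zeta_spec (p * q) ℚ _⟩
  obtain ⟨g, hg, hgn⟩ := exists_g (hθ i) hζ
  set ξ : ℂ := Complex.exp (2 * Real.pi * Complex.I / (p * q : ℕ)) with hξd
  have hξ : IsPrimitiveRoot ξ (p * q) := Complex.isPrimitiveRoot_exp _ pq_ne
  have hpos : 0 < p * q := Nat.pos_of_ne_zero pq_ne
  rw [hg, minpoly_transfer hpos hζ hξ g]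
  have hcop : (p * q - 1).Coprime (p * q) := by
    rw [Nat.coprime_comm]
    have h1 : p * q = (p * q - 1) + 1 := (Nat.sub_add_cancel hpos).symm
    conv_lhs => rw [h1]
    exact (Nat.coprime_self_add_left).2 (Nat.coprime_one_left _)
  have hcast : ∀ m : ℕ, m ∣ p * q → ((p * q - 1 : ℕ) : ZMod m) = -1 := by
    intro m hm
    rw [Nat.cast_sub hpos, (ZMod.natCast_eq_zero_iff _ _).2 hm, Nat.cast_one, zero_sub]
  have h0 : kn χ ψ (cs i).1 (cs i).2 (p * q - 1) = 0 := by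
    rw [kn, hcast p (dvd_mul_right p q), hcast q (dvd_mul_left q p), hG.neg_left, hG.neg_right]
    simp
  have h1 := ((hgn.transfer hζ hξ) _ hcop).2 h0
  have h2 : ξ ^ (p * q - 1) = (starRingEnd ℂ) ξ := by
    have h3 : ξ * ξ ^ (p * q - 1) = 1 := by
      rw [← pow_succ', Nat.sub_add_cancel hpos, hξ.pow_eq_one]
    have h4 : ξ * (starRingEnd ℂ) ξ = 1 := by
      rw [Complex.mul_conj, Complex.normSq_eq_norm_sq, hξ.norm'_eq_one pq_ne]
      simp
    exact mul_left_cancel₀ (hξ.ne_zero pq_ne) (h3.trans h4.symm)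
  have h5 : (starRingEnd ℂ) (aeval ξ g) = aeval ξ g := by
    rw [← aeval_hom, ← h2, h1]
  obtain ⟨y, hy⟩ := Complex.conj_eq_iff_real.1 h5
  refine ⟨y, ?_⟩
  apply Complex.ofRealHom.injective
  rw [map_zero, ← aeval_hom]
  have h8 : Complex.ofRealHom y = aeval ξ g := hy.symm
  rw [h8]
  exact minpoly.aeval ℚ (aeval ξ g : ℂ)

/-- points over all completions -/
theorem local_points (hG : Good χ ψ) (θ : Option (ZMod ℓ) → CyclotomicField (p * q) ℚ)
    (hθ : ∀ i, GenBy χ ψ (cs i).1 (cs i).2 (θ i)) {k : Type*} [Field k] [CharZero k]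
    (S : Option (ZMod ℓ) → Finset k) (hS : ∀ i, (S i).Nonempty) {L : Type*} [Field L]
    [Algebra k L]
    (hL : (∃ (r : ℕ) (_ : Fact r.Prime), Nonempty (ℚ_[r] →+* L)) ∨ Nonempty (ℝ →+* L)) :
    ∃ x : L, aeval x (fam (fun i => minpoly ℚ (θ i)) S) = 0 := by
  haveI : CharZero L := charZero_of_injective_algebraMap (algebraMap k L).injective
  obtain ⟨i, x, hx⟩ : ∃ i, ∃ x : L,
      aeval x ((minpoly ℚ (θ i)).map (algebraMap ℚ k)) = 0 := by
    have hmap : ∀ (P : ℚ[X]) (z : L), aeval z (P.map (algebraMap ℚ k)) = aeval z P := by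
      intro P z
      rw [aeval_def, eval₂_map, aeval_def]
      congr 1
      exact RingHom.ext_rat _ _
    rcases hL with ⟨r, hr, ⟨f⟩⟩ | hf
    · obtain ⟨i, y, hy⟩ := exists_padic hG θ hθ r
      refine ⟨i, f y, ?_⟩
      rw [hmap, aeval_hom, hy, map_zero]
    · obtain ⟨f⟩ := hf
      obtain ⟨y, hy⟩ := exists_real hG θ hθ none
      refine ⟨none, f y, ?_⟩
      rw [hmap, aeval_hom, hy, map_zero]
  obtain ⟨j, hj⟩ := hS i
  refine ⟨x + algebraMap k L j, ?_⟩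
  rw [fam_eval]
  refine Finset.prod_eq_zero (Finset.mem_univ i) (Finset.prod_eq_zero hj ?_)
  rw [add_sub_cancel_right]
  exact hx

end main

end Pool.Agent.K3h48.MN
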