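import Pool.Agent.K3h48.MN.Gen
import Pool.Agent.K3h48.MN.Local
import Pool.Agent.K3h48.MN.Exist
import Pool.Agent.K3h48.MN.Dens

/-!
# Multinorm obstruction: final statements
-/

set_option autoImplicit false
set_option linter.unusedSectionVars false

namespace Pool.Agent.K3h48.MN

open Polynomial IntermediateField Pool.Agent.W620.SC

universe u v w

/-- the polynomial `g` is monic and irreducible over `k`, it is not linear and it has a root in
`k[x]/(P)` -/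
structure IsFactor {k : Type*} [Field k] [CharZero k] (P : ℚ[X]) (g : k[X]) : Prop where
  monic : g.Monic
  irreducible : Irreducible g
  not_linear : g.natDegree ≠ 1
  root : ∃ r : AdjoinRoot (P.map (algebraMap ℚ k)), aeval r g = 0

lemma IsFactor.dvd {k : Type*} [Field k] [CharZero k] {P : ℚ[X]} {g : k[X]}
    (h : IsFactor P g) : ∃ H : k[X], P.map (algebraMap ℚ k) ∣ g.comp H := by
  obtain ⟨r, hr⟩ := h.root
  obtain ⟨H, rfl⟩ := AdjoinRoot.mk_surjective r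
  refine ⟨H, ?_⟩
  rw [← AdjoinRoot.mk_eq_zero, ← hr]
  have h1 := aeval_algHom_apply (AdjoinRoot.mkₐ (P.map (algebraMap ℚ k))) H g
  have h2 : (AdjoinRoot.mkₐ (P.map (algebraMap ℚ k))) (aeval H g) =
      aeval (AdjoinRoot.mk (P.map (algebraMap ℚ k)) H) g := h1.symm
  rw [← h2]
  rfl

section points

variable {ℓ p q : ℕ} [hℓ : Fact ℓ.Prime] [hp : Fact p.Prime] [hq : Fact q.Prime]
  {χ : (ZMod p)ˣ →* Multiplicative (ZMod ℓ)} {ψ : (ZMod q)ˣ →* Multiplicative (ZMod ℓ)}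
variable {A : Type*} [Field A] [CharZero A] [IsAlgClosed A] {ζ : A}
  {k : Type*} [Field k] [NumberField k] [Algebra k A] [Algebra.IsAlgebraic k A]

lemma adm_eval (hζ : IsPrimitiveRoot ζ (p * q)) {e : Option (ZMod ℓ) → ℚ[X]}
    (he : ∀ i, Gn χ ψ (cs i).1 (cs i).2 ζ (e i))
    (hmove : ∀ i : Option (ZMod ℓ), ∃ σ : A ≃ₐ[k] A, kap χ ψ (cs i).1 (cs i).2 hζ σ ≠ 1)
    {i : Option (ZMod ℓ)} {g h : k[X]} (H : Adm (aeval ζ (e i) : A) g h) (z : k) :
    algebraMap k A (eval z g) = (((minpoly k (aeval ζ (e i) : A)).aroots A).map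
      (fun ρ => algebraMap k A z - aeval ρ h)).prod := by
  classical
  have hint : IsIntegral k (aeval ζ (e i) : A) := Algebra.IsIntegral.isIntegral _
  have hnd : ((minpoly k (aeval ζ (e i) : A)).aroots A).Nodup :=
    nodup_roots ((minpoly.irreducible hint).separable.map)
  have hR : ∀ ρ, ρ ∈ ((minpoly k (aeval ζ (e i) : A)).aroots A).toFinset ↔
      aeval ρ (minpoly k (aeval ζ (e i) : A)) = 0 := by
    intro ρ
    rw [Multiset.mem_toFinset, mem_aroots]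
    exact ⟨fun h => h.2, fun h => ⟨minpoly.ne_zero hint, h⟩⟩
  have h1 := prod_roots hζ he hmove H hR
  have h2 : algebraMap k A (eval z g) = eval (algebraMap k A z) (g.map (algebraMap k A)) := by
    rw [eval_map_algebraMap, aeval_algebraMap_apply, coe_aeval_eq_eval]
  have h3 : (((minpoly k (aeval ζ (e i) : A)).aroots A).map
      (fun ρ => algebraMap k A z - aeval ρ h)).prod =
      ∏ ρ ∈ ((minpoly k (aeval ζ (e i) : A)).aroots A).toFinset,
        (algebraMap k A z - aeval ρ h) := by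
    rw [Finset.prod, Multiset.toFinset_val, Multiset.dedup_eq_self.2 hnd]
  rw [h2, h1, h3, eval_prod]
  refine Finset.prod_congr rfl fun ρ _ => ?_
  rw [eval_sub, eval_X, eval_C]

/-- there are no affine points -/
theorem gen_no_points (hζ : IsPrimitiveRoot ζ (p * q)) {e : Option (ZMod ℓ) → ℚ[X]}
    (he : ∀ i, Gn χ ψ (cs i).1 (cs i).2 ζ (e i))
    (hmove : ∀ i : Option (ZMod ℓ), ∃ σ : A ≃ₐ[k] A, kap χ ψ (cs i).1 (cs i).2 hζ σ ≠ 1)
    (G : Option (ZMod ℓ) → Finset k[X])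
    (hG : ∀ i, ∀ g ∈ G i, ∃ h, Adm (aeval ζ (e i) : A) g h) (a : k)
    (hnot : ¬ ∃ (c : ∀ i, k⟮(aeval ζ (e i) : A)⟯) (ρ : k),
      a = ρ ^ ℓ * ∏ i, Algebra.norm k (c i)) (x y : k) :
    a * y ^ ℓ ≠ ∏ i, ∏ g ∈ G i, eval x g := by
  classical
  intro h
  choose! hh hH using hG
  have hint : ∀ i, IsIntegral k (aeval ζ (e i) : A) := fun i => Algebra.IsIntegral.isIntegral _
  have hnorm : ∀ (i : Option (ZMod ℓ)), ∀ g ∈ G i, Algebra.norm k (algebraMap k
      k⟮(aeval ζ (e i) : A)⟯ x - aeval (AdjoinSimple.gen k (aeval ζ (e i) : A)) (hh i g)) =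
      eval x g := by
    intro i g hg
    have hfin : FiniteDimensional k k⟮(aeval ζ (e i) : A)⟯ := adjoin.finiteDimensional (hint i)
    apply (algebraMap k A).injective
    rw [Algebra.norm_eq_prod_embeddings, adm_eval hζ he hmove (hH i g hg) x,
      ← prod_embeddings (aeval ζ (e i) : A) (hint i)
        (fun ρ : A => algebraMap k A x - aeval ρ (hh i g))]
    refine Finset.prod_congr rfl fun φ _ => ?_
    rw [map_sub, φ.commutes, ← aeval_algHom_apply]
  by_cases hy : y = 0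
  · rw [hy, zero_pow hℓ.out.ne_zero, mul_zero] at h
    obtain ⟨i, -, hi⟩ := Finset.prod_eq_zero_iff.1 h.symm
    obtain ⟨g, hg, hj⟩ := Finset.prod_eq_zero_iff.1 hi
    exact (hH i g hg).deg (natDegree_eq_of_degree_eq_some
      (degree_eq_one_of_irreducible_of_root (hH i g hg).irr hj))
  · apply hnot
    refine ⟨fun i => ∏ g ∈ G i, (algebraMap k k⟮(aeval ζ (e i) : A)⟯ x -
      aeval (AdjoinSimple.gen k (aeval ζ (e i) : A)) (hh i g)), y⁻¹, ?_⟩
    have h1 : ∀ i : Option (ZMod ℓ), Algebra.norm k (∏ g ∈ G i, (algebraMap k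
      k⟮(aeval ζ (e i) : A)⟯ x - aeval (AdjoinSimple.gen k (aeval ζ (e i) : A)) (hh i g))) =
        ∏ g ∈ G i, eval x g := by
      intro i
      rw [map_prod]
      exact Finset.prod_congr rfl fun g hg => hnorm i g hg
    rw [Finset.prod_congr rfl fun i _ => h1 i, ← h, inv_pow, mul_left_comm,
      inv_mul_cancel₀ (pow_ne_zero ℓ hy), mul_one]

lemma gen_disj (hζ : IsPrimitiveRoot ζ (p * q)) {e : Option (ZMod ℓ) → ℚ[X]}
    (he : ∀ i, Gn χ ψ (cs i).1 (cs i).2 ζ (e i))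
    (hmove : ∀ i : Option (ZMod ℓ), ∃ σ : A ≃ₐ[k] A, kap χ ψ (cs i).1 (cs i).2 hζ σ ≠ 1)
    {i i' : Option (ZMod ℓ)} {g h h' : k[X]} (H : Adm (aeval ζ (e i) : A) g h)
    (H' : Adm (aeval ζ (e i') : A) g h') : i = i' := by
  have h1 := H.root (minpoly.aeval k (aeval ζ (e i) : A))
  have h2 := H'.minpoly_eq (minpoly.aeval k (aeval ζ (e i') : A))
  rw [h2] at h1
  obtain ⟨τ, hτ⟩ := root_orbit (k := k) h1
  rw [aut_aeval] at hτ
  have h3 : aeval (τ (aeval ζ (e i') : A)) (minpoly k (aeval ζ (e i') : A)) = 0 := by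
    rw [← aut_aeval, minpoly.aeval, map_zero]
  exact (distinct' hζ he hmove H H' (minpoly.aeval k _) h3 hτ.symm).1

/-- the right hand side is separable -/
theorem gen_separable (hζ : IsPrimitiveRoot ζ (p * q)) {e : Option (ZMod ℓ) → ℚ[X]}
    (he : ∀ i, Gn χ ψ (cs i).1 (cs i).2 ζ (e i))
    (hmove : ∀ i : Option (ZMod ℓ), ∃ σ : A ≃ₐ[k] A, kap χ ψ (cs i).1 (cs i).2 hζ σ ≠ 1)
    (G : Option (ZMod ℓ) → Finset k[X])
    (hG : ∀ i, ∀ g ∈ G i, ∃ h, Adm (aeval ζ (e i) : A) g h) :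
    (∏ i, ∏ g ∈ G i, g).Separable := by
  classical
  choose! hh hH using hG
  have hcop : ∀ (i i' : Option (ZMod ℓ)) (g g' : k[X]), g ∈ G i → g' ∈ G i' → g ≠ g' →
      IsCoprime g g' := by
    intro i i' g g' hg hg' hne
    refine ((hH i g hg).irr.coprime_iff_not_dvd).2 fun hdvd => hne ?_
    exact eq_of_monic_of_associated (hH i g hg).monic (hH i' g' hg').monic
      ((hH i g hg).irr.associated_of_dvd (hH i' g' hg').irr hdvd)
  refine separable_prod' ?_ fun i _ => separable_prod' ?_ fun g hg => (hH i g hg).irr.separable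
  · intro i _ i' _ hii
    refine IsCoprime.prod_left fun g hg => IsCoprime.prod_right fun g' hg' =>
      hcop i i' g g' hg hg' ?_
    rintro rfl
    exact hii (gen_disj hζ he hmove (hH i g hg) (hH i' g hg'))
  · intro g hg g' hg' hne
    exact hcop i i g g' hg hg' hne

theorem gen_natDegree (hζ : IsPrimitiveRoot ζ (p * q)) {e : Option (ZMod ℓ) → ℚ[X]}
    (he : ∀ i, Gn χ ψ (cs i).1 (cs i).2 ζ (e i))
    (hmove : ∀ i : Option (ZMod ℓ), ∃ σ : A ≃ₐ[k] A, kap χ ψ (cs i).1 (cs i).2 hζ σ ≠ 1)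
    (G : Option (ZMod ℓ) → Finset k[X])
    (hG : ∀ i, ∀ g ∈ G i, ∃ h, Adm (aeval ζ (e i) : A) g h) :
    (∏ i, ∏ g ∈ G i, g).natDegree = ℓ * ∑ i, (G i).card := by
  classical
  choose! hh hH using hG
  have hdeg : ∀ (i : Option (ZMod ℓ)), ∀ g ∈ G i, g.natDegree = ℓ := by
    intro i g hg
    have hint : IsIntegral k (aeval ζ (e i) : A) := Algebra.IsIntegral.isIntegral _
    have hR : ∀ ρ, ρ ∈ ((minpoly k (aeval ζ (e i) : A)).aroots A).toFinset ↔
        aeval ρ (minpoly k (aeval ζ (e i) : A)) = 0 := by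
      intro ρ
      rw [Multiset.mem_toFinset, mem_aroots]
      exact ⟨fun h => h.2, fun h => ⟨minpoly.ne_zero hint, h⟩⟩
    have h1 := congrArg natDegree (prod_roots hζ he hmove (hH i g hg) hR)
    rw [natDegree_map, natDegree_finset_prod_X_sub_C_eq_card] at h1
    rw [h1]
    obtain ⟨σ, hσ⟩ := hmove i
    have h2 : (minpoly k (aeval ζ (e i) : A)).natDegree = ℓ := roots_eq ((he i).fix_iff hζ) hσ
    have hspl : ((minpoly k (aeval ζ (e i) : A)).map (algebraMap k A)).Splits :=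
      IsAlgClosed.splits _
    have h3 := hspl.natDegree_eq_card_roots
    rw [natDegree_map, h2] at h3
    rw [Multiset.toFinset_card_of_nodup
      (nodup_roots ((minpoly.irreducible hint).separable.map))]
    exact h3.symm
  rw [natDegree_prod_of_monic _ _ fun i _ => monic_prod_of_monic _ _ fun g hg =>
    (hH i g hg).monic, Finset.mul_sum]
  refine Finset.sum_congr rfl fun i _ => ?_
  rw [natDegree_prod_of_monic _ _ fun g hg => (hH i g hg).monic,
    Finset.sum_congr rfl fun g hg => hdeg i g hg, Finset.sum_const, smul_eq_mul, mul_comm]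

end points

section final

variable {ℓ p q : ℕ} [hℓ : Fact ℓ.Prime] [hp : Fact p.Prime] [hq : Fact q.Prime]
  {χ : (ZMod p)ˣ →* Multiplicative (ZMod ℓ)} {ψ : (ZMod q)ˣ →* Multiplicative (ZMod ℓ)}
  {θ : Option (ZMod ℓ) → CyclotomicField (p * q) ℚ}

/-- the twist `a` is obstructed -/
def Obs (χ : (ZMod p)ˣ →* Multiplicative (ZMod ℓ)) (ψ : (ZMod q)ˣ →* Multiplicative (ZMod ℓ))
    {k : Type u} [Field k] [NumberField k] (a : k) : Prop :=
  ∃ m : ZMod ℓ, m ≠ 0 ∧ ssum (wt χ ψ m) (Algebra.norm ℚ a) ≠ 0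

lemma Obs.ne_zero {k : Type u} [Field k] [NumberField k] {a : k} (h : Obs χ ψ a) : a ≠ 0 := by
  obtain ⟨m, -, h⟩ := h
  rintro rfl
  rw [Algebra.norm_zero, ssum_zero] at h
  exact h rfl

/-- all data in an algebraic closure -/
theorem setup (hG : Good χ ψ) (hθ : ∀ i, GenBy χ ψ (cs i).1 (cs i).2 (θ i)) {A : Type*} [Field A]
    [CharZero A] [IsAlgClosed A] {k : Type u} [Field k] [NumberField k] [Algebra k A]
    [Algebra.IsAlgebraic k A] {a : k} (ha : Obs χ ψ a) (G : Option (ZMod ℓ) → Finset k[X])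
    (hGf : ∀ i, ∀ g ∈ G i, IsFactor (minpoly ℚ (θ i)) g) :
    ∃ (ζ : A) (hζ : IsPrimitiveRoot ζ (p * q)) (e : Option (ZMod ℓ) → ℚ[X]),
      (∀ i, Gn χ ψ (cs i).1 (cs i).2 ζ (e i)) ∧
      (∀ i : Option (ZMod ℓ), ∃ σ : A ≃ₐ[k] A, kap χ ψ (cs i).1 (cs i).2 hζ σ ≠ 1) ∧
      (∀ i, ∀ g ∈ G i, ∃ h, Adm (aeval ζ (e i) : A) g h) ∧
      (∀ i, (minpoly ℚ (θ i)).map (algebraMap ℚ k) = minpoly k (aeval ζ (e i) : A)) ∧
      ¬ ∃ (c : ∀ i, k⟮(aeval ζ (e i) : A)⟯) (ρ : k), a = ρ ^ ℓ * ∏ i, Algebra.norm k (c i) := by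
  obtain ⟨ζ₀, hζ₀⟩ : ∃ ζ : CyclotomicField (p * q) ℚ, IsPrimitiveRoot ζ (p * q) :=
    ⟨_, IsCyclotomicExtension.zeta_spec (p * q) ℚ _⟩
  have hpos : 0 < p * q := Nat.pos_of_ne_zero pq_ne
  obtain ⟨ζ, hζ⟩ := exists_prim A hpos
  have h1 := fun i => exists_g (hθ i) hζ₀
  choose e he1 he2 using h1
  have he : ∀ i, Gn χ ψ (cs i).1 (cs i).2 ζ (e i) := fun i => (he2 i).transfer hζ₀ hζ
  obtain ⟨m, hm, ham⟩ := ha
  have hnot := not_norms hG hζ he hm a ham
  have hmove := exists_move (k := k) hζ he a hnot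
  have hpoly : ∀ i, (minpoly ℚ (θ i)).map (algebraMap ℚ k) = minpoly k (aeval ζ (e i) : A) := by
    intro i
    rw [← (minpoly_map hζ (he i) (hmove i)).1, ← minpoly_transfer hpos hζ₀ hζ (e i), ← he1 i]
  refine ⟨ζ, hζ, e, he, hmove, ?_, hpoly, hnot⟩
  intro i g hg
  have h2 := hGf i g hg
  obtain ⟨h, hh⟩ := h2.dvd
  refine ⟨h, h2.monic, h2.irreducible, h2.not_linear, ?_⟩
  rw [← hpoly i]
  exact hh

theorem final_no_section (hG : Good χ ψ) (hθ : ∀ i, GenBy χ ψ (cs i).1 (cs i).2 (θ i))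
    {k : Type u} {F : Type v} {Ω : Type w} [Field k] [NumberField k] [Field F] [Field Ω]
    [Algebra k F] [Algebra F Ω] [Algebra k Ω] [IsScalarTower k F Ω] [IsAlgClosed Ω]
    [Algebra.IsAlgebraic F Ω] {a : k} (ha : Obs χ ψ a) (G : Option (ZMod ℓ) → Finset k[X])
    (hGf : ∀ i, ∀ g ∈ G i, IsFactor (minpoly ℚ (θ i)) g) {n : ℕ} (hn : ℓ ∣ n) (x y : F)
    (hy : y ≠ 0) (hxy : algebraMap k F a * y ^ n = aeval x (∏ i, ∏ g ∈ G i, g))
    (U : Set (ValuationSubring F)) (hU : ∀ O ∈ U, ∀ c : k, algebraMap k F c ∈ O)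
    (hinf : (∀ i, ℓ ∣ (G i).card) ∨ ∀ O ∈ U, x ∈ O) : IsEmpty (GSection k F Ω U) := by
  have hac : IsAlgClosure k (algebraicClosure k Ω) := inferInstance
  have hA : IsAlgClosed (algebraicClosure k Ω) := hac.1
  have hc : CharZero (algebraicClosure k Ω) :=
    charZero_of_injective_algebraMap (algebraMap k (algebraicClosure k Ω)).injective
  obtain ⟨ζ, hζ, e, he, hmove, hadm, -, hnot⟩ := setup (A := algebraicClosure k Ω) hG hθ ha G hGf
  obtain ⟨n', rfl⟩ := hn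
  refine gen_no_section hζ he hmove G hadm a ha.ne_zero x (y ^ n') (pow_ne_zero _ hy) ?_ U hU hinf
    hnot
  rw [← pow_mul, mul_comm n' ℓ, hxy, map_prod]
  exact Finset.prod_congr rfl fun i _ => map_prod _ _ _

theorem final_no_points (hG : Good χ ψ) (hθ : ∀ i, GenBy χ ψ (cs i).1 (cs i).2 (θ i))
    {k : Type u} [Field k] [NumberField k] {a : k} (ha : Obs χ ψ a)
    (G : Option (ZMod ℓ) → Finset k[X])
    (hGf : ∀ i, ∀ g ∈ G i, IsFactor (minpoly ℚ (θ i)) g) {n : ℕ} (hn : ℓ ∣ n) (x y : k) :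
    a * y ^ n ≠ eval x (∏ i, ∏ g ∈ G i, g) := by
  obtain ⟨ζ, hζ, e, he, hmove, hadm, -, hnot⟩ := setup (A := AlgebraicClosure k) hG hθ ha G hGf
  obtain ⟨n', rfl⟩ := hn
  intro h
  refine gen_no_points hζ he hmove G hadm a hnot x (y ^ n') ?_
  rw [← pow_mul, mul_comm n' ℓ, h, eval_prod]
  exact Finset.prod_congr rfl fun i _ => eval_prod _ _ _

theorem final_no_infinity (hG : Good χ ψ) (hθ : ∀ i, GenBy χ ψ (cs i).1 (cs i).2 (θ i))
    {k : Type u} [Field k] [NumberField k] {a : k} (ha : Obs χ ψ a) (ρ : k) : a * ρ ^ ℓ ≠ 1 := by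
  obtain ⟨ζ, hζ, e, he, hmove, hadm, -, hnot⟩ := setup (A := AlgebraicClosure k) hG hθ ha
    (fun _ => ∅) (fun i g hg => absurd hg (Finset.notMem_empty g))
  exact no_infinity a hnot ρ

theorem final_separable (hG : Good χ ψ) (hθ : ∀ i, GenBy χ ψ (cs i).1 (cs i).2 (θ i))
    {k : Type u} [Field k] [NumberField k] {a : k} (ha : Obs χ ψ a)
    (G : Option (ZMod ℓ) → Finset k[X])
    (hGf : ∀ i, ∀ g ∈ G i, IsFactor (minpoly ℚ (θ i)) g) :
    (∏ i, ∏ g ∈ G i, g).Separable ∧ (∏ i, ∏ g ∈ G i, g).natDegree = ℓ * ∑ i, (G i).card := by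
  obtain ⟨ζ, hζ, e, he, hmove, hadm, -, hnot⟩ := setup (A := AlgebraicClosure k) hG hθ ha G hGf
  exact ⟨gen_separable hζ he hmove G hadm, gen_natDegree hζ he hmove G hadm⟩

theorem final_local (hG : Good χ ψ) (hθ : ∀ i, GenBy χ ψ (cs i).1 (cs i).2 (θ i))
    {k : Type*} [Field k] [CharZero k] (G : Option (ZMod ℓ) → Finset k[X])
    (hGf : ∀ i, ∀ g ∈ G i, IsFactor (minpoly ℚ (θ i)) g) (hne : ∀ i, (G i).Nonempty)
    {L : Type*} [Field L] [Algebra k L]
    (hL : (∃ (r : ℕ) (_ : Fact r.Prime), Nonempty (ℚ_[r] →+* L)) ∨ Nonempty (ℝ →+* L)) :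
    ∃ x : L, aeval x (∏ i, ∏ g ∈ G i, g) = 0 := by
  haveI : CharZero L := charZero_of_injective_algebraMap (algebraMap k L).injective
  obtain ⟨i, x, hx⟩ : ∃ i, ∃ x : L,
      aeval x ((minpoly ℚ (θ i)).map (algebraMap ℚ k)) = 0 := by
    have hmap : ∀ (P : ℚ[X]) (z : L), aeval z (P.map (algebraMap ℚ k)) = aeval z P := by
      intro P z
      rw [aeval_def, eval₂_map, aeval_def]
      congr 1
      exact RingHom.ext_rat _ _
    rcases hL with ⟨r, hr, ⟨f⟩⟩ | hf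
    · obtain ⟨i, y, hy⟩ := exists_padic hG θ hθ r
      refine ⟨i, f y, ?_⟩
      rw [hmap, aeval_hom, hy, map_zero]
    · obtain ⟨f⟩ := hf
      obtain ⟨y, hy⟩ := exists_real hG θ hθ none
      refine ⟨none, f y, ?_⟩
      rw [hmap, aeval_hom, hy, map_zero]
  obtain ⟨g, hg⟩ := hne i
  obtain ⟨h, d, hd⟩ := (hGf i g hg).dvd
  refine ⟨aeval x h, ?_⟩
  rw [map_prod]
  refine Finset.prod_eq_zero (Finset.mem_univ i) ?_
  rw [map_prod]
  refine Finset.prod_eq_zero hg ?_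
  rw [← aeval_comp, hd, map_mul, hx, zero_mul]

/-- extensions of degree prime to `ℓ` -/
theorem Obs.ext {k : Type u} [Field k] [NumberField k] {a : k} (ha : Obs χ ψ a) (L : Type v)
    [Field L] [NumberField L] [Algebra k L] (h : ¬ ℓ ∣ Module.finrank k L) :
    Obs χ ψ (algebraMap k L a) := by
  have ha0 := ha.ne_zero
  obtain ⟨m, hm, ham⟩ := ha
  refine ⟨m, hm, ?_⟩
  have h1 : Algebra.norm ℚ (algebraMap k L a) = Algebra.norm ℚ a ^ Module.finrank k L := by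
    rw [← Algebra.norm_norm (R := ℚ) (S := k), Algebra.norm_algebraMap, map_pow]
  rw [h1, ssum_pow _ (Algebra.norm_ne_zero_iff.2 ha0)]
  refine mul_ne_zero ?_ ham
  rwa [Ne, ZMod.natCast_eq_zero_iff]

/-- natural numbers -/
theorem obs_nat {k : Type u} [Field k] [NumberField k] (h : ¬ ℓ ∣ Module.finrank ℚ k) {n : ℕ}
    (hn : n ≠ 0) : Obs χ ψ (n : k) ↔ ∃ m : ZMod ℓ, m ≠ 0 ∧ ssum (wt χ ψ m) (n : ℚ) ≠ 0 := by
  have h1 : Algebra.norm ℚ (n : k) = (n : ℚ) ^ Module.finrank ℚ k := by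
    rw [← map_natCast (algebraMap ℚ k), Algebra.norm_algebraMap]
  have h2 : ((Module.finrank ℚ k : ℕ) : ZMod ℓ) ≠ 0 := by rwa [Ne, ZMod.natCast_eq_zero_iff]
  unfold Obs
  refine exists_congr fun m => and_congr_right fun _ => ?_
  rw [h1, ssum_pow _ (Nat.cast_ne_zero.2 hn)]
  constructor
  · intro h3 h4
    exact h3 (by rw [h4, mul_zero])
  · intro h3
    exact mul_ne_zero h2 h3

/-- the density of the natural numbers that are not obstructed -/
theorem obs_density (hG : Good χ ψ) {k : Type u} [Field k] [NumberField k]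
    (h : ¬ ℓ ∣ Module.finrank ℚ k) :
    Filter.Tendsto (fun N : ℕ => (Nat.card {n : ℕ // 1 ≤ n ∧ n ≤ N ∧ ¬ Obs χ ψ (n : k)} : ℝ) /
      (N : ℝ)) Filter.atTop (nhds ((ℓ : ℝ) ^ (ℓ - 1))⁻¹) := by
  refine (density hG.surj_left hG.surj_right hG.ne).congr fun N => ?_
  congr 2
  refine Nat.card_congr (Equiv.subtypeEquivRight fun n => ?_)
  refine and_congr_right fun h1 => and_congr_right fun _ => ?_
  rw [obs_nat h (by omega)]
  push Not
  exact Iff.rfl

end final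

end Pool.Agent.K3h48.MN
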