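import Pool.Agent.K3h48.MN.Final

/-!
# Multinorm obstruction: extensions of degree prime to `ℓ`
-/

set_option autoImplicit false
set_option linter.unusedSectionVars false

namespace Pool.Agent.K3h48.MN

open Polynomial IntermediateField Pool.Agent.W620.SC

universe u v w

lemma irr_ext {ℓ : ℕ} (hℓ : ℓ.Prime) {k : Type u} {L : Type v} [Field k] [Field L] [CharZero k]
    [CharZero L] [Algebra k L] [FiniteDimensional k L] (h : ¬ ℓ ∣ Module.finrank k L) {g : k[X]}
    (hm : g.Monic) (hirr : Irreducible g) (hdeg : g.natDegree = ℓ) :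
    Irreducible (g.map (algebraMap k L)) := by
  have hd0 : (g.map (algebraMap k L)).degree ≠ 0 := by
    rw [degree_map, degree_eq_natDegree hm.ne_zero, hdeg]
    exact_mod_cast hℓ.ne_zero
  obtain ⟨c, hc⟩ := IsAlgClosed.exists_aeval_eq_zero (AlgebraicClosure L)
    (g.map (algebraMap k L)) hd0
  have hc' : aeval c g = 0 := by rwa [aeval_map_algebraMap] at hc
  have hcL : IsIntegral L c := Algebra.IsIntegral.isIntegral c
  have hfd : FiniteDimensional L L⟮c⟯ := adjoin.finiteDimensional hcL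
  have hfd2 : FiniteDimensional k L⟮c⟯ := FiniteDimensional.trans k L L⟮c⟯
  have htow : IsScalarTower k L⟮c⟯ (AlgebraicClosure L) :=
    IsScalarTower.of_algebraMap_eq fun _ => rfl
  have h1 : minpoly k c = g := (minpoly.eq_of_irreducible_of_monic hirr hc' hm).symm
  have h2 : minpoly k (AdjoinSimple.gen L c) = g := by
    rw [← h1]
    have h3 := minpoly.algebraMap_eq (A := k) (B := L⟮c⟯) (B' := AlgebraicClosure L)
      (algebraMap L⟮c⟯ (AlgebraicClosure L)).injective (AdjoinSimple.gen L c)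
    rw [← h3, AdjoinSimple.algebraMap_gen]
  have h3 := minpoly.degree_dvd (K := k) (L := L⟮c⟯)
    (Algebra.IsIntegral.isIntegral (R := k) (AdjoinSimple.gen L c))
  rw [h2, hdeg, ← Module.finrank_mul_finrank k L L⟮c⟯, adjoin.finrank hcL] at h3
  have h4 : ℓ ∣ (minpoly L c).natDegree := (hℓ.dvd_mul.1 h3).resolve_left h
  have h5 : minpoly L c ∣ g.map (algebraMap k L) := minpoly.dvd L c hc
  have h6 : g.map (algebraMap k L) = minpoly L c := by
    symm
    refine (eq_of_monic_of_dvd_of_natDegree_le (minpoly.monic hcL) (hm.map _) h5 ?_).symm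
    rw [natDegree_map, hdeg]
    exact Nat.le_of_dvd (minpoly.natDegree_pos hcL) h4
  rw [h6]
  exact minpoly.irreducible hcL

lemma IsFactor.map {k : Type u} {L : Type v} [Field k] [Field L] [CharZero k] [CharZero L]
    [Algebra k L] {P : ℚ[X]} {g : k[X]} (h : IsFactor P g)
    (hirr : Irreducible (g.map (algebraMap k L))) : IsFactor P (g.map (algebraMap k L)) := by
  obtain ⟨H, d, hd⟩ := h.dvd
  refine ⟨h.monic.map _, hirr, ?_, AdjoinRoot.mk _ (H.map (algebraMap k L)), ?_⟩
  · rw [natDegree_map]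
    exact h.not_linear
  · have h1 := aeval_algHom_apply (AdjoinRoot.mkₐ (P.map (algebraMap ℚ L)))
      (H.map (algebraMap k L)) (g.map (algebraMap k L))
    have h2 : (AdjoinRoot.mkₐ (P.map (algebraMap ℚ L)))
        (aeval (H.map (algebraMap k L)) (g.map (algebraMap k L))) =
        aeval (AdjoinRoot.mk (P.map (algebraMap ℚ L)) (H.map (algebraMap k L)))
          (g.map (algebraMap k L)) := h1.symm
    rw [← h2]
    change AdjoinRoot.mk _ (aeval (H.map (algebraMap k L)) (g.map (algebraMap k L))) = 0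
    rw [AdjoinRoot.mk_eq_zero]
    refine ⟨d.map (algebraMap k L), ?_⟩
    have h3 : aeval (H.map (algebraMap k L)) (g.map (algebraMap k L)) =
        (g.map (algebraMap k L)).comp (H.map (algebraMap k L)) := rfl
    rw [h3, ← Polynomial.map_comp, hd, Polynomial.map_mul, Polynomial.map_map]
    congr 2
    exact RingHom.ext_rat _ _

section final

variable {ℓ p q : ℕ} [hℓ : Fact ℓ.Prime] [hp : Fact p.Prime] [hq : Fact q.Prime]
  {χ : (ZMod p)ˣ →* Multiplicative (ZMod ℓ)} {ψ : (ZMod q)ˣ →* Multiplicative (ZMod ℓ)}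
  {θ : Option (ZMod ℓ) → CyclotomicField (p * q) ℚ}

theorem factor_degree (hG : Good χ ψ) (hθ : ∀ i, GenBy χ ψ (cs i).1 (cs i).2 (θ i))
    {k : Type u} [Field k] [NumberField k] {a : k} (ha : Obs χ ψ a) {i : Option (ZMod ℓ)}
    {g : k[X]} (hg : IsFactor (minpoly ℚ (θ i)) g) : g.natDegree = ℓ := by
  classical
  have h1 := final_separable hG hθ ha (fun j => if j = i then {g} else ∅) (by
    intro j g' hg'
    by_cases hj : j = i
    · subst hj
      rw [if_pos rfl, Finset.mem_singleton] at hg'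
      rw [hg']
      exact hg
    · rw [if_neg hj] at hg'
      exact absurd hg' (Finset.notMem_empty _))
  have h2 := h1.2
  have h3 : ∀ j : Option (ZMod ℓ), (∏ g' ∈ (if j = i then {g} else ∅ : Finset k[X]), g') =
      if j = i then g else 1 := by
    intro j
    split_ifs <;> simp
  have h4 : ∀ j : Option (ZMod ℓ), (if j = i then {g} else ∅ : Finset k[X]).card =
      if j = i then 1 else 0 := by
    intro j
    split_ifs <;> simp
  rw [Finset.prod_congr rfl fun j _ => h3 j, Finset.sum_congr rfl fun j _ => h4 j,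
    Finset.prod_ite_eq' , Finset.sum_ite_eq', if_pos (Finset.mem_univ i),
    if_pos (Finset.mem_univ i), mul_one] at h2
  exact h2

/-- the factors over an extension of degree prime to `ℓ` -/
theorem factor_ext (hG : Good χ ψ) (hθ : ∀ i, GenBy χ ψ (cs i).1 (cs i).2 (θ i))
    {k : Type u} [Field k] [NumberField k] {a : k} (ha : Obs χ ψ a) (L : Type v) [Field L]
    [NumberField L] [Algebra k L] (h : ¬ ℓ ∣ Module.finrank k L) {i : Option (ZMod ℓ)}
    {g : k[X]} (hg : IsFactor (minpoly ℚ (θ i)) g) :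
    IsFactor (minpoly ℚ (θ i)) (g.map (algebraMap k L)) := by
  have hfd : FiniteDimensional k L := Module.Finite.of_restrictScalars_finite ℚ k L
  exact hg.map (irr_ext hℓ.out h hg.monic hg.irreducible (factor_degree hG hθ ha hg))

/-- the sets of factors over an extension -/
noncomputable def mapS {k : Type u} [Field k] (L : Type v) [Field L] [Algebra k L]
    (G : Option (ZMod ℓ) → Finset k[X]) (i : Option (ZMod ℓ)) : Finset L[X] :=
  (G i).map ⟨Polynomial.map (algebraMap k L), map_injective _ (algebraMap k L).injective⟩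

lemma mapS_card {k : Type u} [Field k] (L : Type v) [Field L] [Algebra k L]
    (G : Option (ZMod ℓ) → Finset k[X]) (i : Option (ZMod ℓ)) : (mapS L G i).card = (G i).card :=
  Finset.card_map _

lemma mapS_prod {k : Type u} [Field k] (L : Type v) [Field L] [Algebra k L]
    (G : Option (ZMod ℓ) → Finset k[X]) :
    ∏ i, ∏ g ∈ mapS L G i, g = (∏ i, ∏ g ∈ G i, g).map (algebraMap k L) := by
  classical
  rw [Polynomial.map_prod]
  refine Finset.prod_congr rfl fun i _ => ?_
  rw [Polynomial.map_prod]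
  unfold mapS
  rw [Finset.prod_map]
  rfl

lemma mapS_factor (hG : Good χ ψ) (hθ : ∀ i, GenBy χ ψ (cs i).1 (cs i).2 (θ i))
    {k : Type u} [Field k] [NumberField k] {a : k} (ha : Obs χ ψ a) (L : Type v) [Field L]
    [NumberField L] [Algebra k L] (h : ¬ ℓ ∣ Module.finrank k L)
    (G : Option (ZMod ℓ) → Finset k[X])
    (hGf : ∀ i, ∀ g ∈ G i, IsFactor (minpoly ℚ (θ i)) g) :
    ∀ i, ∀ g ∈ mapS L G i, IsFactor (minpoly ℚ (θ i)) g := by
  classical
  intro i g hg
  unfold mapS at hg
  obtain ⟨g₀, hg₀, rfl⟩ := Finset.mem_map.1 hg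
  exact factor_ext hG hθ ha L h (hGf i g₀ hg₀)

/-- no sections over the extension -/
theorem ext_no_section (hG : Good χ ψ) (hθ : ∀ i, GenBy χ ψ (cs i).1 (cs i).2 (θ i))
    {k : Type u} [Field k] [NumberField k] {a : k} (ha : Obs χ ψ a)
    (G : Option (ZMod ℓ) → Finset k[X])
    (hGf : ∀ i, ∀ g ∈ G i, IsFactor (minpoly ℚ (θ i)) g) {n : ℕ} (hn : ℓ ∣ n)
    {L : Type u} {F : Type v} {Ω : Type w} [Field L] [NumberField L] [Algebra k L] [Field F]
    [Field Ω] [Algebra L F] [Algebra F Ω] [Algebra L Ω] [IsScalarTower L F Ω] [IsAlgClosed Ω]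
    [Algebra.IsAlgebraic F Ω] (h : ¬ ℓ ∣ Module.finrank k L) (x y : F) (hy : y ≠ 0)
    (hxy : algebraMap L F (algebraMap k L a) * y ^ n =
      aeval x ((∏ i, ∏ g ∈ G i, g).map (algebraMap k L)))
    (U : Set (ValuationSubring F)) (hU : ∀ O ∈ U, ∀ c : L, algebraMap L F c ∈ O)
    (hinf : (∀ i, ℓ ∣ (G i).card) ∨ ∀ O ∈ U, x ∈ O) : IsEmpty (GSection L F Ω U) := by
  refine final_no_section hG hθ (ha.ext L h) (mapS L G) (mapS_factor hG hθ ha L h G hGf) hn x y hy
    ?_ U hU ?_
  · rw [mapS_prod]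
    exact hxy
  · rcases hinf with h1 | h1
    · left
      intro i
      rw [mapS_card]
      exact h1 i
    · exact Or.inr h1

theorem ext_no_points (hG : Good χ ψ) (hθ : ∀ i, GenBy χ ψ (cs i).1 (cs i).2 (θ i))
    {k : Type u} [Field k] [NumberField k] {a : k} (ha : Obs χ ψ a)
    (G : Option (ZMod ℓ) → Finset k[X])
    (hGf : ∀ i, ∀ g ∈ G i, IsFactor (minpoly ℚ (θ i)) g) {n : ℕ} (hn : ℓ ∣ n)
    {L : Type u} [Field L] [NumberField L] [Algebra k L] (h : ¬ ℓ ∣ Module.finrank k L)
    (x y : L) : algebraMap k L a * y ^ n ≠ eval x ((∏ i, ∏ g ∈ G i, g).map (algebraMap k L)) := by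
  rw [← mapS_prod]
  exact final_no_points hG hθ (ha.ext L h) (mapS L G) (mapS_factor hG hθ ha L h G hGf) hn x y

/-- the translates of the polynomials are factors -/
theorem translate (hG : Good χ ψ) (hθ : ∀ i, GenBy χ ψ (cs i).1 (cs i).2 (θ i))
    {k : Type u} [Field k] [NumberField k] {a : k} (ha : Obs χ ψ a) (i : Option (ZMod ℓ)) (j : k) :
    IsFactor (minpoly ℚ (θ i)) (((minpoly ℚ (θ i)).map (algebraMap ℚ k)).comp (X - C j)) := by
  obtain ⟨ζ, hζ, e, he, hmove, -, hpoly, hnot⟩ := setup (A := AlgebraicClosure k) hG hθ ha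
    (fun _ => ∅) (fun i g hg => absurd hg (Finset.notMem_empty g))
  have hint : IsIntegral k (aeval ζ (e i) : AlgebraicClosure k) := Algebra.IsIntegral.isIntegral _
  obtain ⟨σ, hσ⟩ := hmove i
  have hdeg : (minpoly k (aeval ζ (e i) : AlgebraicClosure k)).natDegree = ℓ :=
    roots_eq ((he i).fix_iff hζ) hσ
  have h3 : ∀ Q : k[X], Q.comp (X - C j) = (algEquivAevalXAddC (-j)).toRingEquiv Q := by
    intro Q
    change _ = aeval (X + C (-j)) Q
    rw [← Polynomial.comp_eq_aeval, C_neg, ← sub_eq_add_neg]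
  rw [hpoly i]
  refine ⟨(minpoly.monic hint).comp_X_sub_C j, ?_, ?_, ?_⟩
  · rw [h3]
    exact (MulEquiv.irreducible_iff (algEquivAevalXAddC (-j)).toRingEquiv).2
      (minpoly.irreducible hint)
  · rw [natDegree_comp, natDegree_X_sub_C, mul_one, hdeg]
    exact hℓ.out.one_lt.ne'
  · refine ⟨AdjoinRoot.root _ + algebraMap k _ j, ?_⟩
    rw [aeval_comp, map_sub, aeval_X, aeval_C, add_sub_cancel_right, AdjoinRoot.aeval_eq,
      AdjoinRoot.mk_eq_zero, hpoly i]

end final

end Pool.Agent.K3h48.MN
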