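import Mathlib

/-!
# Multinorm obstruction: characters and additive functionals on the rational numbers
-/

set_option autoImplicit false

namespace Pool.Agent.K3h48.MN

section ind

variable {ℓ p : ℕ} [Fact p.Prime] (χ : (ZMod p)ˣ →* Multiplicative (ZMod ℓ))

/-- the value of `χ` at `x`, written additively, and zero at zero -/
noncomputable def ind (x : ZMod p) : ZMod ℓ :=
  if h : x = 0 then 0 else (χ (Units.mk0 x h)).toAdd

lemma ind_zero : ind χ 0 = 0 := by rw [ind, dif_pos rfl]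

lemma ind_unit (u : (ZMod p)ˣ) : ind χ (u : ZMod p) = (χ u).toAdd := by
  rw [ind, dif_neg u.ne_zero]
  congr 2
  exact Units.ext rfl

lemma ind_one : ind χ 1 = 0 := by
  have h := ind_unit χ 1
  rw [Units.val_one] at h
  rw [h, map_one]
  rfl

lemma ind_mul {x y : ZMod p} (hx : x ≠ 0) (hy : y ≠ 0) :
    ind χ (x * y) = ind χ x + ind χ y := by
  have h := ind_unit χ (Units.mk0 x hx * Units.mk0 y hy)
  have h1 := ind_unit χ (Units.mk0 x hx)
  have h2 := ind_unit χ (Units.mk0 y hy)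
  rw [Units.val_mul, Units.val_mk0, Units.val_mk0] at h
  rw [Units.val_mk0] at h1 h2
  rw [h, h1, h2, map_mul, toAdd_mul]

lemma ind_pow {x : ZMod p} (hx : x ≠ 0) (n : ℕ) : ind χ (x ^ n) = n * ind χ x := by
  induction n with
  | zero => rw [pow_zero, ind_one, Nat.cast_zero, zero_mul]
  | succ n ih => rw [pow_succ, ind_mul χ (pow_ne_zero _ hx) hx, ih]; push_cast; ring

end ind

section ssum

variable {ℓ : ℕ} (w : ℕ → ZMod ℓ)

/-- the sum of the `v_r(a) w(r)` over the prime factors `r` of the numerator and the denominator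
of `a` -/
noncomputable def ssum (a : ℚ) : ZMod ℓ :=
  ∑ r ∈ (a.num.natAbs * a.den).primeFactors, (padicValRat r a : ZMod ℓ) * w r

lemma val_eq_zero {a : ℚ} (ha : a ≠ 0) {r : ℕ} (hr : r.Prime)
    (h : r ∉ (a.num.natAbs * a.den).primeFactors) : padicValRat r a = 0 := by
  have hn : a.num.natAbs ≠ 0 := Int.natAbs_ne_zero.2 (Rat.num_ne_zero.2 ha)
  rw [Nat.mem_primeFactors] at h
  push Not at h
  have h1 : ¬ r ∣ a.num.natAbs * a.den := fun h2 => (mul_ne_zero hn a.den_nz) (h hr h2)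
  rw [hr.dvd_mul, not_or] at h1
  rw [padicValRat.eq_1, padicValInt, padicValNat.eq_zero_of_not_dvd h1.1,
    padicValNat.eq_zero_of_not_dvd h1.2]
  simp

lemma ssum_eq {a : ℚ} (ha : a ≠ 0) (T : Finset ℕ) (hT : ∀ r ∈ T, r.Prime)
    (h : (a.num.natAbs * a.den).primeFactors ⊆ T) :
    ssum w a = ∑ r ∈ T, (padicValRat r a : ZMod ℓ) * w r := by
  rw [ssum]
  refine Finset.sum_subset h fun r hr hr' => ?_
  rw [val_eq_zero ha (hT r hr) hr', Int.cast_zero, zero_mul]

lemma ssum_mul {a b : ℚ} (ha : a ≠ 0) (hb : b ≠ 0) : ssum w (a * b) = ssum w a + ssum w b := by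
  classical
  set T := (a.num.natAbs * a.den).primeFactors ∪ (b.num.natAbs * b.den).primeFactors ∪
    ((a * b).num.natAbs * (a * b).den).primeFactors with hTd
  have hT : ∀ r ∈ T, r.Prime := by
    intro r hr
    simp only [hTd, Finset.mem_union] at hr
    rcases hr with (h | h) | h <;> exact (Nat.mem_primeFactors.1 h).1
  rw [ssum_eq w (mul_ne_zero ha hb) T hT (by intro r hr; simp [hTd, hr]),
    ssum_eq w ha T hT (by intro r hr; simp only [hTd, Finset.mem_union]; tauto),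
    ssum_eq w hb T hT (by intro r hr; simp only [hTd, Finset.mem_union]; tauto),
    ← Finset.sum_add_distrib]
  refine Finset.sum_congr rfl fun r hr => ?_
  have : Fact r.Prime := ⟨hT r hr⟩
  rw [padicValRat.mul ha hb]
  push_cast
  ring

lemma ssum_one : ssum w 1 = 0 := by simp [ssum]

lemma ssum_neg_one : ssum w (-1) = 0 := by simp [ssum]

lemma ssum_pow {a : ℚ} (ha : a ≠ 0) (n : ℕ) : ssum w (a ^ n) = n * ssum w a := by
  induction n with
  | zero => rw [pow_zero, ssum_one, Nat.cast_zero, zero_mul]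
  | succ n ih => rw [pow_succ, ssum_mul w (pow_ne_zero _ ha) ha, ih]; push_cast; ring

lemma ssum_inv {a : ℚ} (ha : a ≠ 0) : ssum w a⁻¹ = - ssum w a := by
  have h := ssum_mul w ha (inv_ne_zero ha)
  rw [mul_inv_cancel₀ ha, ssum_one] at h
  exact (eq_neg_iff_add_eq_zero.2 (by rw [add_comm]; exact h.symm))

lemma ssum_zpow {a : ℚ} (ha : a ≠ 0) (n : ℤ) : ssum w (a ^ n) = n * ssum w a := by
  obtain ⟨n, rfl | rfl⟩ := n.eq_nat_or_neg
  · rw [zpow_natCast, ssum_pow w ha, Int.cast_natCast]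
  · rw [zpow_neg, zpow_natCast, ssum_inv w (pow_ne_zero _ ha), ssum_pow w ha]
    push_cast; ring

lemma ssum_prod {I : Type*} (s : Finset I) (f : I → ℚ) (h : ∀ i ∈ s, f i ≠ 0) :
    ssum w (∏ i ∈ s, f i) = ∑ i ∈ s, ssum w (f i) := by
  classical
  induction s using Finset.induction_on with
  | empty => rw [Finset.prod_empty, Finset.sum_empty, ssum_one]
  | insert i s hi ih =>
    rw [Finset.prod_insert hi, Finset.sum_insert hi,
      ssum_mul w (h i (Finset.mem_insert_self i s))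
        (Finset.prod_ne_zero_iff.2 fun j hj => h j (Finset.mem_insert_of_mem hj)),
      ih fun j hj => h j (Finset.mem_insert_of_mem hj)]

lemma ssum_prime {r : ℕ} (hr : r.Prime) : ssum w (r : ℚ) = w r := by
  have : Fact r.Prime := ⟨hr⟩
  rw [ssum, Rat.num_natCast, Rat.den_natCast, Int.natAbs_natCast, mul_one, hr.primeFactors,
    Finset.sum_singleton, padicValRat.self hr.one_lt, Int.cast_one, one_mul]

lemma ssum_congr {w' : ℕ → ZMod ℓ} {a : ℚ}
    (h : ∀ r : ℕ, r.Prime → (padicValRat r a : ZMod ℓ) * w r = (padicValRat r a : ZMod ℓ) * w' r) :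
    ssum w a = ssum w' a :=
  Finset.sum_congr rfl fun r hr => h r (Nat.mem_primeFactors.1 hr).1

end ssum

section full

variable {ℓ p : ℕ} [Fact p.Prime] (χ : (ZMod p)ˣ →* Multiplicative (ZMod ℓ))

lemma ssum_nat (n : ℕ) (hn : ¬ p ∣ n) :
    ssum (fun r => ind χ (r : ZMod p)) (n : ℚ) = ind χ (n : ZMod p) := by
  induction n using Nat.recOnMul with
  | zero => exact absurd (dvd_zero p) hn
  | one => rw [Nat.cast_one, ssum_one, Nat.cast_one, ind_one]
  | prime r hr => exact ssum_prime _ hr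
  | mul a b iha ihb =>
    have ha : ¬ p ∣ a := fun h => hn (Dvd.dvd.mul_right h b)
    have hb : ¬ p ∣ b := fun h => hn (Dvd.dvd.mul_left h a)
    have ha0 : (a : ℚ) ≠ 0 := by rintro h; apply ha; rw [Nat.cast_eq_zero.1 h]; exact dvd_zero p
    have hb0 : (b : ℚ) ≠ 0 := by rintro h; apply hb; rw [Nat.cast_eq_zero.1 h]; exact dvd_zero p
    rw [Nat.cast_mul, ssum_mul _ ha0 hb0, iha ha, ihb hb, Nat.cast_mul, ind_mul]
    · rwa [Ne, ZMod.natCast_eq_zero_iff]
    · rwa [Ne, ZMod.natCast_eq_zero_iff]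

lemma ssum_unit (hneg : ind χ (-1) = 0) (a : ℚ) (hn : ¬ p ∣ a.num.natAbs) (hd : ¬ p ∣ a.den)
    (z : ZMod p) (h : (a.num : ZMod p) = z ^ ℓ * (a.den : ZMod p)) :
    ssum (fun r => ind χ (r : ZMod p)) a = 0 := by
  have hnum0 : a.num.natAbs ≠ 0 := by rintro h; apply hn; rw [h]; exact dvd_zero p
  have hd0 : (a.den : ZMod p) ≠ 0 := by rwa [Ne, ZMod.natCast_eq_zero_iff]
  have hn0 : (a.num.natAbs : ZMod p) ≠ 0 := by rwa [Ne, ZMod.natCast_eq_zero_iff]
  have e1 : ssum (fun r => ind χ (r : ZMod p)) (a.num : ℚ) = ind χ (a.num.natAbs : ZMod p) := by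
    rcases Int.natAbs_eq a.num with h1 | h1
    · conv_lhs => rw [h1]
      rw [Int.cast_natCast, ssum_nat χ _ hn]
    · conv_lhs => rw [h1]
      rw [Int.cast_neg, Int.cast_natCast, ← neg_one_mul, ssum_mul _ (by norm_num)
        (Nat.cast_ne_zero.2 hnum0), ssum_neg_one, zero_add, ssum_nat χ _ hn]
  have e2 : ind χ (a.num : ZMod p) = ind χ (a.num.natAbs : ZMod p) := by
    rcases Int.natAbs_eq a.num with h1 | h1
    · conv_lhs => rw [h1]
      rw [Int.cast_natCast]
    · conv_lhs => rw [h1]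
      rw [Int.cast_neg, Int.cast_natCast, ← neg_one_mul, ind_mul χ (by simp) hn0, hneg, zero_add]
  have hz : z ≠ 0 ∨ ℓ = 0 := by
    by_contra hcon
    push Not at hcon
    apply hn0
    have h2 : (a.num : ZMod p) = 0 := by rw [h, hcon.1, zero_pow hcon.2, zero_mul]
    rw [ZMod.intCast_zmod_eq_zero_iff_dvd] at h2
    rw [ZMod.natCast_eq_zero_iff]
    exact Int.natCast_dvd.1 h2
  have e3 : ind χ (a.num : ZMod p) = ind χ (a.den : ZMod p) := by
    rw [h]
    rcases hz with hz | hz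
    · rw [ind_mul χ (pow_ne_zero _ hz) hd0, ind_pow χ hz, ZMod.natCast_self, zero_mul, zero_add]
    · subst hz
      rw [pow_zero, one_mul]
  have h4 : a = (a.num : ℚ) * ((a.den : ℚ))⁻¹ := by
    rw [← div_eq_mul_inv]; exact (Rat.num_div_den a).symm
  have hd1 : (a.den : ℚ) ≠ 0 := Nat.cast_ne_zero.2 a.den_nz
  have hn1 : (a.num : ℚ) ≠ 0 := by
    rw [Int.cast_ne_zero]; exact Int.natAbs_ne_zero.1 hnum0
  rw [h4, ssum_mul _ hn1 (inv_ne_zero hd1), ssum_inv _ hd1, e1, ← e2, e3, ssum_nat χ _ hd, add_neg_cancel]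

end full

end Pool.Agent.K3h48.MN
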