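import Pool.Agent.K3h48.MN.Norms
import Pool.Agent.W620.SC.Obstruction

/-!
# Multinorm obstruction: conjugates over a number field
-/

set_option autoImplicit false
set_option linter.unusedSectionVars false

namespace Pool.Agent.K3h48.MN

open Polynomial IntermediateField

section gen

variable {ℓ : ℕ} [hℓ : Fact ℓ.Prime] {k A : Type*} [Field k] [Field A] [CharZero k] [Algebra k A]
  [IsAlgClosed A] [Algebra.IsAlgebraic k A]

lemma root_orbit {θ ρ : A} (h : aeval ρ (minpoly k θ) = 0) : ∃ τ : A ≃ₐ[k] A, τ θ = ρ := by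
  have hnorm : Normal k A := normal_iff.2 fun x =>
    ⟨Algebra.IsIntegral.isIntegral x, IsAlgClosed.splits _⟩
  have hint : IsIntegral k θ := Algebra.IsIntegral.isIntegral θ
  have h3 : minpoly k ρ = minpoly k θ :=
    (minpoly.eq_of_irreducible_of_monic (minpoly.irreducible hint) h (minpoly.monic hint)).symm
  obtain ⟨σ, hσ⟩ := (Normal.minpoly_eq_iff_mem_orbit A).1 h3
  exact ⟨σ, hσ⟩

lemma move_iff {θ : A} {κ : (A ≃ₐ[k] A) →* Multiplicative (ZMod ℓ)}
    (hκ : ∀ σ, σ θ = θ ↔ κ σ = 1) (σ τ : A ≃ₐ[k] A) : σ (τ θ) = τ θ ↔ κ σ = 1 := by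
  have h1 : σ (τ θ) = τ θ ↔ (τ⁻¹ * σ * τ) θ = θ := by
    rw [AlgEquiv.mul_apply, AlgEquiv.mul_apply]
    constructor
    · intro h
      rw [h, ← AlgEquiv.mul_apply, inv_mul_cancel, AlgEquiv.one_apply]
    · intro h
      have h2 := congrArg τ h
      rwa [← AlgEquiv.mul_apply, mul_inv_cancel, AlgEquiv.one_apply] at h2
  rw [h1, hκ, map_mul, map_mul, map_inv, mul_comm, mul_inv_cancel_left]

/-- the conjugates are the images under the powers of an automorphism -/
lemma roots_eq {θ : A} {κ : (A ≃ₐ[k] A) →* Multiplicative (ZMod ℓ)}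
    (hκ : ∀ σ, σ θ = θ ↔ κ σ = 1) {σ : A ≃ₐ[k] A} (hσ : κ σ ≠ 1) :
    (minpoly k θ).natDegree = ℓ := by
  classical
  have hint : IsIntegral k θ := Algebra.IsIntegral.isIntegral θ
  have hsep : ((minpoly k θ).map (algebraMap k A)).Separable :=
    ((minpoly.irreducible hint).separable).map
  have hspl : ((minpoly k θ).map (algebraMap k A)).Splits := IsAlgClosed.splits _
  set x : ZMod ℓ := (κ σ).toAdd with hx
  have hx0 : x ≠ 0 := fun h => hσ (Multiplicative.toAdd.injective h)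
  have hκp : ∀ j : ℕ, (κ (σ ^ j)).toAdd = j * x := by
    intro j
    rw [map_pow, toAdd_pow, nsmul_eq_mul]
  have h1 : (minpoly k θ).natDegree =
      ((minpoly k θ).map (algebraMap k A)).roots.toFinset.card := by
    rw [Multiset.toFinset_card_of_nodup (nodup_roots hsep), ← natDegree_map (algebraMap k A),
      hspl.natDegree_eq_card_roots]
  have h2 : ((minpoly k θ).map (algebraMap k A)).roots.toFinset =
      Finset.univ.image (fun j : Fin ℓ => (σ ^ (j : ℕ)) θ) := by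
    ext ρ
    rw [Multiset.mem_toFinset, mem_roots hsep.ne_zero, IsRoot.def, eval_map, Finset.mem_image]
    constructor
    · intro h
      obtain ⟨τ, rfl⟩ := root_orbit (k := k) h
      set y : ZMod ℓ := (κ τ).toAdd with hy
      refine ⟨⟨(y / x).val, ZMod.val_lt _⟩, Finset.mem_univ _, ?_⟩
      have h3 : κ ((σ ^ (y / x).val)⁻¹ * τ) = 1 := by
        apply Multiplicative.toAdd.injective
        rw [map_mul, map_inv, toAdd_mul, toAdd_inv, hκp, ZMod.natCast_zmod_val,
          div_mul_cancel₀ _ hx0, ← hy, neg_add_cancel, toAdd_one]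
      have h4 := (hκ _).2 h3
      rw [AlgEquiv.mul_apply] at h4
      have h5 := congrArg (σ ^ (y / x).val) h4
      rw [← AlgEquiv.mul_apply, mul_inv_cancel, AlgEquiv.one_apply] at h5
      exact h5.symm
    · rintro ⟨j, -, rfl⟩
      have h3 : aeval ((σ ^ (j : ℕ)) θ) (minpoly k θ) = (σ ^ (j : ℕ)) (aeval θ (minpoly k θ)) :=
        aeval_algHom_apply ((σ ^ (j : ℕ) : A ≃ₐ[k] A) : A →ₐ[k] A) θ _
      rw [minpoly.aeval, map_zero] at h3
      exact h3
  rw [h1, h2, Finset.card_image_of_injective, Finset.card_univ, Fintype.card_fin]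
  intro i j hij
  have h3 : (σ ^ (i : ℕ)) θ = (σ ^ (j : ℕ)) θ := hij
  have h4 : ((σ ^ (j : ℕ))⁻¹ * σ ^ (i : ℕ)) θ = θ := by
    rw [AlgEquiv.mul_apply, h3, ← AlgEquiv.mul_apply, inv_mul_cancel, AlgEquiv.one_apply]
  have h5 := (hκ _).1 h4
  rw [map_mul, map_inv, inv_mul_eq_one] at h5
  have h6 := congrArg Multiplicative.toAdd h5
  rw [hκp, hκp] at h6
  have h7 : ((j : ℕ) : ZMod ℓ) = ((i : ℕ) : ZMod ℓ) := mul_right_cancel₀ hx0 h6
  rw [ZMod.natCast_eq_natCast_iff] at h7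
  exact Fin.ext (Nat.ModEq.eq_of_lt_of_lt h7.symm i.2 j.2)

end gen

section nf

variable {ℓ p q : ℕ} [hℓ : Fact ℓ.Prime] [hp : Fact p.Prime] [hq : Fact q.Prime]
  {χ : (ZMod p)ˣ →* Multiplicative (ZMod ℓ)} {ψ : (ZMod q)ˣ →* Multiplicative (ZMod ℓ)}
variable {A : Type*} [Field A] [CharZero A] [IsAlgClosed A] {ζ : A}
  {k : Type*} [Field k] [NumberField k] [Algebra k A] [Algebra.IsAlgebraic k A]

/-- no field of the family is contained in `k` -/
lemma exists_move (hζ : IsPrimitiveRoot ζ (p * q))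
    {g : Option (ZMod ℓ) → ℚ[X]} (hg : ∀ i, Gn χ ψ (cs i).1 (cs i).2 ζ (g i)) (a : k)
    (hnot : ¬ ∃ (c : ∀ i, k⟮(aeval ζ (g i) : A)⟯) (ρ : k),
      a = ρ ^ ℓ * ∏ i, Algebra.norm k (c i)) (i : Option (ZMod ℓ)) :
    ∃ σ : A ≃ₐ[k] A, kap χ ψ (cs i).1 (cs i).2 hζ σ ≠ 1 := by
  classical
  by_contra hcon
  push Not at hcon
  have hnorm : Normal k A := normal_iff.2 fun x =>
    ⟨Algebra.IsIntegral.isIntegral x, IsAlgClosed.splits _⟩
  have hgal : IsGalois k A := ⟨⟩
  have h1 : (aeval ζ (g i) : A) ∈ (⊥ : IntermediateField k A) :=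
    Pool.Agent.W620.SC.mem_of_fixed _ fun σ _ => ((hg i).fix_iff hζ σ).2 (hcon σ)
  have h2 : k⟮(aeval ζ (g i) : A)⟯ = ⊥ := by
    rw [IntermediateField.adjoin_simple_eq_bot_iff]
    exact h1
  have h3 : Module.finrank k k⟮(aeval ζ (g i) : A)⟯ = 1 := by
    rw [h2]
    exact IntermediateField.finrank_bot
  apply hnot
  refine ⟨fun j => if j = i then algebraMap k _ a else 1, 1, ?_⟩
  rw [one_pow, one_mul, Finset.prod_eq_single i]
  · beta_reduce
    rw [if_pos rfl, Algebra.norm_algebraMap, h3, pow_one]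
  · intro j _ hj
    beta_reduce
    rw [if_neg hj, map_one]
  · intro h
    exact absurd (Finset.mem_univ i) h

lemma kap_ne_iff (hζ : IsPrimitiveRoot ζ (p * q)) {s t : ZMod ℓ} (σ : A ≃ₐ[k] A) :
    kap χ ψ s t hζ σ = 1 ↔ (kap χ ψ s t hζ σ).toAdd = 0 := Iff.rfl

/-- an automorphism which moves one field and not the other -/
lemma exists_move_one (hζ : IsPrimitiveRoot ζ (p * q))
    (hmove : ∀ i : Option (ZMod ℓ), ∃ σ : A ≃ₐ[k] A, kap χ ψ (cs i).1 (cs i).2 hζ σ ≠ 1)
    {i i' : Option (ZMod ℓ)} (hii : i ≠ i') :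
    ∃ σ : A ≃ₐ[k] A, kap χ ψ (cs i).1 (cs i).2 hζ σ ≠ 1 ∧
      kap χ ψ (cs i').1 (cs i').2 hζ σ = 1 := by
  -- the coordinates
  set X : (A ≃ₐ[k] A) → ZMod ℓ := fun σ => (kap χ ψ 1 0 hζ σ).toAdd with hX
  set Y : (A ≃ₐ[k] A) → ZMod ℓ := fun σ => (kap χ ψ 0 1 hζ σ).toAdd with hY
  have hkap : ∀ (j : Option (ZMod ℓ)) (σ : A ≃ₐ[k] A),
      kap χ ψ (cs j).1 (cs j).2 hζ σ = 1 ↔ (cs j).1 * X σ + (cs j).2 * Y σ = 0 := by
    intro j σ
    obtain ⟨n, hn, hσ⟩ := exists_exp' hζ σ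
    rw [hX, hY]
    simp only
    rw [kap_apply hζ hσ, kap_apply hζ hσ, kap_apply hζ hσ]
    simp only [toAdd_ofAdd, kn, one_mul, zero_mul, add_zero, zero_add]
    exact Iff.rfl
  have hXY : ∀ (σ τ : A ≃ₐ[k] A) (a b : ℕ), X (σ ^ a * τ ^ b) = a * X σ + b * X τ ∧
      Y (σ ^ a * τ ^ b) = a * Y σ + b * Y τ := by
    intro σ τ a b
    simp only [hX, hY, map_mul, map_pow, toAdd_mul, toAdd_pow, nsmul_eq_mul, and_self]
  -- an automorphism moving the second field
  obtain ⟨u, hu⟩ := hmove i'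
  rw [Ne, hkap] at hu
  -- the line of `u`
  obtain ⟨j, hj⟩ : ∃ j : Option (ZMod ℓ), (cs j).1 * X u + (cs j).2 * Y u = 0 := by
    by_cases h : X u = 0
    · exact ⟨none, by simp [cs, h]⟩
    · refine ⟨some (-(Y u / X u)), ?_⟩
      simp only [cs]
      field_simp
      ring
  obtain ⟨w, hw⟩ := hmove j
  rw [Ne, hkap] at hw
  -- the combination
  set α : ZMod ℓ := (cs i').1 * X w + (cs i').2 * Y w with hα
  set β : ZMod ℓ := (cs i').1 * X u + (cs i').2 * Y u with hβ
  obtain ⟨h1, h2⟩ := hXY u w α.val (-β).val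
  rw [ZMod.natCast_zmod_val, ZMod.natCast_zmod_val] at h1 h2
  refine ⟨u ^ α.val * w ^ (-β).val, ?_, ?_⟩
  · rw [Ne, hkap, h1, h2]
    intro h3
    have hi' : (cs i').1 * (α * X u + -β * X w) + (cs i').2 * (α * Y u + -β * Y w) = 0 := by
      rw [hα, hβ]; ring
    -- both coordinates vanish
    have hzero : α * X u + -β * X w = 0 ∧ α * Y u + -β * Y w = 0 := by
      match i, i' with
      | none, none => exact absurd rfl hii
      | none, some b =>
        simp only [cs] at h3 hi'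
        have e1 : α * X u + -β * X w = 0 := by linear_combination h3
        refine ⟨e1, by linear_combination hi' - b * e1⟩
      | some a, none =>
        simp only [cs] at h3 hi'
        have e1 : α * X u + -β * X w = 0 := by linear_combination hi'
        refine ⟨e1, by linear_combination h3 - a * e1⟩
      | some a, some b =>
        simp only [cs] at h3 hi'
        have hab : a - b ≠ 0 := fun h => hii (by rw [sub_eq_zero.1 h])
        have e1 : α * X u + -β * X w = 0 := by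
          apply mul_left_cancel₀ hab
          linear_combination h3 - hi'
        refine ⟨e1, by linear_combination h3 - a * e1⟩
    obtain ⟨e1, e2⟩ := hzero
    have e3 : β * ((cs j).1 * X w + (cs j).2 * Y w) = 0 := by
      linear_combination α * hj - (cs j).1 * e1 - (cs j).2 * e2
    rcases mul_eq_zero.1 e3 with e4 | e4
    · exact hu e4
    · exact hw e4
  · rw [hkap, h1, h2, hα, hβ]
    ring

lemma fix_conj {g : ℚ[X]} {s t : ZMod ℓ} (hζ : IsPrimitiveRoot ζ (p * q))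
    (hg : Gn χ ψ s t ζ g) {ρ : A} (h : aeval ρ (minpoly k (aeval ζ g : A)) = 0) (σ : A ≃ₐ[k] A) :
    σ ρ = ρ ↔ kap χ ψ s t hζ σ = 1 := by
  obtain ⟨τ, rfl⟩ := root_orbit (k := k) h
  exact move_iff (hg.fix_iff hζ) σ τ

/-- the translated conjugates are different -/
lemma distinct (hζ : IsPrimitiveRoot ζ (p * q))
    {g : Option (ZMod ℓ) → ℚ[X]} (hg : ∀ i, Gn χ ψ (cs i).1 (cs i).2 ζ (g i))
    (hmove : ∀ i : Option (ZMod ℓ), ∃ σ : A ≃ₐ[k] A, kap χ ψ (cs i).1 (cs i).2 hζ σ ≠ 1)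
    {i i' : Option (ZMod ℓ)} {ρ ρ' : A} (hρ : aeval ρ (minpoly k (aeval ζ (g i) : A)) = 0)
    (hρ' : aeval ρ' (minpoly k (aeval ζ (g i') : A)) = 0) {j j' : k}
    (h : algebraMap k A j + ρ = algebraMap k A j' + ρ') : i = i' ∧ ρ = ρ' ∧ j = j' := by
  have hii : i = i' := by
    by_contra hne
    obtain ⟨σ, h1, h2⟩ := exists_move_one hζ hmove hne
    have h3 := (fix_conj hζ (hg i') hρ' σ).2 h2
    apply h1
    rw [← fix_conj hζ (hg i) hρ σ]
    have h4 := congrArg σ h
    rw [map_add, map_add, σ.commutes, σ.commutes, h3, ← h] at h4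
    exact add_left_cancel h4
  subst hii
  have hρρ : ρ = ρ' := by
    obtain ⟨τ, hτ⟩ := root_orbit (k := k) hρ
    obtain ⟨τ', hτ'⟩ := root_orbit (k := k) hρ'
    set σ := τ' * τ⁻¹ with hσ
    have h1 : σ ρ = ρ' := by
      rw [hσ, ← hτ, ← AlgEquiv.mul_apply, inv_mul_cancel_right, hτ']
    set d : k := j - j' with hd
    have h2 : σ ρ = ρ + algebraMap k A d := by
      rw [h1, hd, map_sub]
      linear_combination -h
    have h3 : ∀ n : ℕ, (σ ^ n) ρ = ρ + n * algebraMap k A d := by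
      intro n
      induction n with
      | zero => simp
      | succ n ih =>
        rw [pow_succ', AlgEquiv.mul_apply, ih, map_add, map_mul, map_natCast, σ.commutes, h2]
        push_cast
        ring
    have h4 : (σ ^ ℓ) ρ = ρ := by
      rw [fix_conj hζ (hg i) hρ, map_pow]
      apply Multiplicative.toAdd.injective
      rw [toAdd_pow, nsmul_eq_mul, ZMod.natCast_self, zero_mul, toAdd_one]
    rw [h3] at h4
    have h5 : (ℓ : A) * algebraMap k A d = 0 := by linear_combination h4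
    rcases mul_eq_zero.1 h5 with h6 | h6
    · exact absurd h6 (Nat.cast_ne_zero.2 hℓ.out.ne_zero)
    · rw [h6, add_zero] at h2
      rw [← h1, h2]
  subst hρρ
  refine ⟨rfl, rfl, ?_⟩
  exact (algebraMap k A).injective (add_right_cancel h)

/-- the minimal polynomials over `ℚ` and over `k` -/
lemma minpoly_map (hζ : IsPrimitiveRoot ζ (p * q)) {s t : ZMod ℓ}
    {g : ℚ[X]} (hg : Gn χ ψ s t ζ g) (hmove : ∃ σ : A ≃ₐ[k] A, kap χ ψ s t hζ σ ≠ 1) :
    (minpoly ℚ (aeval ζ g : A)).map (algebraMap ℚ k) = minpoly k (aeval ζ g : A) ∧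
      (minpoly ℚ (aeval ζ g : A)).natDegree = ℓ := by
  have halg : Algebra.IsAlgebraic ℚ A := Algebra.IsAlgebraic.trans ℚ k A
  obtain ⟨σ, hσ⟩ := hmove
  set θ : A := aeval ζ g with hθ
  have hσ' : kap χ ψ s t hζ (σ.restrictScalars ℚ) ≠ 1 := hσ
  have h1 : (minpoly k θ).natDegree = ℓ := roots_eq (hg.fix_iff hζ) hσ
  have h2 : (minpoly ℚ θ).natDegree = ℓ := roots_eq (hg.fix_iff hζ) hσ'
  have hint : IsIntegral ℚ θ := Algebra.IsIntegral.isIntegral θ
  have hint' : IsIntegral k θ := Algebra.IsIntegral.isIntegral θ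
  refine ⟨?_, h2⟩
  refine Polynomial.eq_of_monic_of_dvd_of_natDegree_le (minpoly.monic hint')
    ((minpoly.monic hint).map _) (minpoly.dvd_map_of_isScalarTower ℚ k θ) ?_
  rw [natDegree_map, h1, h2]

end nf

end Pool.Agent.K3h48.MN
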