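import Pool.Agent.K3h48.MN.Conj
import Pool.Agent.W620.SC.Explicit
import Mathlib.NumberTheory.Cyclotomic.Gal

/-!
# Multinorm obstruction: the family of curves
-/

set_option autoImplicit false
set_option linter.unusedSectionVars false

namespace Pool.Agent.K3h48.MN

open Polynomial IntermediateField Pool.Agent.W620.SC

universe u v w

/-- the polynomial `∏ P_i(x - j)` -/
noncomputable def fam {k : Type u} [Field k] [CharZero k] {I : Type*} [Fintype I] (P : I → ℚ[X])
    (S : I → Finset k) : k[X] :=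
  ∏ i, ∏ j ∈ S i, ((P i).map (algebraMap ℚ k)).comp (X - C j)

lemma fam_eval {k : Type u} [Field k] [CharZero k] {I : Type*} [Fintype I] (P : I → ℚ[X])
    (S : I → Finset k) {F : Type v} [Field F] [Algebra k F] (x : F) :
    aeval x (fam P S) =
      ∏ i, ∏ j ∈ S i, aeval (x - algebraMap k F j) ((P i).map (algebraMap ℚ k)) := by
  unfold fam
  rw [map_prod]
  refine Finset.prod_congr rfl fun i _ => ?_
  rw [map_prod]
  refine Finset.prod_congr rfl fun j _ => ?_
  rw [aeval_comp, map_sub, aeval_X, aeval_C]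

section transfer

variable {N : ℕ} {A B : Type*} [Field A] [CharZero A] [Field B] [CharZero B] {ζ : A} {ξ : B}

lemma aeval_zero_iff (hN : 0 < N) (hζ : IsPrimitiveRoot ζ N) (Q : ℚ[X]) :
    aeval ζ Q = 0 ↔ cyclotomic N ℚ ∣ Q := by
  rw [cyclotomic_eq_minpoly_rat hζ hN, minpoly.dvd_iff]

lemma minpoly_transfer (hN : 0 < N) (hζ : IsPrimitiveRoot ζ N) (hξ : IsPrimitiveRoot ξ N)
    (g : ℚ[X]) : minpoly ℚ (aeval ζ g : A) = minpoly ℚ (aeval ξ g : B) := by
  have hζi : IsIntegral ℚ ζ := (hζ.isIntegral hN).tower_top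
  have hξi : IsIntegral ℚ ξ := (hξ.isIntegral hN).tower_top
  have h1 : IsIntegral ℚ (aeval ζ g : A) := by
    have := (isIntegral_algebraMap (R := ℚ) (A := Algebra.adjoin ℚ {ζ}) (x := 0))
    exact IsIntegral.of_mem_of_fg (Algebra.adjoin ℚ {ζ}) hζi.fg_adjoin_singleton _
      (aeval_mem_adjoin_singleton ℚ ζ)
  have h2 : IsIntegral ℚ (aeval ξ g : B) :=
    IsIntegral.of_mem_of_fg (Algebra.adjoin ℚ {ξ}) hξi.fg_adjoin_singleton _
      (aeval_mem_adjoin_singleton ℚ ξ)
  refine minpoly.eq_of_irreducible_of_monic (minpoly.irreducible h1) ?_ (minpoly.monic h1)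
  rw [← aeval_comp, aeval_zero_iff hN hξ, ← aeval_zero_iff hN hζ, aeval_comp, minpoly.aeval]

end transfer

section gens

variable {ℓ p q : ℕ} [hp : Fact p.Prime] [hq : Fact q.Prime]

/-- the element `θ` of the cyclotomic field generates the cyclic field of the character -/
def GenBy (χ : (ZMod p)ˣ →* Multiplicative (ZMod ℓ)) (ψ : (ZMod q)ˣ →* Multiplicative (ZMod ℓ))
    (s t : ZMod ℓ) (θ : CyclotomicField (p * q) ℚ) : Prop :=
  ∀ (σ : CyclotomicField (p * q) ℚ ≃ₐ[ℚ] CyclotomicField (p * q) ℚ) (n : ℕ),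
    (∀ ξ, ξ ^ (p * q) = 1 → σ ξ = ξ ^ n) →
    (σ θ = θ ↔ s * ind χ (n : ZMod p) + t * ind ψ (n : ZMod q) = 0)

variable {χ : (ZMod p)ˣ →* Multiplicative (ZMod ℓ)} {ψ : (ZMod q)ˣ →* Multiplicative (ZMod ℓ)}
  {s t : ZMod ℓ}

instance instNeZeroPQ : NeZero (p * q) := ⟨pq_ne⟩

instance instCyc : IsCyclotomicExtension {p * q} ℚ (CyclotomicField (p * q) ℚ) :=
  CyclotomicField.isCyclotomicExtension (p * q) ℚ

lemma exists_g {θ : CyclotomicField (p * q) ℚ} (hθ : GenBy χ ψ s t θ)
    {ζ : CyclotomicField (p * q) ℚ} (hζ : IsPrimitiveRoot ζ (p * q)) :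
    ∃ g : ℚ[X], θ = aeval ζ g ∧ Gn χ ψ s t ζ g := by
  have h1 : Algebra.adjoin ℚ {ζ} = ⊤ :=
    IsCyclotomicExtension.adjoin_primitive_root_eq_top hζ
  have h2 : θ ∈ Algebra.adjoin ℚ {ζ} := by rw [h1]; trivial
  rw [Algebra.adjoin_singleton_eq_range_aeval] at h2
  obtain ⟨g, hg⟩ := h2
  have hg' : θ = aeval ζ g := hg.symm
  refine ⟨g, hg', ?_⟩
  intro n hn
  have hnorm : Normal ℚ (CyclotomicField (p * q) ℚ) :=
    (IsCyclotomicExtension.isGalois {p * q} ℚ (CyclotomicField (p * q) ℚ)).to_normal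
  have h3 : minpoly ℚ (ζ ^ n) = minpoly ℚ ζ := by
    rw [← cyclotomic_eq_minpoly_rat hζ (Nat.pos_of_ne_zero pq_ne),
      ← cyclotomic_eq_minpoly_rat (hζ.pow_of_coprime n hn) (Nat.pos_of_ne_zero pq_ne)]
  obtain ⟨σ, hσ⟩ := (Normal.minpoly_eq_iff_mem_orbit _).1 h3
  have hσ' : σ ζ = ζ ^ n := hσ
  have h4 := hθ σ n (by
    intro ξ hξ
    obtain ⟨i, -, rfl⟩ := hζ.eq_pow_of_pow_eq_one hξ
    rw [map_pow, hσ', ← pow_mul, ← pow_mul]
    exact congrArg (fun m => ζ ^ m) (mul_comm n i))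
  have h5 : σ θ = aeval (ζ ^ n) g := by
    rw [hg', ← aeval_algHom_apply, hσ']
  rw [h5, hg'] at h4
  exact h4

/-- such generators exist -/
lemma exists_gen (χ : (ZMod p)ˣ →* Multiplicative (ZMod ℓ))
    (ψ : (ZMod q)ˣ →* Multiplicative (ZMod ℓ)) (s t : ZMod ℓ) :
    ∃ θ : CyclotomicField (p * q) ℚ, GenBy χ ψ s t θ := by
  set E := CyclotomicField (p * q) ℚ with hE
  have hζ : IsPrimitiveRoot (IsCyclotomicExtension.zeta (p * q) ℚ E) (p * q) :=
    IsCyclotomicExtension.zeta_spec _ _ _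
  have hfd : FiniteDimensional ℚ E := IsCyclotomicExtension.finiteDimensional {p * q} ℚ E
  set H : Subgroup (E ≃ₐ[ℚ] E) := (kap χ ψ s t hζ).ker with hH
  obtain ⟨α, hα⟩ := Field.exists_primitive_element ℚ (IntermediateField.fixedField H)
  refine ⟨(α : E), ?_⟩
  intro σ n hσ
  have h1 := hσ _ hζ.pow_eq_one
  have h2 := kap_apply (χ := χ) (ψ := ψ) (s := s) (t := t) hζ h1
  have h3 : σ (α : E) = α ↔ σ ∈ H := by
    constructor
    · intro h
      have h4 : σ ∈ (IntermediateField.fixedField H).fixingSubgroup := by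
        rw [IntermediateField.mem_fixingSubgroup_iff]
        intro x hx
        have h5 : (⟨x, hx⟩ : IntermediateField.fixedField H) ∈ ℚ⟮α⟯ := by rw [hα]; trivial
        have hαi : IsIntegral ℚ α := Algebra.IsIntegral.isIntegral α
        have h6 : (⟨x, hx⟩ : IntermediateField.fixedField H) ∈ Algebra.adjoin ℚ {α} := by
          rw [← IntermediateField.adjoin_simple_toSubalgebra_of_isAlgebraic hαi.isAlgebraic]
          exact h5
        rw [Algebra.adjoin_singleton_eq_range_aeval] at h6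
        obtain ⟨Q, hQ⟩ := h6
        have h7 : x = aeval (α : E) Q := by
          have h8 := congrArg (fun z : IntermediateField.fixedField H => (z : E)) hQ
          simp only at h8
          rw [← h8]
          exact (aeval_algHom_apply (IntermediateField.fixedField H).val α Q).symm
        rw [h7, ← aeval_algHom_apply, h]
      rwa [IntermediateField.fixingSubgroup_fixedField] at h4
    · intro h
      exact (IntermediateField.mem_fixedField_iff _ _).1 α.2 σ h
  rw [h3, hH, MonoidHom.mem_ker, h2]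
  exact Iff.rfl

end gens

section points

variable {ℓ p q : ℕ} [hℓ : Fact ℓ.Prime] [hp : Fact p.Prime] [hq : Fact q.Prime]
  {χ : (ZMod p)ˣ →* Multiplicative (ZMod ℓ)} {ψ : (ZMod q)ˣ →* Multiplicative (ZMod ℓ)}
variable {A : Type*} [Field A] [CharZero A] [IsAlgClosed A] {ζ : A}
  {k : Type u} [Field k] [NumberField k] [Algebra k A] [Algebra.IsAlgebraic k A]

/-- there are no affine points -/
theorem no_points (hζ : IsPrimitiveRoot ζ (p * q))
    {g : Option (ZMod ℓ) → ℚ[X]} (hg : ∀ i, Gn χ ψ (cs i).1 (cs i).2 ζ (g i))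
    (S : Option (ZMod ℓ) → Finset k) (a : k)
    (hnot : ¬ ∃ (c : ∀ i, k⟮(aeval ζ (g i) : A)⟯) (ρ : k),
      a = ρ ^ ℓ * ∏ i, Algebra.norm k (c i)) (x y : k) :
    a * y ^ ℓ ≠ ∏ i, ∏ j ∈ S i, aeval (x - j) (minpoly k (aeval ζ (g i) : A)) := by
  classical
  intro h
  have hint : ∀ i, IsIntegral k (aeval ζ (g i) : A) := fun i => Algebra.IsIntegral.isIntegral _
  have hnorm : ∀ (i : Option (ZMod ℓ)) (z : k), Algebra.norm k (algebraMap k
      k⟮(aeval ζ (g i) : A)⟯ z - AdjoinSimple.gen k (aeval ζ (g i) : A)) =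
      aeval z (minpoly k (aeval ζ (g i) : A)) := by
    intro i z
    have hfin : FiniteDimensional k k⟮(aeval ζ (g i) : A)⟯ := adjoin.finiteDimensional (hint i)
    apply (algebraMap k A).injective
    rw [Algebra.norm_eq_prod_embeddings]
    have h4 : ∀ φ : k⟮(aeval ζ (g i) : A)⟯ →ₐ[k] A, φ (algebraMap k
      k⟮(aeval ζ (g i) : A)⟯ z - AdjoinSimple.gen k (aeval ζ (g i) : A)) =
        (fun ρ : A => algebraMap k A z - ρ) (φ (AdjoinSimple.gen k (aeval ζ (g i) : A))) := by
      intro φ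
      rw [map_sub, φ.commutes]
    rw [Finset.prod_congr rfl fun φ _ => h4 φ,
      prod_embeddings (aeval ζ (g i) : A) (hint i) (fun ρ : A => algebraMap k A z - ρ)]
    have hspl : ((minpoly k (aeval ζ (g i) : A)).map (algebraMap k A)).Splits :=
      IsAlgClosed.splits _
    have h1 := hspl.eq_prod_roots_of_monic ((minpoly.monic (hint i)).map _)
    have h2 : algebraMap k A (aeval z (minpoly k (aeval ζ (g i) : A))) =
        eval (algebraMap k A z) ((minpoly k (aeval ζ (g i) : A)).map (algebraMap k A)) := by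
      rw [eval_map_algebraMap, aeval_algebraMap_apply]
    rw [h2, h1, ← coe_evalRingHom, map_multiset_prod, Multiset.map_map]
    congr 1
    refine Multiset.map_congr rfl fun ρ _ => ?_
    simp only [Function.comp_apply, coe_evalRingHom, eval_sub, eval_X, eval_C]
  by_cases hy : y = 0
  · rw [hy, zero_pow hℓ.out.ne_zero, mul_zero] at h
    obtain ⟨i, -, hi⟩ := Finset.prod_eq_zero_iff.1 h.symm
    obtain ⟨j, -, hj⟩ := Finset.prod_eq_zero_iff.1 hi
    obtain ⟨σ, hσ⟩ := exists_move hζ hg a hnot i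
    have h1 := roots_eq ((hg i).fix_iff hζ) hσ
    have h2 : (minpoly k (aeval ζ (g i) : A)).IsRoot (x - j) := hj
    have h3 := degree_eq_one_of_irreducible_of_root (minpoly.irreducible (hint i)) h2
    rw [degree_eq_natDegree (minpoly.ne_zero (hint i)), h1] at h3
    have h4 : ℓ = 1 := by exact_mod_cast h3
    exact hℓ.out.one_lt.ne' h4
  · apply hnot
    refine ⟨fun i => ∏ j ∈ S i, (algebraMap k
      k⟮(aeval ζ (g i) : A)⟯ (x - j) - AdjoinSimple.gen k (aeval ζ (g i) : A)), y⁻¹, ?_⟩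
    have h1 : ∀ i : Option (ZMod ℓ), Algebra.norm k (∏ j ∈ S i, (algebraMap k
      k⟮(aeval ζ (g i) : A)⟯ (x - j) - AdjoinSimple.gen k (aeval ζ (g i) : A))) =
        ∏ j ∈ S i, aeval (x - j) (minpoly k (aeval ζ (g i) : A)) := by
      intro i
      rw [map_prod]
      exact Finset.prod_congr rfl fun j _ => hnorm i _
    rw [Finset.prod_congr rfl fun i _ => h1 i, ← h, inv_pow, mul_left_comm,
      inv_mul_cancel₀ (pow_ne_zero ℓ hy), mul_one]

/-- no points at infinity -/
theorem no_infinity {g : Option (ZMod ℓ) → ℚ[X]} (a : k)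
    (hnot : ¬ ∃ (c : ∀ i, k⟮(aeval ζ (g i) : A)⟯) (ρ : k),
      a = ρ ^ ℓ * ∏ i, Algebra.norm k (c i)) (ρ : k) : a * ρ ^ ℓ ≠ 1 := by
  intro h
  apply hnot
  refine ⟨fun _ => 1, ρ⁻¹, ?_⟩
  have h1 : ρ ≠ 0 := by
    rintro rfl
    rw [zero_pow hℓ.out.ne_zero, mul_zero] at h
    exact zero_ne_one h
  simp only [map_one, Finset.prod_const_one, mul_one]
  rw [inv_pow]
  exact eq_inv_of_mul_eq_one_left h

/-- the right hand side is separable -/
theorem separable (hζ : IsPrimitiveRoot ζ (p * q))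
    {g : Option (ZMod ℓ) → ℚ[X]} (hg : ∀ i, Gn χ ψ (cs i).1 (cs i).2 ζ (g i))
    (hmove : ∀ i : Option (ZMod ℓ), ∃ σ : A ≃ₐ[k] A, kap χ ψ (cs i).1 (cs i).2 hζ σ ≠ 1)
    (S : Option (ZMod ℓ) → Finset k) :
    (∏ i, ∏ j ∈ S i, (minpoly k (aeval ζ (g i) : A)).comp (X - C j)).Separable := by
  classical
  have hint : ∀ i, IsIntegral k (aeval ζ (g i) : A) := fun i => Algebra.IsIntegral.isIntegral _
  have hcop : ∀ (i i' : Option (ZMod ℓ)) (j j' : k), (i, j) ≠ (i', j') →
      IsCoprime ((minpoly k (aeval ζ (g i) : A)).comp (X - C j))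
        ((minpoly k (aeval ζ (g i') : A)).comp (X - C j')) := by
    intro i i' j j' hne
    refine (Polynomial.isCoprime_iff_aeval_ne_zero_of_isAlgClosed k A _ _).2 fun ρ => ?_
    by_contra hcon
    push Not at hcon
    obtain ⟨h1, h2⟩ := hcon
    rw [aeval_comp, map_sub, aeval_X, aeval_C] at h1 h2
    obtain ⟨h3, -, h4⟩ := distinct hζ hg hmove h1 h2 (j := j) (j' := j')
      (by rw [add_sub_cancel, add_sub_cancel])
    exact hne (by rw [h3, h4])
  have hsep : ∀ (i : Option (ZMod ℓ)) (j : k),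
      ((minpoly k (aeval ζ (g i) : A)).comp (X - C j)).Separable := by
    intro i j
    have h1 := (minpoly.irreducible (hint i)).separable
    have h3 : ∀ Q : k[X], Q.comp (X - C j) = (algEquivAevalXAddC (-j)).toRingEquiv Q := by
      intro Q
      change _ = aeval (X + C (-j)) Q
      rw [← Polynomial.comp_eq_aeval, C_neg, ← sub_eq_add_neg]
    have h4 : derivative ((minpoly k (aeval ζ (g i) : A)).comp (X - C j)) =
        (derivative (minpoly k (aeval ζ (g i) : A))).comp (X - C j) := by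
      rw [derivative_comp, derivative_sub, derivative_X, derivative_C, sub_zero, one_mul]
    rw [Polynomial.Separable, h4, h3, h3]
    exact IsCoprime.map h1 (algEquivAevalXAddC (-j)).toRingEquiv.toRingHom
  refine separable_prod' ?_ fun i _ => separable_prod' ?_ fun j _ => hsep i j
  · intro i _ i' _ hii
    exact IsCoprime.prod_left fun j _ => IsCoprime.prod_right fun j' _ =>
      hcop i i' j j' fun h => hii (Prod.mk.inj h).1
  · intro j _ j' _ hjj
    exact hcop i i j j' fun h => hjj (Prod.mk.inj h).2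

theorem natDegree_eq (hζ : IsPrimitiveRoot ζ (p * q))
    {g : Option (ZMod ℓ) → ℚ[X]} (hg : ∀ i, Gn χ ψ (cs i).1 (cs i).2 ζ (g i))
    (hmove : ∀ i : Option (ZMod ℓ), ∃ σ : A ≃ₐ[k] A, kap χ ψ (cs i).1 (cs i).2 hζ σ ≠ 1)
    (S : Option (ZMod ℓ) → Finset k) :
    (∏ i, ∏ j ∈ S i, (minpoly k (aeval ζ (g i) : A)).comp (X - C j)).natDegree =
      ℓ * ∑ i, (S i).card := by
  classical
  have hint : ∀ i, IsIntegral k (aeval ζ (g i) : A) := fun i => Algebra.IsIntegral.isIntegral _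
  have hmon : ∀ (i : Option (ZMod ℓ)) (j : k),
      ((minpoly k (aeval ζ (g i) : A)).comp (X - C j)).Monic := fun i j =>
    (minpoly.monic (hint i)).comp_X_sub_C j
  have hdeg : ∀ (i : Option (ZMod ℓ)) (j : k),
      ((minpoly k (aeval ζ (g i) : A)).comp (X - C j)).natDegree = ℓ := by
    intro i j
    obtain ⟨σ, hσ⟩ := hmove i
    rw [natDegree_comp, natDegree_X_sub_C, mul_one, roots_eq ((hg i).fix_iff hζ) hσ]
  rw [natDegree_prod_of_monic _ _ fun i _ => monic_prod_of_monic _ _ fun j _ => hmon i j,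
    Finset.mul_sum]
  refine Finset.sum_congr rfl fun i _ => ?_
  rw [natDegree_prod_of_monic _ _ fun j _ => hmon i j,
    Finset.sum_congr rfl fun j _ => hdeg i j, Finset.sum_const, smul_eq_mul, mul_comm]

end points

end Pool.Agent.K3h48.MN
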