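import Pool.Agent.K3h48.MN.Chi
import Pool.Agent.W620.SC.Norm

/-!
# Multinorm obstruction: the cyclic fields of degree `ℓ` and conductor dividing `p q`
-/

set_option autoImplicit false
set_option linter.unusedSectionVars false

namespace Pool.Agent.K3h48.MN

open Polynomial IntermediateField

section kn

variable {ℓ p q : ℕ} [Fact p.Prime] [Fact q.Prime] (χ : (ZMod p)ˣ →* Multiplicative (ZMod ℓ))
  (ψ : (ZMod q)ˣ →* Multiplicative (ZMod ℓ)) (s t : ZMod ℓ)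

/-- the character `χ ^ s ψ ^ t`, written additively -/
noncomputable def kn (n : ℕ) : ZMod ℓ := s * ind χ (n : ZMod p) + t * ind ψ (n : ZMod q)

variable {χ ψ s t}

lemma cast_ne_left {n : ℕ} (hn : n.Coprime (p * q)) : (n : ZMod p) ≠ 0 := by
  rw [Ne, ZMod.natCast_eq_zero_iff]
  intro h
  have h1 : p ∣ 1 := by
    have h2 : n.Coprime p := Nat.Coprime.coprime_mul_right_right hn
    rw [← h2]
    exact Nat.dvd_gcd h dvd_rfl
  exact (Fact.out : p.Prime).one_lt.ne' (Nat.dvd_one.1 h1)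

lemma cast_ne_right {n : ℕ} (hn : n.Coprime (p * q)) : (n : ZMod q) ≠ 0 :=
  cast_ne_left (p := q) (q := p) (by rwa [mul_comm])

lemma kn_mul {m n : ℕ} (hm : m.Coprime (p * q)) (hn : n.Coprime (p * q)) :
    kn χ ψ s t (m * n) = kn χ ψ s t m + kn χ ψ s t n := by
  unfold kn
  rw [Nat.cast_mul, Nat.cast_mul, ind_mul χ (cast_ne_left hm) (cast_ne_left hn),
    ind_mul ψ (cast_ne_right hm) (cast_ne_right hn)]
  ring

lemma kn_congr {m n : ℕ} (h : m ≡ n [MOD p * q]) : kn χ ψ s t m = kn χ ψ s t n := by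
  unfold kn
  rw [(ZMod.natCast_eq_natCast_iff m n p).2 (h.of_mul_right q),
    (ZMod.natCast_eq_natCast_iff m n q).2 (h.of_mul_left p)]

lemma kn_one : kn χ ψ s t 1 = 0 := by
  unfold kn
  rw [Nat.cast_one, Nat.cast_one, ind_one, ind_one]
  ring

/-- Chinese remainder theorem -/
lemma exists_kn (hχ : Function.Surjective χ) (hψ : Function.Surjective ψ) (hpq : p ≠ q)
    (α β : ZMod ℓ) : ∃ n : ℕ, n.Coprime (p * q) ∧ ind χ (n : ZMod p) = α ∧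
      ind ψ (n : ZMod q) = β := by
  obtain ⟨u, hu⟩ := hχ (Multiplicative.ofAdd α)
  obtain ⟨v, hv⟩ := hψ (Multiplicative.ofAdd β)
  have hcop : p.Coprime q := (Nat.coprime_primes Fact.out Fact.out).2 hpq
  obtain ⟨n, hn1, hn2⟩ := Nat.chineseRemainder hcop (u : ZMod p).val (v : ZMod q).val
  have h1 : (n : ZMod p) = u := by
    rw [(ZMod.natCast_eq_natCast_iff _ _ _).2 hn1, ZMod.natCast_zmod_val]
  have h2 : (n : ZMod q) = v := by
    rw [(ZMod.natCast_eq_natCast_iff _ _ _).2 hn2, ZMod.natCast_zmod_val]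
  refine ⟨n, ?_, ?_, ?_⟩
  · refine Nat.Coprime.mul_right ?_ ?_
    · rw [Nat.coprime_comm, (Fact.out : p.Prime).coprime_iff_not_dvd, ← ZMod.natCast_eq_zero_iff,
        h1]
      exact u.ne_zero
    · rw [Nat.coprime_comm, (Fact.out : q.Prime).coprime_iff_not_dvd, ← ZMod.natCast_eq_zero_iff,
        h2]
      exact v.ne_zero
  · rw [h1, ind_unit, hu]; rfl
  · rw [h2, ind_unit, hv]; rfl

end kn

section roots

variable {ℓ p q : ℕ} [Fact p.Prime] [Fact q.Prime] (χ : (ZMod p)ˣ →* Multiplicative (ZMod ℓ))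
  (ψ : (ZMod q)ˣ →* Multiplicative (ZMod ℓ)) (s t : ZMod ℓ)
variable {A : Type*} [Field A] (ζ : A)

open Classical in
/-- the value of the character at `n`, if `ξ = ζ ^ n` -/
noncomputable def KK (ξ : A) : ZMod ℓ := if h : ∃ n : ℕ, ξ = ζ ^ n then kn χ ψ s t h.choose else 0

variable {χ ψ s t ζ}

lemma pq_ne : p * q ≠ 0 :=
  mul_ne_zero (Fact.out : p.Prime).ne_zero (Fact.out : q.Prime).ne_zero

lemma KK_pow (hζ : IsPrimitiveRoot ζ (p * q)) (n : ℕ) : KK χ ψ s t ζ (ζ ^ n) = kn χ ψ s t n := by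
  have h : ∃ m : ℕ, ζ ^ n = ζ ^ m := ⟨n, rfl⟩
  unfold KK
  rw [dif_pos h]
  refine kn_congr ?_
  have h1 := h.choose_spec
  have h0 : ζ ≠ 0 := hζ.ne_zero pq_ne
  have h2 : ζ ^ ((n : ℤ) - (h.choose : ℤ)) = 1 := by
    rw [zpow_sub₀ h0, zpow_natCast, zpow_natCast, ← h1, div_self (pow_ne_zero _ h0)]
  rw [hζ.zpow_eq_one_iff_dvd] at h2
  exact (Nat.modEq_iff_dvd.2 h2)

lemma exists_exp (hζ : IsPrimitiveRoot ζ (p * q)) (σ : A →+* A) :
    ∃ n : ℕ, n.Coprime (p * q) ∧ σ ζ = ζ ^ n := by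
  have : NeZero (p * q) := ⟨pq_ne⟩
  have h1 : IsPrimitiveRoot (σ ζ) (p * q) := hζ.map_of_injective σ.injective
  obtain ⟨n, -, hn, h⟩ := (hζ.isPrimitiveRoot_iff).1 h1
  exact ⟨n, hn, h.symm⟩

/-- the exponent of an automorphism -/
lemma exists_exp' {k : Type*} [Field k] [Algebra k A] (hζ : IsPrimitiveRoot ζ (p * q))
    (σ : A ≃ₐ[k] A) : ∃ n : ℕ, n.Coprime (p * q) ∧ σ ζ = ζ ^ n :=
  exists_exp hζ ((σ : A ≃+* A) : A →+* A)

variable (χ ψ s t) in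
/-- the character of the Galois group -/
noncomputable def kap {k : Type*} [Field k] [Algebra k A] (hζ : IsPrimitiveRoot ζ (p * q)) :
    (A ≃ₐ[k] A) →* Multiplicative (ZMod ℓ) where
  toFun := fun σ => Multiplicative.ofAdd (KK χ ψ s t ζ (σ ζ))
  map_one' := by
    have h : KK χ ψ s t ζ ((1 : A ≃ₐ[k] A) ζ) = 0 := by
      have h1 := KK_pow (χ := χ) (ψ := ψ) (s := s) (t := t) hζ 1
      rw [pow_one, kn_one] at h1
      exact h1
    rw [h]; rfl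
  map_mul' := by
    intro σ τ
    obtain ⟨m, hm, hσ⟩ := exists_exp' hζ σ
    obtain ⟨n, hn, hτ⟩ := exists_exp' hζ τ
    have h : (σ * τ) ζ = ζ ^ (m * n) := by
      rw [AlgEquiv.mul_apply, hτ, map_pow, hσ, ← pow_mul]
    rw [h, hσ, hτ, KK_pow hζ, KK_pow hζ, KK_pow hζ, kn_mul hm hn, ofAdd_add]

lemma kap_apply {k : Type*} [Field k] [Algebra k A] (hζ : IsPrimitiveRoot ζ (p * q))
    {σ : A ≃ₐ[k] A} {n : ℕ} (h : σ ζ = ζ ^ n) :
    kap χ ψ s t hζ σ = Multiplicative.ofAdd (kn χ ψ s t n) := by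
  change Multiplicative.ofAdd (KK χ ψ s t ζ (σ ζ)) = _
  rw [h, KK_pow hζ]

variable (χ ψ s t) in
/-- the number `g(ζ)` generates the cyclic field of the character -/
def Gn [CharZero A] (ζ : A) (g : ℚ[X]) : Prop :=
  ∀ n : ℕ, n.Coprime (p * q) → (aeval (ζ ^ n) g = aeval ζ g ↔ kn χ ψ s t n = 0)

lemma aeval_eq_iff [CharZero A] (hζ : IsPrimitiveRoot ζ (p * q)) (g : ℚ[X]) (n : ℕ) :
    aeval (ζ ^ n) g = aeval ζ g ↔ cyclotomic (p * q) ℚ ∣ expand ℚ n g - g := by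
  rw [cyclotomic_eq_minpoly_rat hζ (Nat.pos_of_ne_zero pq_ne), minpoly.dvd_iff, map_sub,
    expand_aeval, sub_eq_zero]

lemma Gn.transfer [CharZero A] {B : Type*} [Field B] [CharZero B] {ξ : B}
    (hζ : IsPrimitiveRoot ζ (p * q)) (hξ : IsPrimitiveRoot ξ (p * q)) {g : ℚ[X]}
    (h : Gn χ ψ s t ζ g) : Gn χ ψ s t ξ g := by
  intro n hn
  rw [← h n hn, aeval_eq_iff hξ, aeval_eq_iff hζ]

lemma Gn.fix_iff [CharZero A] (hζ : IsPrimitiveRoot ζ (p * q)) {g : ℚ[X]}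
    (h : Gn χ ψ s t ζ g) {k : Type*} [Field k] [Algebra k A] (σ : A ≃ₐ[k] A) :
    σ (aeval ζ g) = aeval ζ g ↔ kap χ ψ s t hζ σ = 1 := by
  obtain ⟨n, hn, hσ⟩ := exists_exp' hζ σ
  rw [kap_apply hζ hσ]
  have h1 : σ (aeval ζ g) = aeval (ζ ^ n) g := by
    rw [← hσ, aeval_def, aeval_def]
    change ((σ : A ≃+* A) : A →+* A) _ = _
    rw [hom_eval₂]
    congr 1
    exact RingHom.ext_rat _ _
  rw [h1, h n hn]
  exact Iff.rfl

end roots

section norm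

variable {ℓ : ℕ} [hℓ : Fact ℓ.Prime] {A : Type*} [Field A] [CharZero A] [IsAlgClosed A]
  [Algebra.IsAlgebraic ℚ A]

lemma fix_adjoin {k : Type*} [Field k] [Algebra k A] {θ : A} {σ : A ≃ₐ[k] A} (h : σ θ = θ) {c : A}
    (hc : c ∈ k⟮θ⟯) : σ c = c := by
  have h1 : k⟮θ⟯ ≤ IntermediateField.fixedField (Subgroup.zpowers σ) := by
    rw [IntermediateField.adjoin_simple_le_iff, IntermediateField.mem_fixedField_iff]
    intro τ hτ
    obtain ⟨i, rfl⟩ := Subgroup.mem_zpowers_iff.1 hτ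
    have h2 : σ ∈ MulAction.stabilizer (A ≃ₐ[k] A) θ := h
    exact (MulAction.stabilizer (A ≃ₐ[k] A) θ).zpow_mem h2 i
  exact (IntermediateField.mem_fixedField_iff _ _).1 (h1 hc) σ (Subgroup.mem_zpowers σ)

/-- the norm is the product over the powers of an automorphism -/
lemma norm_formula {θ : A} (κ : (A ≃ₐ[ℚ] A) →* Multiplicative (ZMod ℓ))
    (hκ : ∀ σ, σ θ = θ ↔ κ σ = 1) {σ : A ≃ₐ[ℚ] A} (hσ : κ σ ≠ 1) (c : ℚ⟮θ⟯) :
    algebraMap ℚ A (Algebra.norm ℚ c) = ∏ j ∈ Finset.range ℓ, (σ ^ j) (c : A) := by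
  classical
  have hint : IsIntegral ℚ θ := Algebra.IsIntegral.isIntegral θ
  have : FiniteDimensional ℚ ℚ⟮θ⟯ := adjoin.finiteDimensional hint
  have hnorm : Normal ℚ A := normal_iff.2 fun x => ⟨Algebra.IsIntegral.isIntegral x, IsAlgClosed.splits _⟩
  set x : ZMod ℓ := (κ σ).toAdd with hx
  have hx0 : x ≠ 0 := fun h => hσ (by
    apply Multiplicative.toAdd.injective
    exact h)
  have hκp : ∀ j : ℕ, (κ (σ ^ j)).toAdd = j * x := by
    intro j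
    rw [map_pow, toAdd_pow, nsmul_eq_mul]
  have hfix : ∀ τ : A ≃ₐ[ℚ] A, κ τ = 1 → τ (c : A) = c := fun τ hτ =>
    fix_adjoin ((hκ τ).2 hτ) c.2
  rw [Algebra.norm_eq_prod_embeddings ℚ A c]
  symm
  rw [← Fin.prod_univ_eq_prod_range (fun j => (σ ^ j) (c : A)) ℓ]
  refine Fintype.prod_bijective
    (fun j : Fin ℓ => ((σ ^ (j : ℕ) : A ≃ₐ[ℚ] A) : A →ₐ[ℚ] A).comp (ℚ⟮θ⟯).val) ?_ _ _
    (fun j => rfl)
  constructor
  · intro i j hij
    have h1 : (σ ^ (i : ℕ)) θ = (σ ^ (j : ℕ)) θ :=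
      DFunLike.congr_fun hij (AdjoinSimple.gen ℚ θ)
    have h2 : ((σ ^ (j : ℕ))⁻¹ * σ ^ (i : ℕ)) θ = θ := by
      rw [AlgEquiv.mul_apply, h1, ← AlgEquiv.mul_apply, inv_mul_cancel, AlgEquiv.one_apply]
    have h3 := (hκ _).1 h2
    rw [map_mul, map_inv, inv_mul_eq_one] at h3
    have h4 := congrArg Multiplicative.toAdd h3
    rw [hκp, hκp] at h4
    have h5 : ((j : ℕ) : ZMod ℓ) = ((i : ℕ) : ZMod ℓ) := mul_right_cancel₀ hx0 h4
    rw [ZMod.natCast_eq_natCast_iff] at h5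
    exact Fin.ext (Nat.ModEq.eq_of_lt_of_lt h5.symm i.2 j.2)
  · intro φ
    obtain ⟨τ, hτ⟩ := Pool.Agent.W620.SC.exists_lift ℚ⟮θ⟯ φ
    set y : ZMod ℓ := (κ τ).toAdd with hy
    refine ⟨⟨(y / x).val, ZMod.val_lt _⟩, ?_⟩
    have h1 : κ ((σ ^ (y / x).val)⁻¹ * τ) = 1 := by
      apply Multiplicative.toAdd.injective
      rw [map_mul, map_inv, toAdd_mul, toAdd_inv, hκp, ZMod.natCast_zmod_val,
        div_mul_cancel₀ _ hx0, ← hy, neg_add_cancel, toAdd_one]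
    have h2 : ∀ c ∈ ℚ⟮θ⟯, τ c = (σ ^ (y / x).val) c := by
      intro c hc
      have h3 := fix_adjoin ((hκ _).2 h1) hc
      rw [AlgEquiv.mul_apply] at h3
      have h4 := congrArg (σ ^ (y / x).val) h3
      rwa [← AlgEquiv.mul_apply, mul_inv_cancel, AlgEquiv.one_apply] at h4
    refine AlgHom.ext fun c => ?_
    rw [← hτ c, h2 c c.2]
    rfl

end norm

section surj

variable {ℓ p q : ℕ} [Fact p.Prime] [Fact q.Prime] {χ : (ZMod p)ˣ →* Multiplicative (ZMod ℓ)}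
  {ψ : (ZMod q)ˣ →* Multiplicative (ZMod ℓ)}
variable {A : Type*} [Field A] [CharZero A] [IsAlgClosed A] [Algebra.IsAlgebraic ℚ A] {ζ : A}

/-- the cyclotomic character is surjective -/
lemma exists_aut (hζ : IsPrimitiveRoot ζ (p * q)) {n : ℕ} (hn : n.Coprime (p * q)) :
    ∃ σ : A ≃ₐ[ℚ] A, σ ζ = ζ ^ n := by
  have hnorm : Normal ℚ A := normal_iff.2 fun x => ⟨Algebra.IsIntegral.isIntegral x, IsAlgClosed.splits _⟩
  have h1 : minpoly ℚ (ζ ^ n) = minpoly ℚ ζ := by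
    rw [← cyclotomic_eq_minpoly_rat hζ (Nat.pos_of_ne_zero pq_ne),
      ← cyclotomic_eq_minpoly_rat (hζ.pow_of_coprime n hn) (Nat.pos_of_ne_zero pq_ne)]
  obtain ⟨σ, hσ⟩ := (Normal.minpoly_eq_iff_mem_orbit A).1 h1
  exact ⟨σ, hσ⟩

lemma exists_aut_kn (hζ : IsPrimitiveRoot ζ (p * q)) (hχ : Function.Surjective χ)
    (hψ : Function.Surjective ψ) (hpq : p ≠ q) (α β : ZMod ℓ) :
    ∃ (σ : A ≃ₐ[ℚ] A) (n : ℕ), n.Coprime (p * q) ∧ σ ζ = ζ ^ n ∧ ind χ (n : ZMod p) = α ∧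
      ind ψ (n : ZMod q) = β := by
  obtain ⟨n, hn, h1, h2⟩ := exists_kn hχ hψ hpq α β
  obtain ⟨σ, hσ⟩ := exists_aut (p := p) (q := q) hζ hn
  exact ⟨σ, n, hn, hσ, h1, h2⟩

end surj

end Pool.Agent.K3h48.MN
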