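import Pool.Agent.K3h48.MN.Conj
import Pool.Agent.W620.SC.Explicit

/-!
# Multinorm obstruction: polynomials with a root in one of the fields
-/

set_option autoImplicit false
set_option linter.unusedSectionVars false

namespace Pool.Agent.K3h48.MN

open Polynomial IntermediateField Pool.Agent.W620.SC

universe u v w

section gal

variable {ℓ : ℕ} [hℓ : Fact ℓ.Prime] {k A : Type*} [Field k] [Field A] [CharZero k] [Algebra k A]
  [IsAlgClosed A] [Algebra.IsAlgebraic k A]

lemma fix_all {κ : (A ≃ₐ[k] A) →* Multiplicative (ZMod ℓ)} {c : A}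
    (h1 : ∀ σ, κ σ = 1 → σ c = c) {τ : A ≃ₐ[k] A} (hτ : κ τ ≠ 1) (h2 : τ c = c)
    (σ : A ≃ₐ[k] A) : σ c = c := by
  set x : ZMod ℓ := (κ τ).toAdd with hx
  set y : ZMod ℓ := (κ σ).toAdd with hy
  have hx0 : x ≠ 0 := fun h => hτ (Multiplicative.toAdd.injective h)
  have hpow : ∀ j : ℕ, (τ ^ j) c = c := by
    intro j
    induction j with
    | zero => rfl
    | succ j ih => rw [pow_succ', AlgEquiv.mul_apply, ih, h2]
  have h3 : κ ((τ ^ (y / x).val)⁻¹ * σ) = 1 := by
    apply Multiplicative.toAdd.injective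
    rw [map_mul, map_inv, toAdd_mul, toAdd_inv, map_pow, toAdd_pow, nsmul_eq_mul,
      ZMod.natCast_zmod_val, ← hx, div_mul_cancel₀ _ hx0, ← hy, neg_add_cancel, toAdd_one]
  have h4 := h1 _ h3
  rw [AlgEquiv.mul_apply] at h4
  have h5 := congrArg (τ ^ (y / x).val) h4
  rwa [← AlgEquiv.mul_apply, mul_inv_cancel, AlgEquiv.one_apply, hpow] at h5

lemma exists_moved {g : k[X]} (hirr : Irreducible g) (hdeg : g.natDegree ≠ 1) {c : A}
    (hc : aeval c g = 0) : ∃ σ : A ≃ₐ[k] A, σ c ≠ c := by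
  by_contra hcon
  push Not at hcon
  have hnorm : Normal k A := normal_iff.2 fun x =>
    ⟨Algebra.IsIntegral.isIntegral x, IsAlgClosed.splits _⟩
  have hgal : IsGalois k A := ⟨⟩
  have h1 : c ∈ (⊥ : IntermediateField k A) := mem_of_fixed _ fun σ _ => hcon σ
  obtain ⟨d, hd⟩ := IntermediateField.mem_bot.1 h1
  have h2 : g.IsRoot d := by
    apply (algebraMap k A).injective
    rw [map_zero, ← hc, ← hd, aeval_algebraMap_apply]
    rfl
  exact hdeg (natDegree_eq_of_degree_eq_some (degree_eq_one_of_irreducible_of_root hirr h2))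

end gal

/-- the monic irreducible polynomial `g` has the root `h(θ)` -/
structure Adm {k A : Type*} [Field k] [Field A] [Algebra k A] (θ : A) (g h : k[X]) : Prop where
  monic : g.Monic
  irr : Irreducible g
  deg : g.natDegree ≠ 1
  dvd : minpoly k θ ∣ g.comp h

section fam

variable {ℓ p q : ℕ} [hℓ : Fact ℓ.Prime] [hp : Fact p.Prime] [hq : Fact q.Prime]
  {χ : (ZMod p)ˣ →* Multiplicative (ZMod ℓ)} {ψ : (ZMod q)ˣ →* Multiplicative (ZMod ℓ)}
variable {A : Type*} [Field A] [CharZero A] [IsAlgClosed A] {ζ : A}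
  {k : Type*} [Field k] [NumberField k] [Algebra k A] [Algebra.IsAlgebraic k A]

lemma Adm.root {θ : A} {g h : k[X]} (H : Adm θ g h) {ρ : A} (hρ : aeval ρ (minpoly k θ) = 0) :
    aeval (aeval ρ h) g = 0 := by
  obtain ⟨d, hd⟩ := H.dvd
  rw [← aeval_comp, hd, map_mul, hρ, zero_mul]

lemma Adm.minpoly_eq {θ : A} {g h : k[X]} (H : Adm θ g h) {ρ : A}
    (hρ : aeval ρ (minpoly k θ) = 0) : g = minpoly k (aeval ρ h) :=
  minpoly.eq_of_irreducible_of_monic H.irr (H.root hρ) H.monic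

lemma aut_aeval (σ : A ≃ₐ[k] A) (ρ : A) (h : k[X]) : σ (aeval ρ h) = aeval (σ ρ) h :=
  (aeval_algHom_apply σ ρ h).symm

lemma val_fix (hζ : IsPrimitiveRoot ζ (p * q)) {s t : ZMod ℓ} {e : ℚ[X]}
    (he : Gn χ ψ s t ζ e) {ρ : A} (hρ : aeval ρ (minpoly k (aeval ζ e : A)) = 0) (h : k[X])
    (σ : A ≃ₐ[k] A) (hσ : kap χ ψ s t hζ σ = 1) : σ (aeval ρ h) = aeval ρ h := by
  rw [aut_aeval, (fix_conj hζ he hρ σ).2 hσ]

/-- the roots are different -/
theorem distinct' (hζ : IsPrimitiveRoot ζ (p * q)) {e : Option (ZMod ℓ) → ℚ[X]}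
    (he : ∀ i, Gn χ ψ (cs i).1 (cs i).2 ζ (e i))
    (hmove : ∀ i : Option (ZMod ℓ), ∃ σ : A ≃ₐ[k] A, kap χ ψ (cs i).1 (cs i).2 hζ σ ≠ 1)
    {i i' : Option (ZMod ℓ)} {g g' h h' : k[X]} (H : Adm (aeval ζ (e i) : A) g h)
    (H' : Adm (aeval ζ (e i') : A) g' h') {ρ ρ' : A}
    (hρ : aeval ρ (minpoly k (aeval ζ (e i) : A)) = 0)
    (hρ' : aeval ρ' (minpoly k (aeval ζ (e i') : A)) = 0) (heq : aeval ρ h = aeval ρ' h') :
    i = i' ∧ g = g' ∧ (h = h' → ρ = ρ') := by
  have hg : g = g' := by rw [H.minpoly_eq hρ, heq, ← H'.minpoly_eq hρ']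
  obtain ⟨σ₀, hσ₀⟩ := exists_moved H.irr H.deg (H.root hρ)
  have hii : i = i' := by
    by_contra hne
    obtain ⟨σ, h1, h2⟩ := exists_move_one hζ hmove hne
    apply hσ₀
    refine fix_all (fun τ hτ => val_fix hζ (he i) hρ h τ hτ) h1 ?_ σ₀
    rw [heq]
    exact val_fix hζ (he i') hρ' h' σ h2
  refine ⟨hii, hg, ?_⟩
  rintro rfl
  subst hii
  obtain ⟨τ₁, rfl⟩ := root_orbit (k := k) hρ
  obtain ⟨τ₂, rfl⟩ := root_orbit (k := k) hρ'
  by_contra hne
  have h2 : τ₁⁻¹ (τ₁ (aeval ζ (e i) : A)) = aeval ζ (e i) := by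
    rw [← AlgEquiv.mul_apply, inv_mul_cancel, AlgEquiv.one_apply]
  have h1 : kap χ ψ (cs i).1 (cs i).2 hζ (τ₂ * τ₁⁻¹) ≠ 1 := by
    intro h4
    have h3 := (fix_conj hζ (he i) hρ _).2 h4
    rw [AlgEquiv.mul_apply, h2] at h3
    exact hne h3.symm
  apply hσ₀
  refine fix_all (fun τ hτ => val_fix hζ (he i) hρ h τ hτ) h1 ?_ σ₀
  rw [aut_aeval, AlgEquiv.mul_apply, h2]
  exact heq.symm

/-- the polynomial as a product over the conjugates -/
theorem prod_roots (hζ : IsPrimitiveRoot ζ (p * q)) {e : Option (ZMod ℓ) → ℚ[X]}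
    (he : ∀ i, Gn χ ψ (cs i).1 (cs i).2 ζ (e i))
    (hmove : ∀ i : Option (ZMod ℓ), ∃ σ : A ≃ₐ[k] A, kap χ ψ (cs i).1 (cs i).2 hζ σ ≠ 1)
    {i : Option (ZMod ℓ)} {g h : k[X]} (H : Adm (aeval ζ (e i) : A) g h) {R : Finset A}
    (hR : ∀ ρ, ρ ∈ R ↔ aeval ρ (minpoly k (aeval ζ (e i) : A)) = 0) :
    g.map (algebraMap k A) = ∏ ρ ∈ R, (X - C (aeval ρ h)) := by
  classical
  have hθ : aeval (aeval ζ (e i) : A) (minpoly k (aeval ζ (e i) : A)) = 0 := minpoly.aeval k _
  have hspl : (g.map (algebraMap k A)).Splits := IsAlgClosed.splits _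
  have h1 := hspl.eq_prod_roots_of_monic (H.monic.map _)
  have hnd : (g.map (algebraMap k A)).roots.Nodup := nodup_roots H.irr.separable.map
  have hinj : Set.InjOn (fun ρ : A => aeval ρ h) R := by
    intro ρ hρ ρ' hρ' heq
    exact (distinct' hζ he hmove H H ((hR ρ).1 hρ) ((hR ρ').1 hρ') heq).2.2 rfl
  have himg : (g.map (algebraMap k A)).roots.toFinset = R.image (fun ρ : A => aeval ρ h) := by
    ext r
    rw [Multiset.mem_toFinset, Finset.mem_image, mem_roots (H.monic.map _).ne_zero, IsRoot,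
      eval_map_algebraMap]
    constructor
    · intro hr
      have h2 := H.minpoly_eq hθ
      rw [h2] at hr
      obtain ⟨τ, rfl⟩ := root_orbit (k := k) hr
      refine ⟨τ (aeval ζ (e i) : A), (hR _).2 ?_, (aut_aeval τ _ h).symm⟩
      rw [← aut_aeval, hθ, map_zero]
    · rintro ⟨ρ, hρ, rfl⟩
      exact H.root ((hR ρ).1 hρ)
  rw [h1]
  have h2 : ((g.map (algebraMap k A)).roots.map (fun a => X - C a)).prod =
      ∏ r ∈ (g.map (algebraMap k A)).roots.toFinset, (X - C r) := by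
    rw [Finset.prod, Multiset.toFinset_val, Multiset.dedup_eq_self.2 hnd]
  rw [h2, himg, Finset.prod_image hinj]

end fam

section curve

variable {ℓ p q : ℕ} [hℓ : Fact ℓ.Prime] [hp : Fact p.Prime] [hq : Fact q.Prime]
  {χ : (ZMod p)ˣ →* Multiplicative (ZMod ℓ)} {ψ : (ZMod q)ˣ →* Multiplicative (ZMod ℓ)}
variable {k : Type u} {F : Type v} {Ω : Type w} [Field k] [NumberField k] [Field F] [Field Ω]
  [Algebra k F] [Algebra F Ω] [Algebra k Ω] [IsScalarTower k F Ω] [IsAlgClosed Ω]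
  [Algebra.IsAlgebraic F Ω]

theorem gen_no_section [CharZero (algebraicClosure k Ω)] [IsAlgClosed (algebraicClosure k Ω)]
    {ζ : algebraicClosure k Ω} (hζ : IsPrimitiveRoot ζ (p * q))
    {e : Option (ZMod ℓ) → ℚ[X]} (he : ∀ i, Gn χ ψ (cs i).1 (cs i).2 ζ (e i))
    (hmove : ∀ i : Option (ZMod ℓ), ∃ σ : (algebraicClosure k Ω) ≃ₐ[k] (algebraicClosure k Ω),
      kap χ ψ (cs i).1 (cs i).2 hζ σ ≠ 1)
    (G : Option (ZMod ℓ) → Finset k[X])
    (hG : ∀ i, ∀ g ∈ G i, ∃ h, Adm (aeval ζ (e i) : algebraicClosure k Ω) g h)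
    (a : k) (ha : a ≠ 0) (x y : F) (hy : y ≠ 0)
    (hxy : algebraMap k F a * y ^ ℓ = ∏ i, ∏ g ∈ G i, aeval x g)
    (U : Set (ValuationSubring F)) (hU : ∀ O ∈ U, ∀ c : k, algebraMap k F c ∈ O)
    (hinf : (∀ i, ℓ ∣ (G i).card) ∨ ∀ O ∈ U, x ∈ O)
    (hnot : ¬ ∃ (c : ∀ i, k⟮(aeval ζ (e i) : algebraicClosure k Ω)⟯) (ρ : k),
      a = ρ ^ ℓ * ∏ i, Algebra.norm k (c i)) :
    IsEmpty (GSection k F Ω U) := by
  classical
  choose! hh hH using hG
  set θ : Option (ZMod ℓ) → (algebraicClosure k Ω) := fun i => aeval ζ (e i) with hθ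
  have hint : ∀ i, IsIntegral k (θ i) := fun i => Algebra.IsIntegral.isIntegral _
  set vl : Option (ZMod ℓ) → k[X] → (algebraicClosure k Ω) → (algebraicClosure k Ω) := fun i g ρ => aeval ρ (hh i g) with hvl
  set Z : Option (ZMod ℓ) → F[X] := fun i =>
    ∏ g ∈ G i, (C x - (hh i g).map (algebraMap k F)) with hZ
  have hZval : ∀ i (ρ : (algebraicClosure k Ω)), aeval (ρ : Ω) (Z i) =
      ∏ g ∈ G i, (algebraMap F Ω x - (vl i g ρ : Ω)) := by
    intro i ρ
    rw [hZ]
    simp only [map_prod, map_sub, aeval_C]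
    refine Finset.prod_congr rfl fun g _ => ?_
    congr 1
    rw [aeval_map_algebraMap]
    exact aeval_algebraMap_apply Ω ρ (hh i g)
  set R : Option (ZMod ℓ) → Finset (algebraicClosure k Ω) := fun i => ((minpoly k (θ i)).aroots (algebraicClosure k Ω)).toFinset with hR
  have hnd : ∀ i, ((minpoly k (θ i)).aroots (algebraicClosure k Ω)).Nodup := fun i =>
    nodup_roots ((minpoly.irreducible (hint i)).separable.map)
  have hRmem : ∀ i ρ, ρ ∈ R i ↔ aeval ρ (minpoly k (θ i)) = 0 := by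
    intro i ρ
    rw [hR]
    simp only [Multiset.mem_toFinset]
    rw [mem_aroots]
    exact ⟨fun h => h.2, fun h => ⟨minpoly.ne_zero (hint i), h⟩⟩
  have hRprod : ∀ i (f : (algebraicClosure k Ω) → Ω), (((minpoly k (θ i)).aroots (algebraicClosure k Ω)).map f).prod = ∏ ρ ∈ R i, f ρ := by
    intro i f
    rw [hR, Finset.prod]
    simp only [Multiset.toFinset_val]
    rw [Multiset.dedup_eq_self.2 (hnd i)]
  have hsplit : ∀ i, ∀ g ∈ G i, algebraMap F Ω (aeval x g) =
      ∏ ρ ∈ R i, (algebraMap F Ω x - (vl i g ρ : Ω)) := by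
    intro i g hg
    have h1 := prod_roots hζ he hmove (hH i g hg) (hRmem i)
    have h2 : algebraMap F Ω (aeval x g) =
        eval₂ (algebraMap (algebraicClosure k Ω) Ω) (algebraMap F Ω x) (g.map (algebraMap k (algebraicClosure k Ω))) := by
      rw [eval₂_map, ← aeval_algebraMap_apply, aeval_def]
      rfl
    rw [h2, h1, ← coe_eval₂RingHom, map_prod]
    refine Finset.prod_congr rfl fun ρ _ => ?_
    simp only [coe_eval₂RingHom, eval₂_sub, eval₂_X, eval₂_C]
    rfl
  have hprod : ∏ i, ∏ ρ ∈ R i, aeval (ρ : Ω) (Z i) =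
      algebraMap k Ω a * algebraMap F Ω y ^ ℓ := by
    rw [IsScalarTower.algebraMap_apply k F Ω, ← map_pow, ← map_mul, hxy, map_prod]
    refine Finset.prod_congr rfl fun i _ => ?_
    rw [map_prod, Finset.prod_congr rfl (hsplit i), Finset.prod_comm]
    refine Finset.prod_congr rfl fun ρ _ => ?_
    rw [hZval]
  have hθR : ∀ i, θ i ∈ R i := fun i => (hRmem i _).2 (minpoly.aeval k (θ i))
  refine no_section (k := k) U hU hℓ.out.pos θ Z a ha y hy ?_ ?_ hnot
  · -- unramifiedness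
    intro i W hW
    have hWk : ∀ c : k, algebraMap k Ω c ∈ W := by
      intro c
      rw [IsScalarTower.algebraMap_apply k F Ω]
      exact hU _ hW c
    have hconst : ∀ c : Ω, c ∈ algebraicClosure k Ω → c ≠ 0 → IsU W c := fun c hc _ =>
      ⟨const_mem hWk hc, const_mem hWk (inv_mem hc)⟩
    by_cases hx : algebraMap F Ω x ∈ W
    · by_cases hall : ∀ g ∈ G i, algebraMap F Ω x - (vl i g (θ i) : Ω) ∉ W.nonunits
      · refine ⟨1, one_mem _, one_ne_zero, ?_⟩
        have hu : IsU W (aeval (θ i : Ω) (Z i)) := by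
          rw [hZval]
          refine IsU.prod _ _ fun g hg => ?_
          exact isU_of_not_nonunit (sub_mem hx (const_mem hWk (vl i g (θ i)).2)) (hall g hg)
        rw [one_pow, div_one, one_div]
        exact hu
      · push Not at hall
        obtain ⟨g0, hg0, hnu⟩ := hall
        -- all other factors are units
        have hother : ∀ c : (algebraicClosure k Ω), c ≠ vl i g0 (θ i) → IsU W (algebraMap F Ω x - (c : Ω)) := by
          intro c hne
          have h1 : algebraMap F Ω x - (c : Ω) = ((vl i g0 (θ i) - c : (algebraicClosure k Ω)) : Ω) +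
              (algebraMap F Ω x - (vl i g0 (θ i) : Ω)) := by
            push_cast
            ring
          rw [h1]
          have h2 : ((vl i g0 (θ i) - c : (algebraicClosure k Ω)) : Ω) ≠ 0 := by
            intro h
            exact hne (sub_eq_zero.1 (Subtype.ext h)).symm
          exact isU_add (hconst _ (vl i g0 (θ i) - c : (algebraicClosure k Ω)).2 h2) hnu h2
        have hZu : ∀ i' (ρ : (algebraicClosure k Ω)), ρ ∈ R i' → (i' = i → ρ ≠ θ i) →
            IsU W (aeval (ρ : Ω) (Z i')) := by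
          intro i' ρ hρ hne
          rw [hZval]
          refine IsU.prod _ _ fun g hg => hother _ ?_
          intro h
          obtain ⟨h2, h3, h4⟩ := distinct' hζ he hmove (hH i' g hg) (hH i g0 hg0)
            ((hRmem i' ρ).1 hρ) ((hRmem i _).1 (hθR i)) h
          subst h2
          subst h3
          exact hne rfl (h4 rfl)
        have haU : IsU W (algebraMap k Ω a) := hconst _ ((algebraicClosure k Ω).algebraMap_mem a)
          ((_root_.map_ne_zero _).2 ha)
        have hy0 : algebraMap F Ω y ≠ 0 := (_root_.map_ne_zero _).2 hy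
        set Q : Ω := (∏ ρ ∈ (R i).erase (θ i), aeval (ρ : Ω) (Z i)) *
          ∏ i' ∈ Finset.univ.erase i, ∏ ρ ∈ R i', aeval (ρ : Ω) (Z i') with hQ
        have hQU : IsU W Q := by
          refine IsU.mul (IsU.prod _ _ fun ρ hρ => ?_)
            (IsU.prod _ _ fun i' hi' => IsU.prod _ _ fun ρ hρ => ?_)
          · exact hZu i ρ (Finset.mem_of_mem_erase hρ) fun _ => Finset.ne_of_mem_erase hρ
          · exact hZu i' ρ hρ fun h => absurd h (Finset.ne_of_mem_erase hi')
        have hzQ : aeval (θ i : Ω) (Z i) * Q = algebraMap k Ω a * algebraMap F Ω y ^ ℓ := by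
          rw [← hprod, ← Finset.mul_prod_erase _ _ (Finset.mem_univ i), hQ,
            ← Finset.mul_prod_erase _ _ (hθR i)]
          ring
        have hQ0 : Q ≠ 0 := by
          intro h
          rw [h, mul_zero] at hzQ
          exact mul_ne_zero ((_root_.map_ne_zero _).2 ha) (pow_ne_zero ℓ hy0) hzQ.symm
        refine ⟨algebraMap F Ω y, IntermediateField.algebraMap_mem _ y, hy0, ?_⟩
        have h1 : aeval (θ i : Ω) (Z i) / algebraMap F Ω y ^ ℓ = algebraMap k Ω a * Q⁻¹ := by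
          rw [div_eq_iff (pow_ne_zero ℓ hy0), mul_right_comm, ← hzQ]
          field_simp
        have h2 := haU.mul hQU.inv
        rw [← h1] at h2
        refine ⟨h2.1, ?_⟩
        rw [← inv_div]
        exact h2.2
    · -- at infinity
      have hdvd : ∀ i, ℓ ∣ (G i).card := by
        rcases hinf with h | h
        · exact h
        · exact absurd (h _ hW) hx
      obtain ⟨m, hm⟩ := hdvd i
      have hx0 : algebraMap F Ω x ≠ 0 := by
        intro h
        rw [h] at hx
        exact hx (zero_mem _)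
      have hxinv : (algebraMap F Ω x)⁻¹ ∈ W.nonunits :=
        (W.inv_mem_nonunits_iff).2 (Or.inr hx)
      refine ⟨algebraMap F Ω x ^ m, pow_mem (IntermediateField.algebraMap_mem _ x) m,
        pow_ne_zero m hx0, ?_⟩
      have hU1 : IsU W (∏ g ∈ G i, (1 + -((vl i g (θ i) : Ω) * (algebraMap F Ω x)⁻¹))) := by
        refine IsU.prod _ _ fun g _ => isU_add ⟨one_mem _, by rw [inv_one]; exact one_mem _⟩ ?_
          one_ne_zero
        refine neg_mem ?_
        rw [W.mem_nonunits_iff, map_mul]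
        exact lt_of_le_of_lt (mul_le_of_le_one_left' ((W.valuation_le_one_iff _).2
          (const_mem hWk (vl i g (θ i)).2))) ((W.mem_nonunits_iff).1 hxinv)
      have h1 : aeval (θ i : Ω) (Z i) /
          (algebraMap F Ω x ^ m) ^ ℓ = ∏ g ∈ G i, (1 + -((vl i g (θ i) : Ω) *
          (algebraMap F Ω x)⁻¹)) := by
        rw [hZval, ← pow_mul, mul_comm m ℓ, ← hm, ← Finset.prod_const, ← Finset.prod_div_distrib]
        refine Finset.prod_congr rfl fun g _ => ?_
        field_simp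
        ring
      rw [← h1] at hU1
      refine ⟨hU1.1, ?_⟩
      rw [← inv_div]
      exact hU1.2
  · rw [← hprod]
    exact Finset.prod_congr rfl fun i _ => hRprod i _

end curve

end Pool.Agent.K3h48.MN
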