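import Pool.Agent.K3h48.MN.Rat

/-!
# Multinorm obstruction: a uniformiser of the field of degree `ℓ` and conductor `p`
-/

set_option autoImplicit false
set_option linter.unusedSectionVars false

namespace Pool.Agent.K3h48.MN

open Polynomial IntermediateField Pool.Agent.W623.SecC

section lam

variable {ℓ p : ℕ} [hℓ : Fact ℓ.Prime] [hp : Fact p.Prime]
  (χ : (ZMod p)ˣ →* Multiplicative (ZMod ℓ))
variable {A : Type*} [Field A]

/-- the product of the `1 - ξ ^ u` over the `u` with `χ u = j` -/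
noncomputable def lam (ξ : A) (j : ZMod ℓ) : A :=
  ∏ u : (ZMod p)ˣ with (χ u).toAdd = j, (1 - ξ ^ (u : ZMod p).val)

variable {χ} {ξ : A}

lemma pow_val_mul (hξ : ξ ^ p = 1) (u : ZMod p) (n : ℕ) :
    (ξ ^ n) ^ u.val = ξ ^ (u * (n : ZMod p)).val := by
  rw [← pow_mul]
  have h1 : (n * u.val) % p = (u * (n : ZMod p)).val := by
    have h2 : ((n * u.val : ℕ) : ZMod p) = u * (n : ZMod p) := by
      rw [Nat.cast_mul, ZMod.natCast_zmod_val, mul_comm]
    rw [← h2, ZMod.val_natCast]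
  rw [← h1]
  exact (pow_eq_pow_mod _ hξ)

lemma lam_pow (hξ : ξ ^ p = 1) (n : ℕ) (hn : (n : ZMod p) ≠ 0) (j : ZMod ℓ) :
    lam χ (ξ ^ n) j = lam χ ξ (j + ind χ (n : ZMod p)) := by
  classical
  unfold lam
  have hind : ind χ (n : ZMod p) = (χ (Units.mk0 (n : ZMod p) hn)).toAdd := by
    rw [ind, dif_neg hn]
  refine Finset.prod_nbij' (fun u => u * Units.mk0 (n : ZMod p) hn)
    (fun u => u * (Units.mk0 (n : ZMod p) hn)⁻¹) ?_ ?_ ?_ ?_ ?_
  · intro u hu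
    rw [Finset.mem_filter] at hu ⊢
    refine ⟨Finset.mem_univ _, ?_⟩
    rw [map_mul, toAdd_mul, hu.2, hind]
  · intro u hu
    rw [Finset.mem_filter] at hu ⊢
    refine ⟨Finset.mem_univ _, ?_⟩
    rw [map_mul, map_inv, toAdd_mul, toAdd_inv, hu.2, hind]
    ring
  · intro u _
    exact mul_inv_cancel_right u _
  · intro u _
    exact inv_mul_cancel_right u _
  · intro u _
    rw [pow_val_mul hξ, Units.val_mul, Units.val_mk0]

lemma prod_lam (hξ : IsPrimitiveRoot ξ p) : ∏ j : ZMod ℓ, lam χ ξ j = p := by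
  classical
  unfold lam
  rw [Finset.prod_fiberwise (s := Finset.univ) (g := fun u : (ZMod p)ˣ => (χ u).toAdd)
    (f := fun u : (ZMod p)ˣ => (1 - ξ ^ (u : ZMod p).val))]
  obtain ⟨n, hn⟩ : ∃ n, p = n + 1 := ⟨p - 1, (Nat.succ_pred_eq_of_pos hp.out.pos).symm⟩
  have h1 : ∏ k ∈ Finset.range n, (1 - ξ ^ (k + 1)) = (n : A) + 1 :=
    IsPrimitiveRoot.prod_one_sub_pow_eq_order (hn ▸ hξ)
  have h2 : (p : A) = (n : A) + 1 := by
    rw [hn]; push_cast; rfl
  rw [h2, ← h1]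
  refine Finset.prod_bij' (fun u _ => (u : ZMod p).val - 1)
    (fun k hk => Units.mk0 ((k + 1 : ℕ) : ZMod p) ?_) ?_ ?_ ?_ ?_ ?_
  · rw [Finset.mem_range] at hk
    rw [Ne, ZMod.natCast_eq_zero_iff]
    intro h
    have := Nat.le_of_dvd (by omega) h
    omega
  · intro u _
    rw [Finset.mem_range]
    have h3 := ZMod.val_lt (u : ZMod p)
    have h4 : (u : ZMod p).val ≠ 0 := by
      rw [Ne, ZMod.val_eq_zero]
      exact u.ne_zero
    omega
  · intro k _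
    exact Finset.mem_univ _
  · intro u _
    have h4 : (u : ZMod p).val ≠ 0 := by
      rw [Ne, ZMod.val_eq_zero]
      exact u.ne_zero
    apply Units.ext
    rw [Units.val_mk0, show (u : ZMod p).val - 1 + 1 = (u : ZMod p).val by omega,
      ZMod.natCast_zmod_val]
  · intro k hk
    rw [Finset.mem_range] at hk
    rw [Units.val_mk0, ZMod.val_natCast, Nat.mod_eq_of_lt (by omega)]
    rfl
  · intro u _
    have h4 : (u : ZMod p).val ≠ 0 := by
      rw [Ne, ZMod.val_eq_zero]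
      exact u.ne_zero
    rw [show (u : ZMod p).val - 1 + 1 = (u : ZMod p).val by omega]

end lam

section aut

variable {ℓ p q : ℕ} [hℓ : Fact ℓ.Prime] [hp : Fact p.Prime] [hq : Fact q.Prime]
  {χ : (ZMod p)ˣ →* Multiplicative (ZMod ℓ)} {ψ : (ZMod q)ˣ →* Multiplicative (ZMod ℓ)}
variable {A : Type*} [Field A] [CharZero A] {ζ : A}

lemma prim_p (hζ : IsPrimitiveRoot ζ (p * q)) : IsPrimitiveRoot (ζ ^ q) p :=
  hζ.pow (Nat.pos_of_ne_zero pq_ne) (mul_comm p q)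

lemma prim_q (hζ : IsPrimitiveRoot ζ (p * q)) : IsPrimitiveRoot (ζ ^ p) q :=
  hζ.pow (Nat.pos_of_ne_zero pq_ne) rfl

variable (χ) in
/-- the uniformiser -/
noncomputable def la (q : ℕ) (ζ : A) : A := lam χ (ζ ^ q) 0

lemma map_lam (f : A →+* A) (ξ : A) (j : ZMod ℓ) : f (lam χ ξ j) = lam χ (f ξ) j := by
  unfold lam
  rw [map_prod]
  refine Finset.prod_congr rfl fun u _ => ?_
  rw [map_sub, map_one, map_pow]

lemma aut_la {k : Type*} [Field k] [Algebra k A] (hζ : IsPrimitiveRoot ζ (p * q))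
    (σ : A ≃ₐ[k] A) : σ (la χ q ζ) = lam χ (ζ ^ q) (kap χ ψ 1 0 hζ σ).toAdd := by
  obtain ⟨n, hn, hσ⟩ := exists_exp' hζ σ
  rw [kap_apply hζ hσ]
  have h1 : σ (la χ q ζ) = lam χ (σ (ζ ^ q)) 0 := map_lam ((σ : A ≃+* A) : A →+* A) _ _
  rw [h1, map_pow, hσ, ← pow_mul, mul_comm n q, pow_mul,
    lam_pow ((prim_p hζ).pow_eq_one) n (cast_ne_left hn), zero_add, toAdd_ofAdd, kn, one_mul, zero_mul, add_zero]

lemma lam_ne (hζ : IsPrimitiveRoot ζ (p * q)) (j : ZMod ℓ) : lam χ (ζ ^ q) j ≠ 0 := by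
  intro h
  have h1 := prod_lam (χ := χ) (prim_p hζ)
  rw [Finset.prod_eq_zero (Finset.mem_univ j) h] at h1
  exact hp.out.ne_zero (Nat.cast_eq_zero.1 h1.symm)

/-- the norm of the uniformiser -/
lemma prod_la {k : Type*} [Field k] [Algebra k A] (hζ : IsPrimitiveRoot ζ (p * q))
    {σ : A ≃ₐ[k] A} (hσ : kap χ ψ 1 0 hζ σ ≠ 1) :
    ∏ i ∈ Finset.range ℓ, (σ ^ i) (la χ q ζ) = p := by
  set x : ZMod ℓ := (kap χ ψ 1 0 hζ σ).toAdd with hx
  have hx0 : x ≠ 0 := fun h => hσ (Multiplicative.toAdd.injective h)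
  have h1 : ∀ i ∈ Finset.range ℓ, (σ ^ i) (la χ q ζ) = lam χ (ζ ^ q) ((i : ZMod ℓ) * x) := by
    intro i _
    rw [aut_la (ψ := ψ) hζ, map_pow, toAdd_pow, nsmul_eq_mul]
  rw [Finset.prod_congr rfl h1, ← prod_lam (χ := χ) (prim_p hζ)]
  refine Finset.prod_bij' (fun i _ => (i : ZMod ℓ) * x) (fun y _ => (y / x).val)
    (fun _ _ => Finset.mem_univ _) (fun y _ => Finset.mem_range.2 (ZMod.val_lt _)) ?_ ?_
    (fun _ _ => rfl)
  · intro i hi
    rw [Finset.mem_range] at hi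
    rw [mul_div_cancel_right₀ _ hx0, ZMod.val_natCast, Nat.mod_eq_of_lt hi]
  · intro y _
    rw [ZMod.natCast_zmod_val, div_mul_cancel₀ _ hx0]

/-- the uniformiser generates the field -/
lemma la_fix [IsAlgClosed A] [Algebra.IsAlgebraic ℚ A] (hζ : IsPrimitiveRoot ζ (p * q))
    {τ : A ≃ₐ[ℚ] A} (hτ : τ (la χ q ζ) = la χ q ζ) : kap χ ψ 1 0 hζ τ = 1 := by
  by_contra hcon
  set x : ZMod ℓ := (kap χ ψ 1 0 hζ τ).toAdd with hx
  have hx0 : x ≠ 0 := fun h => hcon (Multiplicative.toAdd.injective h)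
  have hpow : ∀ i : ℕ, (τ ^ i) (la χ q ζ) = la χ q ζ := by
    intro i
    induction i with
    | zero => rfl
    | succ i ih => rw [pow_succ', AlgEquiv.mul_apply, ih, hτ]
  have hall : ∀ j : ZMod ℓ, lam χ (ζ ^ q) j = la χ q ζ := by
    intro j
    have h1 := hpow (j / x).val
    rw [aut_la (ψ := ψ) hζ, map_pow, toAdd_pow, nsmul_eq_mul, ← hx, ZMod.natCast_zmod_val,
      div_mul_cancel₀ _ hx0] at h1
    exact h1
  have hfix : ∀ σ : A ≃ₐ[ℚ] A, σ (la χ q ζ) = la χ q ζ := by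
    intro σ
    rw [aut_la (ψ := ψ) hζ, hall]
  have hnorm : Normal ℚ A := normal_iff.2 fun x =>
    ⟨Algebra.IsIntegral.isIntegral x, IsAlgClosed.splits _⟩
  have hgal : IsGalois ℚ A := ⟨⟩
  have h2 : la χ q ζ ∈ (⊥ : IntermediateField ℚ A) :=
    Pool.Agent.W620.SC.mem_of_fixed _ fun σ _ => hfix σ
  rw [IntermediateField.mem_bot] at h2
  obtain ⟨y, hy⟩ := h2
  have h3 := prod_la (ψ := ψ) hζ hcon
  rw [Finset.prod_congr rfl fun i _ => hpow i, Finset.prod_const, Finset.card_range, ← hy,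
    ← map_pow] at h3
  have h4 : y ^ ℓ = p := by
    apply (algebraMap ℚ A).injective
    rw [h3, map_natCast]
  have hy0 : y ≠ 0 := by
    rintro rfl
    rw [zero_pow hℓ.out.ne_zero] at h4
    exact hp.out.ne_zero (Nat.cast_eq_zero.1 h4.symm)
  have h5 := congrArg (padicValRat p) h4
  rw [padicValRat.pow, padicValRat.self hp.out.one_lt] at h5
  have h6 : (ℓ : ℤ) ∣ 1 := ⟨_, h5.symm⟩
  have h7 : ℓ ∣ 1 := by exact_mod_cast h6
  exact hℓ.out.one_lt.ne' (Nat.dvd_one.1 h7)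

/-- the conjugates of the uniformiser differ by units -/
lemma la_unit (D : FD ℚ A p) (hζ : IsPrimitiveRoot ζ (p * q)) (σ : A ≃ₐ[ℚ] A) :
    IsU D.V (σ (la χ q ζ) / la χ q ζ) := by
  obtain ⟨n, hn, hσ⟩ := exists_exp' hζ σ
  set ξ : A := ζ ^ q with hξ
  have hprim : IsPrimitiveRoot ξ p := prim_p hζ
  have h1 : σ (la χ q ζ) = lam χ (ξ ^ n) 0 := by
    have h2 : σ (la χ q ζ) = lam χ (σ (ζ ^ q)) 0 := map_lam ((σ : A ≃+* A) : A →+* A) _ _
    rw [h2, map_pow, hσ, hξ, ← pow_mul, ← pow_mul, mul_comm]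
  rw [h1]
  unfold la lam
  rw [← hξ, ← Finset.prod_div_distrib]
  refine IsU.prod _ _ fun u _ => ?_
  have hu : (u : ZMod p).val.Coprime p := by
    have h3 := ZMod.val_coe_unit_coprime u
    exact h3
  have hnp : n.Coprime p := Nat.Coprime.coprime_mul_right_right hn
  set y : A := ξ ^ (u : ZMod p).val with hy
  have hyp : IsPrimitiveRoot y p := hprim.pow_of_coprime _ hu
  have h4 : (ξ ^ n) ^ (u : ZMod p).val = y ^ n := pow_right_comm ξ n _
  rw [h4]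
  have hyV : y ∈ D.V := (D.root_unit hp.out.ne_zero hyp.pow_eq_one).2.1
  have hne : ∀ z : A, IsPrimitiveRoot z p → 1 - z ≠ 0 := by
    intro z hz h
    exact hz.ne_one hp.out.one_lt (sub_eq_zero.1 h).symm
  have hgeom : ∀ z : A, z ∈ D.V → 1 - z ≠ 0 → ∀ m : ℕ, (1 - z ^ m) / (1 - z) ∈ D.V := by
    intro z hz h0 m
    rw [← mul_neg_geom_sum z m, mul_div_cancel_left₀ _ h0]
    exact sum_mem fun i _ => pow_mem hz i
  have hyn : IsPrimitiveRoot (y ^ n) p := hyp.pow_of_coprime _ hnp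
  obtain ⟨m, hm⟩ : ∃ m : ℕ, (y ^ n) ^ m = y := by
    obtain ⟨m, -, -, hm⟩ := (hyn.isPrimitiveRoot_iff).1 hyp
    exact ⟨m, hm⟩
  refine ⟨div_ne_zero (hne _ hyn) (hne _ hyp), hgeom y hyV (hne _ hyp) n, ?_⟩
  rw [inv_div]
  have h5 := hgeom (y ^ n) (pow_mem hyV n) (hne _ hyn) m
  rwa [hm] at h5

end aut

end Pool.Agent.K3h48.MN
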