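import Pool.Agent.K3h48.MN.Ram2

/-!
# Multinorm obstruction: the functional vanishes on norms
-/

set_option autoImplicit false
set_option linter.unusedSectionVars false

namespace Pool.Agent.K3h48.MN

open Polynomial IntermediateField

section defs

variable {ℓ p q : ℕ} [hp : Fact p.Prime] [hq : Fact q.Prime]
  (χ : (ZMod p)ˣ →* Multiplicative (ZMod ℓ)) (ψ : (ZMod q)ˣ →* Multiplicative (ZMod ℓ))

/-- the conditions on `p`, `q` and the characters -/
structure Good : Prop where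
  ne : p ≠ q
  surj_left : Function.Surjective χ
  surj_right : Function.Surjective ψ
  q_zero : ind χ (q : ZMod p) = 0
  p_zero : ind ψ (p : ZMod q) = 0
  neg_left : ind χ (-1) = 0
  neg_right : ind ψ (-1) = 0

/-- the coefficients of the characters -/
def cs : Option (ZMod ℓ) → ZMod ℓ × ZMod ℓ
  | none => (1, 0)
  | some j => (j, 1)

/-- the weights of the primes -/
noncomputable def wt (m : ZMod ℓ) (r : ℕ) : ZMod ℓ :=
  if ind ψ (r : ZMod q) = m * ind χ (r : ZMod p) then ind χ (r : ZMod p) else 0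

end defs

section main

variable {ℓ p q : ℕ} [hℓ : Fact ℓ.Prime] [hp : Fact p.Prime] [hq : Fact q.Prime]
  {χ : (ZMod p)ˣ →* Multiplicative (ZMod ℓ)} {ψ : (ZMod q)ˣ →* Multiplicative (ZMod ℓ)}
variable {A : Type*} [Field A] [CharZero A] [IsAlgClosed A] [Algebra.IsAlgebraic ℚ A] {ζ : A}

theorem norm_zero (hG : Good χ ψ) (hζ : IsPrimitiveRoot ζ (p * q))
    {g : Option (ZMod ℓ) → ℚ[X]} (hg : ∀ i, Gn χ ψ (cs i).1 (cs i).2 ζ (g i)) {m : ZMod ℓ}
    (hm : m ≠ 0) (i : Option (ZMod ℓ)) (c : ℚ⟮(aeval ζ (g i) : A)⟯) (hc : c ≠ 0) :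
    ssum (wt χ ψ m) (Algebra.norm ℚ c) = 0 := by
  classical
  -- primes of nonzero weight
  have hwt : ∀ r : ℕ, wt χ ψ m r ≠ 0 → r ≠ p ∧ r ≠ q ∧ ind ψ (r : ZMod q) = m * ind χ (r : ZMod p) ∧
      ind χ (r : ZMod p) ≠ 0 := by
    intro r hr
    unfold wt at hr
    split_ifs at hr with h
    · refine ⟨?_, ?_, h, hr⟩
      · rintro rfl
        apply hr
        rw [ZMod.natCast_self, ind_zero]
      · rintro rfl
        rw [ZMod.natCast_self, ind_zero] at h
        rcases mul_eq_zero.1 h.symm with h1 | h1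
        · exact hm h1
        · exact hr h1
    · exact absurd rfl hr
  have hvan : (cs i).1 + (cs i).2 * m ≠ 0 → ssum (wt χ ψ m) (Algebra.norm ℚ c) = 0 := by
    intro hne
    rw [ssum]
    refine Finset.sum_eq_zero fun r hr => ?_
    have hrp := (Nat.mem_primeFactors.1 hr).1
    by_cases hw : wt χ ψ m r = 0
    · rw [hw, mul_zero]
    · obtain ⟨h1, h2, h3, h4⟩ := hwt r hw
      have hk : kn χ ψ (cs i).1 (cs i).2 r ≠ 0 := by
        rw [kn, h3]
        have h5 : (cs i).1 * ind χ (r : ZMod p) + (cs i).2 * (m * ind χ (r : ZMod p)) =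
          ((cs i).1 + (cs i).2 * m) * ind χ (r : ZMod p) := by ring
        rw [h5]
        exact mul_ne_zero hne h4
      have h5 := inert hζ (hg i) hrp h1 h2 hk c hc
      rw [(ZMod.intCast_zmod_eq_zero_iff_dvd _ _).2 h5, zero_mul]
  match i with
  | none =>
    refine hvan ?_
    simp [cs]
  | some j =>
    by_cases hj : j + m = 0
    · have hj0 : j ≠ 0 := by
        rintro rfl
        rw [zero_add] at hj
        exact hm hj
      have h0 := hg (some 0)
      have hgj := hg (some j)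
      simp only [cs] at h0 hgj
      rw [ssum_congr (w' := fun r => ind χ (r : ZMod p)), ram hζ h0 hj0 hgj hG.surj_left hG.surj_right
        hG.ne hG.p_zero hG.neg_left c hc]
      intro r hr
      by_cases h1 : ind ψ (r : ZMod q) = m * ind χ (r : ZMod p)
      · rw [wt, if_pos h1]
      · rw [wt, if_neg h1, mul_zero]
        symm
        by_cases hrp : r = p
        · subst hrp
          rw [ZMod.natCast_self, ind_zero, mul_zero]
        by_cases hrq : r = q
        · subst hrq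
          rw [hG.q_zero, mul_zero]
        have hk : kn χ ψ j 1 r ≠ 0 := by
          intro h2
          apply h1
          rw [kn] at h2
          have h3 : j = -m := eq_neg_of_add_eq_zero_left hj
          rw [h3] at h2
          linear_combination h2
        have h5 := inert hζ hgj hr hrp hrq hk c hc
        rw [(ZMod.intCast_zmod_eq_zero_iff_dvd _ _).2 h5, zero_mul]
    · refine hvan ?_
      simpa [cs] using hj

end main

section tower

variable {A : Type*} [Field A] [CharZero A]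

lemma tower {k : Type*} [Field k] [NumberField k] [Algebra k A] {θ : A} (hθ : IsIntegral k θ)
    (c : k⟮θ⟯) : ∃ c' : ℚ⟮θ⟯, Algebra.norm ℚ (Algebra.norm k c) = Algebra.norm ℚ c' := by
  have hfd : FiniteDimensional k k⟮θ⟯ := adjoin.finiteDimensional hθ
  have hfd2 : FiniteDimensional ℚ k⟮θ⟯ := FiniteDimensional.trans ℚ k k⟮θ⟯
  have hle : ∀ x : A, x ∈ ℚ⟮θ⟯ → x ∈ k⟮θ⟯ := by
    intro x hx
    have h1 : ℚ⟮θ⟯ ≤ (k⟮θ⟯).restrictScalars ℚ := by
      rw [IntermediateField.adjoin_simple_le_iff]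
      exact mem_adjoin_simple_self k θ
    exact h1 hx
  let ι : ℚ⟮θ⟯ →+* k⟮θ⟯ :=
    { toFun := fun x => ⟨x, hle x x.2⟩
      map_one' := rfl
      map_mul' := fun _ _ => rfl
      map_zero' := rfl
      map_add' := fun _ _ => rfl }
  let _ : Algebra ℚ⟮θ⟯ k⟮θ⟯ := ι.toAlgebra
  have hst : IsScalarTower ℚ ℚ⟮θ⟯ k⟮θ⟯ := IsScalarTower.of_algebraMap_eq fun x => by
    simp
  have hfd3 : FiniteDimensional ℚ⟮θ⟯ k⟮θ⟯ := Module.Finite.of_restrictScalars_finite ℚ _ _
  have hfd4 : FiniteDimensional ℚ ℚ⟮θ⟯ := by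
    refine FiniteDimensional.left ℚ ℚ⟮θ⟯ k⟮θ⟯
  refine ⟨Algebra.norm ℚ⟮θ⟯ c, ?_⟩
  rw [Algebra.norm_norm, Algebra.norm_norm]

end tower

section nf

variable {ℓ p q : ℕ} [hℓ : Fact ℓ.Prime] [hp : Fact p.Prime] [hq : Fact q.Prime]
  {χ : (ZMod p)ˣ →* Multiplicative (ZMod ℓ)} {ψ : (ZMod q)ˣ →* Multiplicative (ZMod ℓ)}
variable {A : Type*} [Field A] [CharZero A] [IsAlgClosed A] {ζ : A}

lemma ssum_zero (w : ℕ → ZMod ℓ) : ssum w 0 = 0 := by simp [ssum]

theorem not_norms (hG : Good χ ψ) (hζ : IsPrimitiveRoot ζ (p * q))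
    {g : Option (ZMod ℓ) → ℚ[X]} (hg : ∀ i, Gn χ ψ (cs i).1 (cs i).2 ζ (g i)) {m : ZMod ℓ}
    (hm : m ≠ 0) {k : Type*} [Field k] [NumberField k] [Algebra k A] [Algebra.IsAlgebraic k A]
    (a : k) (ha : ssum (wt χ ψ m) (Algebra.norm ℚ a) ≠ 0) :
    ¬ ∃ (c : ∀ i, k⟮(aeval ζ (g i) : A)⟯) (ρ : k), a = ρ ^ ℓ * ∏ i, Algebra.norm k (c i) := by
  rintro ⟨c, ρ, h⟩
  have halg : Algebra.IsAlgebraic ℚ A := Algebra.IsAlgebraic.trans ℚ k A
  have ha0 : a ≠ 0 := by
    rintro rfl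
    rw [Algebra.norm_zero, ssum_zero] at ha
    exact ha rfl
  have hρ : ρ ≠ 0 := by
    rintro rfl
    rw [zero_pow hℓ.out.ne_zero, zero_mul] at h
    exact ha0 h
  have hprod : ∏ i, Algebra.norm k (c i) ≠ 0 := by
    intro h1
    rw [h1, mul_zero] at h
    exact ha0 h
  rw [Finset.prod_ne_zero_iff] at hprod
  apply ha
  have hN : ∀ x : k, x ≠ 0 → Algebra.norm ℚ x ≠ 0 := fun x hx => Algebra.norm_ne_zero_iff.2 hx
  rw [h, map_mul, map_pow, map_prod, ssum_mul _ (pow_ne_zero _ (hN ρ hρ))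
    (Finset.prod_ne_zero_iff.2 fun i hi => hN _ (hprod i hi)), ssum_pow _ (hN ρ hρ),
    ZMod.natCast_self, zero_mul, zero_add, ssum_prod _ _ _ fun i hi => hN _ (hprod i hi)]
  refine Finset.sum_eq_zero fun i hi => ?_
  obtain ⟨c', hc'⟩ := tower (Algebra.IsIntegral.isIntegral (R := k) (aeval ζ (g i) : A)) (c i)
  rw [hc']
  refine norm_zero hG hζ hg hm i c' ?_
  rintro rfl
  have hfd : FiniteDimensional ℚ ℚ⟮(aeval ζ (g i) : A)⟯ :=
    adjoin.finiteDimensional (Algebra.IsIntegral.isIntegral _)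
  have h1 := hN _ (hprod i hi)
  rw [hc', Algebra.norm_zero] at h1
  exact h1 rfl

end nf

end Pool.Agent.K3h48.MN
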