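import Pool.Agent.K3h48.MN.Lam

/-!
# Multinorm obstruction: the norms at the ramified prime `p`
-/

set_option autoImplicit false
set_option linter.unusedSectionVars false

namespace Pool.Agent.K3h48.MN

open Polynomial IntermediateField Pool.Agent.W623.SecC

section ram

variable {ℓ p q : ℕ} [hℓ : Fact ℓ.Prime] [hp : Fact p.Prime] [hq : Fact q.Prime]
  {χ : (ZMod p)ˣ →* Multiplicative (ZMod ℓ)} {ψ : (ZMod q)ˣ →* Multiplicative (ZMod ℓ)}
variable {A : Type*} [Field A] [CharZero A] [IsAlgClosed A] [Algebra.IsAlgebraic ℚ A] {ζ : A}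

lemma kap_split {k : Type*} [Field k] [Algebra k A] (hζ : IsPrimitiveRoot ζ (p * q)) (s t : ZMod ℓ)
    (σ : A ≃ₐ[k] A) : (kap χ ψ s t hζ σ).toAdd =
      s * (kap χ ψ 1 0 hζ σ).toAdd + t * (kap χ ψ 0 1 hζ σ).toAdd := by
  obtain ⟨n, hn, hσ⟩ := exists_exp' hζ σ
  rw [kap_apply hζ hσ, kap_apply hζ hσ, kap_apply hζ hσ]
  simp only [toAdd_ofAdd, kn]
  ring

lemma kap_one_iff {k : Type*} [Field k] [Algebra k A] (hζ : IsPrimitiveRoot ζ (p * q))
    (s t : ZMod ℓ) (σ : A ≃ₐ[k] A) : kap χ ψ s t hζ σ = 1 ↔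
      s * (kap χ ψ 1 0 hζ σ).toAdd + t * (kap χ ψ 0 1 hζ σ).toAdd = 0 := by
  rw [← kap_split hζ]
  exact Iff.rfl

/-- the fixed field of the automorphisms of trivial `ψ` is unramified at `p` -/
lemma E0_le (hζ : IsPrimitiveRoot ζ (p * q)) {g₀ : ℚ[X]} (hg₀ : Gn χ ψ 0 1 ζ g₀) :
    ℚ⟮(aeval ζ g₀ : A)⟯ ≤ IntermediateField.adjoin ℚ {x : A | x ^ q = 1} := by
  have hnorm : Normal ℚ A := normal_iff.2 fun x =>
    ⟨Algebra.IsIntegral.isIntegral x, IsAlgClosed.splits _⟩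
  have hgal : IsGalois ℚ A := ⟨⟩
  rw [IntermediateField.adjoin_simple_le_iff]
  refine Pool.Agent.W620.SC.mem_of_fixed _ fun σ hσ => ?_
  rw [hg₀.fix_iff hζ]
  obtain ⟨n, hn, hσn⟩ := exists_exp' hζ σ
  rw [kap_apply hζ hσn]
  have h1 : σ (ζ ^ p) = ζ ^ p := by
    have h2 := (IntermediateField.mem_fixingSubgroup_iff _ _).1 hσ (ζ ^ p)
      (IntermediateField.subset_adjoin _ _ (prim_q hζ).pow_eq_one)
    exact h2
  rw [map_pow, hσn, ← pow_mul, mul_comm, pow_mul] at h1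
  have h3 : n ≡ 1 [MOD q] := by
    have h0 : ζ ^ p ≠ 0 := (prim_q hζ).ne_zero hq.out.ne_zero
    have h2 : (ζ ^ p) ^ ((n : ℤ) - 1) = 1 := by
      rw [zpow_sub₀ h0, zpow_natCast, zpow_one, h1, div_self h0]
    rw [(prim_q hζ).zpow_eq_one_iff_dvd] at h2
    exact (Nat.modEq_iff_dvd.2 (by exact_mod_cast h2)).symm
  have h4 : ((n : ℕ) : ZMod q) = 1 := by
    rw [(ZMod.natCast_eq_natCast_iff _ _ _).2 h3, Nat.cast_one]
  rw [kn, h4, ind_one]
  simp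

/-- Frobenius at `p` fixes the field of `ψ` -/
lemma E0_frob (D : FD ℚ A p) (hζ : IsPrimitiveRoot ζ (p * q)) (hpq : p ≠ q)
    (hψp : ind ψ (p : ZMod q) = 0) : kap χ ψ 0 1 hζ D.φ = 1 := by
  obtain ⟨n, hn, hσn⟩ := exists_exp' hζ D.φ
  rw [kap_apply hζ hσn]
  have hpq' : ¬ p ∣ q := fun h => hpq ((Nat.prime_dvd_prime_iff_eq hp.out hq.out).1 h)
  have h1 : D.φ (ζ ^ p) = (ζ ^ p) ^ p := D.frob_root hq.out.ne_zero hpq' (prim_q hζ).pow_eq_one
  rw [map_pow, hσn, ← pow_mul, mul_comm, pow_mul] at h1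
  have h3 : n ≡ p [MOD q] := by
    have h0 : ζ ^ p ≠ 0 := (prim_q hζ).ne_zero hq.out.ne_zero
    have h2 : (ζ ^ p) ^ ((n : ℤ) - (p : ℤ)) = 1 := by
      rw [zpow_sub₀ h0, zpow_natCast, zpow_natCast, h1, div_self (pow_ne_zero _ h0)]
    rw [(prim_q hζ).zpow_eq_one_iff_dvd] at h2
    exact (Nat.modEq_iff_dvd.2 h2).symm
  have h4 : ((n : ℕ) : ZMod q) = (p : ZMod q) := (ZMod.natCast_eq_natCast_iff _ _ _).2 h3
  rw [kn, h4, hψp]
  simp

/-- powers of the uniformiser -/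
lemma la_pow_unit (D : FD ℚ A p) (hζ : IsPrimitiveRoot ζ (p * q))
    (hχ : Function.Surjective χ) (hψ : Function.Surjective ψ) (hpq : p ≠ q) :
    IsU D.V ((la χ q ζ) ^ ℓ / (p : A)) := by
  obtain ⟨σ, n, hn, hσn, h1, h2⟩ := exists_aut_kn (A := A) hζ hχ hψ hpq 1 0
  have hσ : kap χ ψ 1 0 hζ σ ≠ 1 := by
    rw [kap_apply hζ hσn, kn, h1, h2]
    intro h
    have h3 : (1 : ZMod ℓ) * 1 + 0 * 0 = 0 := h
    simp at h3
  have h3 := prod_la (ψ := ψ) hζ hσ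
  have h0 : la χ q ζ ≠ 0 := lam_ne hζ 0
  have hp0 : (p : A) ≠ 0 := Nat.cast_ne_zero.2 hp.out.ne_zero
  have h4 : IsU D.V ((p : A) / (la χ q ζ) ^ ℓ) := by
    rw [← h3]
    have h5 : (la χ q ζ) ^ ℓ = ∏ i ∈ Finset.range ℓ, la χ q ζ := by
      rw [Finset.prod_const, Finset.card_range]
    rw [h5, ← Finset.prod_div_distrib]
    exact IsU.prod _ _ fun i _ => la_unit D hζ (σ ^ i)
  have h5 := h4.inv
  rwa [inv_div] at h5

/-- the terms of an expansion have different valuations -/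
lemma term_ne (D : FD ℚ A p) (hζ : IsPrimitiveRoot ζ (p * q))
    (hχ : Function.Surjective χ) (hψ : Function.Surjective ψ) (hpq : p ≠ q) {c c' : A}
    (hc : ∃ j : ℤ, IsU D.V (c / (p : A) ^ j)) (hc' : ∃ j : ℤ, IsU D.V (c' / (p : A) ^ j)) {i i' : ℕ}
    (hi : i < ℓ) (hi' : i' < ℓ)
    (h : IsU D.V ((c * (la χ q ζ) ^ i) / (c' * (la χ q ζ) ^ i'))) : i = i' := by
  obtain ⟨j, hj⟩ := hc
  obtain ⟨j', hj'⟩ := hc'
  set L := la χ q ζ with hL
  have hL0 : L ≠ 0 := lam_ne hζ 0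
  have hp0 : (p : A) ≠ 0 := Nat.cast_ne_zero.2 hp.out.ne_zero
  have hu := la_pow_unit D hζ hχ hψ hpq
  rw [← hL] at hu
  have hc0 : c ≠ 0 := by
    rintro rfl
    exact hj.1 (zero_div _)
  have hc0' : c' ≠ 0 := by
    rintro rfl
    exact hj'.1 (zero_div _)
  have h1 := (((h.pow ℓ).div (hj.pow ℓ)).mul (hj'.pow ℓ)).div (hu.pow i) |>.mul (hu.pow i')
  have h2 : ((c * L ^ i) / (c' * L ^ i')) ^ ℓ / (c / (p : A) ^ j) ^ ℓ * (c' / (p : A) ^ j') ^ ℓ /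
      (L ^ ℓ / (p : A)) ^ i * (L ^ ℓ / (p : A)) ^ i' =
      (p : A) ^ ((ℓ : ℤ) * j - ℓ * j' + i - i') := by
    rw [zpow_sub₀ hp0, zpow_add₀ hp0, zpow_sub₀ hp0, zpow_natCast, zpow_natCast, mul_comm (ℓ : ℤ) j,
      mul_comm (ℓ : ℤ) j', zpow_mul, zpow_mul, zpow_natCast, zpow_natCast]
    have h3 : ((p : A) ^ j) ^ ℓ ≠ 0 := pow_ne_zero _ (zpow_ne_zero _ hp0)
    have h4 : ((p : A) ^ j') ^ ℓ ≠ 0 := pow_ne_zero _ (zpow_ne_zero _ hp0)
    have h5 : c ^ ℓ ≠ 0 := pow_ne_zero _ hc0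
    have h6 : c' ^ ℓ ≠ 0 := pow_ne_zero _ hc0'
    have h7 : (L ^ ℓ) ^ i ≠ 0 := pow_ne_zero _ (pow_ne_zero _ hL0)
    have h8 : (L ^ ℓ) ^ i' ≠ 0 := pow_ne_zero _ (pow_ne_zero _ hL0)
    have h9 : (p : A) ^ i ≠ 0 := pow_ne_zero _ hp0
    have h10 : (p : A) ^ i' ≠ 0 := pow_ne_zero _ hp0
    have e1 : ((c * L ^ i) / (c' * L ^ i')) ^ ℓ =
        (c ^ ℓ * (L ^ ℓ) ^ i) / (c' ^ ℓ * (L ^ ℓ) ^ i') := by
      rw [div_pow, mul_pow, mul_pow, pow_right_comm L i, pow_right_comm L i']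
    rw [e1, div_pow c, div_pow c', div_pow _ _ i, div_pow _ _ i']
    generalize ((p : A) ^ j) ^ ℓ = x1 at *
    generalize ((p : A) ^ j') ^ ℓ = x2 at *
    generalize c ^ ℓ = x3 at *
    generalize c' ^ ℓ = x4 at *
    generalize (L ^ ℓ) ^ i = x5 at *
    generalize (L ^ ℓ) ^ i' = x6 at *
    generalize (p : A) ^ i = x7 at *
    generalize (p : A) ^ i' = x8 at *
    field_simp
  rw [h2] at h1
  have h3 := D.zpow_unit h1
  have h4 : i ≡ i' [MOD ℓ] := by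
    rw [Nat.modEq_iff_dvd]
    exact ⟨j - j', by linear_combination -h3⟩
  exact Nat.ModEq.eq_of_lt_of_lt h4 hi hi'

/-- the uniformiser has degree at most `ℓ` -/
lemma la_degree (hζ : IsPrimitiveRoot ζ (p * q)) (E : IntermediateField ℚ A) :
    (minpoly E (la χ q ζ)).natDegree ≤ ℓ := by
  classical
  have hnorm : Normal ℚ A := normal_iff.2 fun x =>
    ⟨Algebra.IsIntegral.isIntegral x, IsAlgClosed.splits _⟩
  have hgal : IsGalois ℚ A := ⟨⟩
  have hgalE : IsGalois E A := inferInstance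
  set f := minpoly E (la χ q ζ) with hf
  have hint : IsIntegral E (la χ q ζ) := Algebra.IsIntegral.isIntegral _
  have hsep : (f.map (algebraMap E A)).Separable :=
    ((minpoly.irreducible hint).separable).map
  have hspl : (f.map (algebraMap E A)).Splits := IsAlgClosed.splits _
  have h1 : f.natDegree = (f.map (algebraMap E A)).roots.toFinset.card := by
    rw [Multiset.toFinset_card_of_nodup (nodup_roots hsep), ← natDegree_map (algebraMap E A),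
      hspl.natDegree_eq_card_roots]
  rw [h1]
  have h2 : (f.map (algebraMap E A)).roots.toFinset ⊆
      Finset.univ.image (fun j : ZMod ℓ => lam χ (ζ ^ q) j) := by
    intro ρ hρ
    rw [Multiset.mem_toFinset, mem_roots (hsep.ne_zero), IsRoot.def, eval_map] at hρ
    have h3 : minpoly E ρ = minpoly E (la χ q ζ) := by
      symm
      exact minpoly.eq_of_irreducible_of_monic (minpoly.irreducible hint) hρ (minpoly.monic hint)
    obtain ⟨σ, hσ⟩ := (Normal.minpoly_eq_iff_mem_orbit A).1 h3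
    rw [Finset.mem_image]
    refine ⟨(kap χ (1 : (ZMod q)ˣ →* Multiplicative (ZMod ℓ)) 1 0 hζ σ).toAdd, Finset.mem_univ _, ?_⟩
    rw [← aut_la hζ]
    exact hσ
  refine (Finset.card_le_card h2).trans (Finset.card_image_le.trans ?_)
  rw [Finset.card_univ, ZMod.card]

end ram

end Pool.Agent.K3h48.MN
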