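import Pool.Agent.K3h48.MN.Ram

/-!
# Multinorm obstruction: the norms at the ramified prime `p`, second part
-/

set_option autoImplicit false
set_option linter.unusedSectionVars false

namespace Pool.Agent.K3h48.MN

open Polynomial IntermediateField Pool.Agent.W623.SecC

section ram

variable {ℓ p q : ℕ} [hℓ : Fact ℓ.Prime] [hp : Fact p.Prime] [hq : Fact q.Prime]
  {χ : (ZMod p)ˣ →* Multiplicative (ZMod ℓ)} {ψ : (ZMod q)ˣ →* Multiplicative (ZMod ℓ)}
variable {A : Type*} [Field A] [CharZero A] [IsAlgClosed A] [Algebra.IsAlgebraic ℚ A] {ζ : A}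

/-- the expansion in powers of the uniformiser -/
lemma expansion (hζ : IsPrimitiveRoot ζ (p * q)) {g₀ : ℚ[X]} (hg₀ : Gn χ ψ 0 1 ζ g₀)
    {x : A} (hx : ∀ σ : A ≃ₐ[ℚ] A, kap χ ψ 1 0 hζ σ = 1 → kap χ ψ 0 1 hζ σ = 1 → σ x = x) :
    ∃ c : ℕ → A, (∀ i, c i ∈ ℚ⟮(aeval ζ g₀ : A)⟯) ∧
      x = ∑ i ∈ Finset.range ℓ, c i * (la χ q ζ) ^ i := by
  have hnorm : Normal ℚ A := normal_iff.2 fun x =>
    ⟨Algebra.IsIntegral.isIntegral x, IsAlgClosed.splits _⟩
  have hgal : IsGalois ℚ A := ⟨⟩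
  set E : IntermediateField ℚ A := ℚ⟮(aeval ζ g₀ : A)⟯ with hE
  have hgalE : IsGalois E A := inferInstance
  have hint : IsIntegral E (la χ q ζ) := Algebra.IsIntegral.isIntegral _
  have h1 : x ∈ E⟮la χ q ζ⟯ := by
    refine Pool.Agent.W620.SC.mem_of_fixed _ fun σ hσ => ?_
    have h2 : (σ.restrictScalars ℚ) x = x := by
      refine hx _ ?_ ?_
      · refine la_fix hζ ?_
        exact (IntermediateField.mem_fixingSubgroup_iff _ _).1 hσ (la χ q ζ)
          (mem_adjoin_simple_self E _)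
      · refine (hg₀.fix_iff hζ (σ.restrictScalars ℚ)).1 ?_
        exact σ.commutes ⟨_, mem_adjoin_simple_self ℚ (aeval ζ g₀ : A)⟩
    exact h2
  rw [← IntermediateField.mem_toSubalgebra,
    IntermediateField.adjoin_simple_toSubalgebra_of_isAlgebraic hint.isAlgebraic,
    Algebra.adjoin_singleton_eq_range_aeval] at h1
  obtain ⟨P, hP⟩ := h1
  have hP' : aeval (la χ q ζ) P = x := hP
  set f := minpoly E (la χ q ζ) with hf
  have hmon : f.Monic := minpoly.monic hint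
  have h3 : aeval (la χ q ζ) (P %ₘ f) = x := by
    rw [← hP']
    conv_rhs => rw [← modByMonic_add_div P f]
    rw [map_add, map_mul, minpoly.aeval, zero_mul, add_zero]
  have hdeg : (P %ₘ f).natDegree < ℓ := by
    have h4 : f.natDegree ≤ ℓ := la_degree hζ E
    have h5 : f ≠ 1 := minpoly.ne_one E _
    exact (natDegree_modByMonic_lt P hmon h5).trans_le h4
  refine ⟨fun i => ((P %ₘ f).coeff i : A), fun i => ((P %ₘ f).coeff i).2, ?_⟩
  rw [← h3, aeval_eq_sum_range' hdeg]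
  refine Finset.sum_congr rfl fun i _ => ?_
  rw [Algebra.smul_def]
  rfl

/-- the norm at the prime `p` -/
lemma norm_at_p (D : FD ℚ A p) (hζ : IsPrimitiveRoot ζ (p * q)) {g₀ : ℚ[X]}
    (hg₀ : Gn χ ψ 0 1 ζ g₀) (hχ : Function.Surjective χ) (hψ : Function.Surjective ψ)
    (hpq : p ≠ q) (hψp : ind ψ (p : ZMod q) = 0)
    {x : A} (hx0 : x ≠ 0)
    (hx : ∀ σ : A ≃ₐ[ℚ] A, kap χ ψ 1 0 hζ σ = 1 → kap χ ψ 0 1 hζ σ = 1 → σ x = x)
    {σ : A ≃ₐ[ℚ] A} (h1 : kap χ ψ 1 0 hζ σ ≠ 1) (h2 : kap χ ψ 0 1 hζ σ = 1) :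
    ∃ (v z : ℤ), IsU D.V (z : A) ∧
      (∏ i ∈ Finset.range ℓ, (σ ^ i) x) / (p : A) ^ v - (z : A) ^ ℓ ∈ D.V.nonunits := by
  classical
  obtain ⟨c, hc, hxc⟩ := expansion hζ hg₀ hx
  set L := la χ q ζ with hL
  have hL0 : L ≠ 0 := lam_ne hζ 0
  have hp0 : (p : A) ≠ 0 := Nat.cast_ne_zero.2 hp.out.ne_zero
  have hpq' : ¬ p ∣ q := fun h => hpq ((Nat.prime_dvd_prime_iff_eq hp.out hq.out).1 h)
  have hun : ∀ i, c i ≠ 0 → ∃ j : ℤ, IsU D.V (c i / (p : A) ^ j) := fun i hi =>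
    D.unram q hq.out.ne_zero hpq' _ (E0_le hζ hg₀ (hc i)) hi
  set S := (Finset.range ℓ).filter (fun i => c i ≠ 0) with hS
  have hxS : x = ∑ i ∈ S, c i * L ^ i := by
    rw [hxc, hS, Finset.sum_filter]
    refine Finset.sum_congr rfl fun i _ => ?_
    split_ifs with h
    · rfl
    · rw [not_not.1 h, zero_mul]
  have hSne : S.Nonempty := by
    rw [Finset.nonempty_iff_ne_empty]
    intro h
    rw [hxS, h, Finset.sum_empty] at hx0
    exact hx0 rfl
  obtain ⟨m, hmS, hmax⟩ := Finset.exists_max_image S (fun i => D.V.valuation (c i * L ^ i)) hSne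
  have hm := (Finset.mem_filter.1 hmS)
  have hmℓ : m < ℓ := Finset.mem_range.1 hm.1
  have hcm : c m ≠ 0 := hm.2
  have hden : c m * L ^ m ≠ 0 := mul_ne_zero hcm (pow_ne_zero _ hL0)
  -- the quotients of the terms are not units
  have hq1 : ∀ i ∈ S.erase m, (c i * L ^ i) / (c m * L ^ m) ∈ D.V.nonunits := by
    intro i hi
    obtain ⟨him, hiS⟩ := Finset.mem_erase.1 hi
    have hi' := Finset.mem_filter.1 hiS
    have h3 : (c i * L ^ i) / (c m * L ^ m) ∈ D.V := by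
      rw [← D.V.valuation_le_one_iff, map_div₀]
      exact div_le_one_of_le₀ (hmax i hiS) zero_le
    by_contra hcon
    have h4 := isU_of_not_nonunit h3 hcon
    exact him (term_ne D hζ hχ hψ hpq (hun i hi'.2) (hun m hcm) (Finset.mem_range.1 hi'.1) hmℓ h4)
  -- the powers of `σ`
  have hfixE : ∀ j i : ℕ, (σ ^ j) (c i) = c i := by
    intro j i
    refine fix_adjoin ?_ (hc i)
    rw [hg₀.fix_iff hζ, map_pow, h2, one_pow]
  have hterm : ∀ j : ℕ, ∃ n ∈ D.V.nonunits, (σ ^ j) x = c m * ((σ ^ j) L) ^ m * (1 + n) := by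
    intro j
    have hε : IsU D.V ((σ ^ j) L / L) := la_unit D hζ (σ ^ j)
    have hσL : (σ ^ j) L ≠ 0 := (map_ne_zero_iff _ (σ ^ j).injective).2 hL0
    refine ⟨∑ i ∈ S.erase m, (c i * ((σ ^ j) L) ^ i) / (c m * ((σ ^ j) L) ^ m), ?_, ?_⟩
    · refine sum_mem fun i hi => ?_
      have h3 : (c i * ((σ ^ j) L) ^ i) / (c m * ((σ ^ j) L) ^ m) =
          (((σ ^ j) L / L) ^ i / ((σ ^ j) L / L) ^ m) * ((c i * L ^ i) / (c m * L ^ m)) := by
        rw [div_pow, div_pow]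
        have e1 : L ^ i ≠ 0 := pow_ne_zero _ hL0
        have e2 : L ^ m ≠ 0 := pow_ne_zero _ hL0
        have e3 : ((σ ^ j) L) ^ m ≠ 0 := pow_ne_zero _ hσL
        field_simp
      rw [h3]
      exact nonunit_mul (((hε.pow i).div (hε.pow m)).2.1) (hq1 i hi)
    · have e3 : c m * ((σ ^ j) L) ^ m ≠ 0 := mul_ne_zero hcm (pow_ne_zero _ hσL)
      have h4 : (σ ^ j) x = ∑ i ∈ S, c i * ((σ ^ j) L) ^ i := by
        conv_lhs => rw [hxS]
        rw [map_sum]
        refine Finset.sum_congr rfl fun i _ => ?_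
        rw [map_mul, map_pow, hfixE]
      rw [h4, ← Finset.add_sum_erase S _ hmS, mul_add, mul_one, Finset.mul_sum]
      congr 1
      refine Finset.sum_congr rfl fun i _ => ?_
      rw [mul_div_cancel₀ _ e3]
  choose n hn hn' using hterm
  -- the unit part of `c m`
  obtain ⟨a, ha⟩ := hun m hcm
  have hφ : D.φ (c m / (p : A) ^ a) = c m / (p : A) ^ a := by
    rw [map_div₀, map_zpow₀, map_natCast]
    congr 1
    refine fix_adjoin ?_ (hc m)
    rw [hg₀.fix_iff hζ]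
    exact E0_frob D hζ hpq hψp
  obtain ⟨z, hz⟩ := D.residue_int ha.2.1 hφ
  have hzu : IsU D.V (z : A) := by
    have h5 : (z : A) = c m / (p : A) ^ a + (-(c m / (p : A) ^ a - z)) := by ring
    rw [h5]
    exact isU_add_nonunit ha (neg_mem hz)
  refine ⟨a * ℓ + m, z, hzu, ?_⟩
  have hprod : ∏ i ∈ Finset.range ℓ, (σ ^ i) x =
      (c m) ^ ℓ * (p : A) ^ m * ∏ i ∈ Finset.range ℓ, (1 + n i) := by
    rw [Finset.prod_congr rfl fun i _ => hn' i, Finset.prod_mul_distrib, Finset.prod_mul_distrib,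
      Finset.prod_const, Finset.card_range, Finset.prod_pow, prod_la (ψ := ψ) hζ h1]
  have h6 : (∏ i ∈ Finset.range ℓ, (σ ^ i) x) / (p : A) ^ (a * ℓ + m) =
      (c m / (p : A) ^ a) ^ ℓ * ∏ i ∈ Finset.range ℓ, (1 + n i) := by
    rw [hprod, zpow_add₀ hp0, zpow_mul, zpow_natCast, zpow_natCast, div_pow]
    have e1 : ((p : A) ^ a) ^ ℓ ≠ 0 := pow_ne_zero _ (zpow_ne_zero _ hp0)
    have e2 : (p : A) ^ m ≠ 0 := pow_ne_zero _ hp0
    field_simp
  rw [h6]
  -- reduction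
  have hres : ∀ y ∈ D.V, ∀ y' ∈ D.V, ∀ w ∈ D.V, ∀ w' ∈ D.V, y - y' ∈ D.V.nonunits →
      w - w' ∈ D.V.nonunits → y * w - y' * w' ∈ D.V.nonunits := by
    intro y hy y' _ w _ w' hw' h7 h8
    have h9 : y * w - y' * w' = y * (w - w') + w' * (y - y') := by ring
    rw [h9]
    exact add_mem (nonunit_mul hy h8) (nonunit_mul hw' h7)
  have hmem1 : ∀ i, 1 + n i ∈ D.V := fun i => add_mem (one_mem _) (D.V.nonunits_subset (hn i))
  have h7 : ∀ s : Finset ℕ, (∏ i ∈ s, (1 + n i)) - 1 ∈ D.V.nonunits := by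
    intro s
    induction s using Finset.induction_on with
    | empty => rw [Finset.prod_empty, sub_self]; exact zero_mem _
    | insert i s hi ih =>
      rw [Finset.prod_insert hi]
      have h8 := hres (1 + n i) (hmem1 i) 1 (one_mem _) (∏ i ∈ s, (1 + n i))
        (prod_mem fun i _ => hmem1 i) 1 (one_mem _) (by rw [add_sub_cancel_left]; exact hn i) ih
      rwa [mul_one] at h8
  have h8 : ∀ k : ℕ, (c m / (p : A) ^ a) ^ k - (z : A) ^ k ∈ D.V.nonunits := by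
    intro k
    induction k with
    | zero => rw [pow_zero, pow_zero, sub_self]; exact zero_mem _
    | succ k ih =>
      rw [pow_succ, pow_succ]
      exact hres _ (pow_mem ha.2.1 k) _ (pow_mem hzu.2.1 k) _ ha.2.1 _ hzu.2.1 ih hz
  have h9 := hres _ (pow_mem ha.2.1 ℓ) _ (pow_mem hzu.2.1 ℓ) _ (prod_mem fun i _ => hmem1 i) 1
    (one_mem _) (h8 ℓ) (h7 (Finset.range ℓ))
  rwa [mul_one] at h9

/-- the sum of the values of `χ` over the prime factors of a norm -/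
theorem ram (hζ : IsPrimitiveRoot ζ (p * q)) {g₀ g : ℚ[X]}
    (hg₀ : Gn χ ψ 0 1 ζ g₀) {s : ZMod ℓ} (hs : s ≠ 0) (hg : Gn χ ψ s 1 ζ g)
    (hχ : Function.Surjective χ) (hψ : Function.Surjective ψ)
    (hpq : p ≠ q) (hψp : ind ψ (p : ZMod q) = 0) (hneg : ind χ (-1) = 0)
    (c : ℚ⟮(aeval ζ g : A)⟯) (hc : c ≠ 0) :
    ssum (fun r => ind χ (r : ZMod p)) (Algebra.norm ℚ c) = 0 := by
  have hcl : IsAlgClosure ℚ A := ⟨inferInstance, inferInstance⟩
  obtain ⟨D⟩ := exists_FD_rat A p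
  obtain ⟨σ, n, hn, hσn, h1, h2⟩ := exists_aut_kn (A := A) hζ hχ hψ hpq 1 0
  have hσ1 : kap χ ψ 1 0 hζ σ ≠ 1 := by
    rw [kap_apply hζ hσn, kn, h1, h2]
    intro h
    have h3 : (1 : ZMod ℓ) * 1 + 0 * 0 = 0 := h
    simp at h3
  have hσ2 : kap χ ψ 0 1 hζ σ = 1 := by
    rw [kap_apply hζ hσn, kn, h1, h2]
    simp
  have hσs : kap χ ψ s 1 hζ σ ≠ 1 := by
    rw [kap_apply hζ hσn, kn, h1, h2]
    intro h
    have h3 : s * 1 + 1 * 0 = 0 := h
    rw [mul_one, mul_zero, add_zero] at h3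
    exact hs h3
  have hc0 : (c : A) ≠ 0 := by
    intro h
    apply hc
    exact Subtype.ext h
  have hN := norm_formula (kap χ ψ s 1 hζ) (hg.fix_iff hζ) hσs c
  have hfix : ∀ τ : A ≃ₐ[ℚ] A, kap χ ψ 1 0 hζ τ = 1 → kap χ ψ 0 1 hζ τ = 1 → τ (c : A) = c := by
    intro τ h3 h4
    refine fix_adjoin ?_ c.2
    rw [hg.fix_iff hζ, kap_one_iff, h3, h4]
    simp
  obtain ⟨v, z, hz, hv⟩ := norm_at_p D hζ hg₀ hχ hψ hpq hψp hc0 hfix hσ1 hσ2
  rw [← hN] at hv
  have hNe : Algebra.norm ℚ c ≠ 0 := by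
    intro h
    rw [h, map_zero] at hN
    symm at hN
    rw [Finset.prod_eq_zero_iff] at hN
    obtain ⟨i, -, hi⟩ := hN
    exact hc0 ((map_eq_zero_iff _ (σ ^ i).injective).1 hi)
  set N := Algebra.norm ℚ c with hNd
  have hpQ : (p : ℚ) ≠ 0 := Nat.cast_ne_zero.2 hp.out.ne_zero
  set N' : ℚ := N / (p : ℚ) ^ v with hN'
  have hN'0 : N' ≠ 0 := div_ne_zero hNe (zpow_ne_zero _ hpQ)
  have hcast : ((N' : ℚ) : A) = algebraMap ℚ A N / (p : A) ^ v := by
    rw [hN']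
    simp
  rw [← hcast] at hv
  have hN'u : IsU D.V (N' : A) := by
    have h5 : (N' : A) = (z : A) ^ ℓ + ((N' : A) - (z : A) ^ ℓ) := by ring
    rw [h5]
    exact isU_add_nonunit (hz.pow ℓ) hv
  have hval : padicValRat p N' = 0 := D.val_rat hN'0 (by rw [zpow_zero, div_one]; exact hN'u)
  -- numerator and denominator are prime to `p`
  have hnd : ¬ p ∣ N'.num.natAbs ∧ ¬ p ∣ N'.den := by
    have hcop := N'.reduced
    have h6 : (padicValNat p N'.num.natAbs : ℤ) = padicValNat p N'.den := by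
      rw [padicValRat.eq_1, padicValInt] at hval
      omega
    have h7 : N'.num.natAbs ≠ 0 := Int.natAbs_ne_zero.2 (Rat.num_ne_zero.2 hN'0)
    constructor
    · intro h
      have h8 := one_le_padicValNat_of_dvd h7 h
      have h9 : p ∣ N'.den := by
        apply dvd_of_one_le_padicValNat
        omega
      exact Nat.not_coprime_of_dvd_of_dvd hp.out.one_lt h h9 hcop
    · intro h
      have h8 := one_le_padicValNat_of_dvd N'.den_nz h
      have h9 : p ∣ N'.num.natAbs := by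
        apply dvd_of_one_le_padicValNat
        omega
      exact Nat.not_coprime_of_dvd_of_dvd hp.out.one_lt h9 h hcop
  have hcong : (N'.num : ZMod p) = (z : ZMod p) ^ ℓ * (N'.den : ZMod p) := by
    have h10 : ((N'.num - z ^ ℓ * N'.den : ℤ) : A) ∈ D.V.nonunits := by
      have h11 : ((N'.num - z ^ ℓ * N'.den : ℤ) : A) = (N'.den : A) * ((N' : A) - (z : A) ^ ℓ) := by
        have h12 : (N'.num : A) = (N'.den : A) * (N' : A) := by
          have h13 : (N'.num : ℚ) = (N'.den : ℚ) * N' := by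
            rw [mul_comm]; exact (Rat.mul_den_eq_num N').symm
          have h14 : (((N'.num : ℤ) : ℚ) : A) = (((N'.den : ℕ) : ℚ) * N' : ℚ) := by rw [h13]
          rwa [Rat.cast_intCast, Rat.cast_mul, Rat.cast_natCast] at h14
        push_cast
        rw [h12]
        ring
      rw [h11]
      exact nonunit_mul (natCast_mem D.V _) hv
    rw [D.int_nonunit_iff] at h10
    have h11 := (ZMod.intCast_zmod_eq_zero_iff_dvd (N'.num - z ^ ℓ * N'.den) p).2 h10
    push_cast at h11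
    exact sub_eq_zero.1 h11
  have h12 : N = (p : ℚ) ^ v * N' := by
    rw [hN', mul_div_cancel₀ _ (zpow_ne_zero _ hpQ)]
  rw [h12, ssum_mul _ (zpow_ne_zero _ hpQ) hN'0, ssum_zpow _ hpQ, ssum_prime _ hp.out,
    ssum_unit χ hneg N' hnd.1 hnd.2 _ hcong, ZMod.natCast_self, ind_zero]
  ring

end ram

end Pool.Agent.K3h48.MN
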