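import Pool.Agent.K3h48.MN.Val
import Pool.Agent.K3h48.MN.Gal

/-!
# Multinorm obstruction: inert primes
-/

set_option autoImplicit false
set_option linter.unusedSectionVars false

namespace Pool.Agent.K3h48.MN

open Polynomial IntermediateField Pool.Agent.W623.SecC

universe w

theorem exists_FD_rat (B : Type w) [Field B] [CharZero B] [IsAlgClosure ℚ B] (r : ℕ)
    [hr : Fact r.Prime] : Nonempty (FD ℚ B r) := by
  classical
  set P : Ideal ℤ := Ideal.span {(r : ℤ)} with hP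
  have hrZ : Prime (r : ℤ) := Nat.prime_iff_prime_int.1 hr.out
  have hPp : P.IsPrime := (Ideal.span_singleton_prime hrZ.ne_zero).2 hrZ
  have hP0 : P ≠ ⊥ := by
    rw [hP, Ne, Ideal.span_singleton_eq_bot]
    exact hrZ.ne_zero
  have hPm : P.IsMaximal := hPp.isMaximal hP0
  have hle : P.primeCompl ≤ nonZeroDivisors ℤ := P.primeCompl_le_nonZeroDivisors
  let A₀ := Localization.subalgebra.ofField ℚ P.primeCompl hle
  have hloc : IsLocalization.AtPrime A₀ P :=
    Localization.subalgebra.isLocalization_ofField ℚ P.primeCompl hle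
  have hdvr : IsDiscreteValuationRing A₀ :=
    IsLocalization.AtPrime.isDiscreteValuationRing_of_dedekind_domain ℤ hP0 A₀
  have hfr : IsFractionRing A₀ ℚ := inferInstance
  let e : (ℤ ⧸ P) ≃+* IsLocalRing.ResidueField A₀ :=
    IsLocalization.AtPrime.equivQuotMaximalIdeal P A₀
  have hcard : Nat.card (IsLocalRing.ResidueField A₀) = r := by
    rw [← Nat.card_congr e.toEquiv, Nat.card_congr (Int.quotientSpanNatEquivZMod r).toEquiv,
      Nat.card_zmod]
  have hirr : Irreducible (r : A₀) := by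
    rw [IsDiscreteValuationRing.irreducible_iff_uniformizer,
      ← IsLocalization.AtPrime.map_eq_maximalIdeal P A₀, hP, Ideal.map_span, Set.image_singleton]
    congr 2
  exact exists_FD r hcard hirr

section

variable {ℓ p q : ℕ} [hℓ : Fact ℓ.Prime] [Fact p.Prime] [Fact q.Prime]
  {χ : (ZMod p)ˣ →* Multiplicative (ZMod ℓ)}
  {ψ : (ZMod q)ˣ →* Multiplicative (ZMod ℓ)} {s t : ZMod ℓ}
variable {A : Type*} [Field A] [CharZero A] [IsAlgClosed A] [Algebra.IsAlgebraic ℚ A] {ζ : A}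

lemma aeval_mem_adjoin {k : Type*} [Field k] [CharZero k] [Algebra k A] {N : ℕ} (h : ζ ^ N = 1)
    (g : ℚ[X]) : aeval ζ g ∈ IntermediateField.adjoin k {ζ : A | ζ ^ N = 1} := by
  have h1 : ζ ∈ IntermediateField.adjoin k {ζ : A | ζ ^ N = 1} :=
    IntermediateField.subset_adjoin _ _ h
  rw [aeval_def, eval₂_eq_sum_range]
  refine sum_mem fun i _ => mul_mem ?_ (pow_mem h1 i)
  have h2 : (algebraMap ℚ A) (g.coeff i) = algebraMap k A (algebraMap ℚ k (g.coeff i)) := by
    simp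
  rw [h2]
  exact IntermediateField.algebraMap_mem _ _

/-- at the primes that do not split in the field, the valuations of the norms are divisible
by `ℓ` -/
theorem inert (hζ : IsPrimitiveRoot ζ (p * q)) {g : ℚ[X]} (hg : Gn χ ψ s t ζ g) {r : ℕ}
    (hr : r.Prime) (hrp : r ≠ p) (hrq : r ≠ q) (hk : kn χ ψ s t r ≠ 0)
    (c : ℚ⟮(aeval ζ g : A)⟯) (hc : c ≠ 0) : (ℓ : ℤ) ∣ padicValRat r (Algebra.norm ℚ c) := by
  have : Fact r.Prime := ⟨hr⟩
  have hcl : IsAlgClosure ℚ A := ⟨inferInstance, inferInstance⟩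
  obtain ⟨D⟩ := exists_FD_rat A r
  have hrN : ¬ r ∣ p * q := by
    intro h
    rcases (hr.dvd_mul).1 h with h | h
    · exact hrp ((Nat.prime_dvd_prime_iff_eq hr Fact.out).1 h)
    · exact hrq ((Nat.prime_dvd_prime_iff_eq hr Fact.out).1 h)
  have hφ : D.φ ζ = ζ ^ r := D.frob_root pq_ne hrN hζ.pow_eq_one
  have hκ : kap χ ψ s t hζ D.φ ≠ 1 := by
    rw [kap_apply hζ hφ]
    intro h
    exact hk h
  have hN := norm_formula (kap χ ψ s t hζ) (hg.fix_iff hζ) hκ c
  have hc' : (c : A) ∈ IntermediateField.adjoin ℚ {ζ : A | ζ ^ (p * q) = 1} := by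
    have h1 : ℚ⟮(aeval ζ g : A)⟯ ≤ IntermediateField.adjoin ℚ {ζ : A | ζ ^ (p * q) = 1} := by
      rw [IntermediateField.adjoin_simple_le_iff]
      exact aeval_mem_adjoin hζ.pow_eq_one g
    exact h1 c.2
  have hc0 : (c : A) ≠ 0 := by
    intro h
    apply hc
    exact Subtype.ext h
  obtain ⟨j, hj⟩ := D.unram (p * q) pq_ne hrN _ hc' hc0
  have hNe : Algebra.norm ℚ c ≠ 0 := by
    intro h
    rw [h, map_zero] at hN
    symm at hN
    rw [Finset.prod_eq_zero_iff] at hN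
    obtain ⟨i, -, hi⟩ := hN
    exact hc0 ((map_eq_zero_iff _ (D.φ ^ i).injective).1 hi)
  refine ⟨j, ?_⟩
  refine D.val_rat hNe ?_
  have h1 : ((Algebra.norm ℚ c : ℚ) : A) = algebraMap ℚ A (Algebra.norm ℚ c) := by simp
  have h2 : (∏ i ∈ Finset.range ℓ, (D.φ ^ i) (c : A)) / (r : A) ^ ((ℓ : ℤ) * j) =
      ∏ i ∈ Finset.range ℓ, (D.φ ^ i) ((c : A) / (r : A) ^ j) := by
    have h3 : ∀ i ∈ Finset.range ℓ, (D.φ ^ i) ((c : A) / (r : A) ^ j) =
        (D.φ ^ i) (c : A) / (r : A) ^ j := by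
      intro i _
      rw [map_div₀, map_zpow₀, map_natCast]
    rw [Finset.prod_congr rfl h3, Finset.prod_div_distrib, Finset.prod_const, Finset.card_range,
      ← zpow_natCast, ← zpow_mul, mul_comm]
  rw [h1, hN, h2]
  exact IsU.prod _ _ fun i _ => D.stab_unit_pow hj i

end

end Pool.Agent.K3h48.MN
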