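import Pool.Agent.W327.SecC.PartB1
import Pool.Agent.W308.SecC.B2
import Pool.Agent.W623.SecC.Unr

/-!
# Multinorm obstruction: valuations and Frobenius automorphisms
-/

set_option autoImplicit false
set_option linter.unusedSectionVars false
set_option linter.style.haveILetI false

namespace Pool.Agent.K3h48.MN

open Polynomial IntermediateField Pool.Agent.W623.SecC

universe u w

/-- a valuation ring with a Frobenius automorphism -/
structure FD (k : Type u) (B : Type w) [Field k] [Field B] [Algebra k B] (r : ℕ) where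
  /-- the valuation ring -/
  V : ValuationSubring B
  /-- the Frobenius automorphism -/
  φ : B ≃ₐ[k] B
  r_mem : (r : B) ∈ V.nonunits
  stab : ∀ x, φ x ∈ V ↔ x ∈ V
  frob : ∀ x ∈ V, φ x - x ^ r ∈ V.nonunits
  unram : ∀ N : ℕ, N ≠ 0 → ¬ r ∣ N →
    ∀ c ∈ IntermediateField.adjoin k {ζ : B | ζ ^ N = 1}, c ≠ 0 → ∃ j : ℤ, IsU V (c / (r : B) ^ j)

theorem exists_FD {A₀ k : Type u} {B : Type w} [CommRing A₀] [IsDomain A₀]
    [IsDiscreteValuationRing A₀] [Field k] [Field B] [Algebra A₀ k] [Algebra k B] [Algebra A₀ B]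
    [IsScalarTower A₀ k B] [IsFractionRing A₀ k] [CharZero k] [IsAlgClosure k B] (r : ℕ)
    [hr : Fact r.Prime] (hcard : Nat.card (IsLocalRing.ResidueField A₀) = r)
    (hirr : Irreducible (r : A₀)) : Nonempty (FD k B r) := by
  have hfin : Finite (IsLocalRing.ResidueField A₀) :=
    Nat.finite_of_card_ne_zero (by rw [hcard]; exact hr.out.ne_zero)
  obtain ⟨V, φ, h1, h2, h3, h4⟩ := W327.SecC.partB1 A₀ k B
  rw [hcard] at h4
  refine ⟨⟨V, φ, ?_, h3, h4, ?_⟩⟩
  · have h5 := h2 (r : A₀) hirr.1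
    rwa [map_natCast] at h5
  · intro N hN hrN c hc hc0
    have hNk : (N : IsLocalRing.ResidueField A₀) ≠ 0 := by
      intro h
      apply hrN
      have h6 : ((r : ℕ) : IsLocalRing.ResidueField A₀) = 0 := by
        rw [← map_natCast (IsLocalRing.residue A₀), IsLocalRing.residue_eq_zero_iff]
        exact hirr.1
      by_contra hcon
      have h7 : Nat.Coprime N r := (Nat.coprime_comm.1 ((hr.out.coprime_iff_not_dvd).2 hcon))
      have h8 : ((Nat.gcd N r : ℕ) : IsLocalRing.ResidueField A₀) = 0 := by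
        have h9 := congrArg (fun z : ℤ => (z : IsLocalRing.ResidueField A₀)) (Nat.gcd_eq_gcd_ab N r)
        simp only [Int.cast_natCast, Int.cast_add, Int.cast_mul, h, h6, zero_mul, add_zero] at h9
        exact h9
      rw [h7, Nat.cast_one] at h8
      exact one_ne_zero h8
    have h5 := Pool.Agent.W308.SecC.partB2 A₀ k B V h1 h2 (r : A₀) hirr (X ^ N - 1 : A₀[X])
      (by
        have h6 : (X ^ N - 1 : A₀[X]).Monic := by
          have := monic_X_pow_sub_C (1 : A₀) hN
          rwa [C_1] at this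
        rw [h6.leadingCoeff]
        exact isUnit_one)
      (by
        rw [Polynomial.map_sub, Polynomial.map_pow, map_X, Polynomial.map_one]
        have h6 := separable_X_pow_sub_C (1 : IsLocalRing.ResidueField A₀) hNk one_ne_zero
        rwa [C_1] at h6) c (by
        have h6 : {θ : B | aeval θ (X ^ N - 1 : A₀[X]) = 0} = {ζ : B | ζ ^ N = 1} := by
          ext θ
          simp [sub_eq_zero]
        rw [h6]
        exact hc) hc0
    rw [map_natCast] at h5
    exact h5

namespace FD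

variable {k : Type u} {B : Type w} [Field k] [Field B] [Algebra k B] {r : ℕ} [hr : Fact r.Prime]
  (D : FD k B r)

lemma int_nonunit {n : ℤ} (h : (r : ℤ) ∣ n) : (n : B) ∈ D.V.nonunits := by
  obtain ⟨m, rfl⟩ := h
  rw [Int.cast_mul, Int.cast_natCast, mul_comm]
  exact nonunit_mul (intCast_mem D.V m) D.r_mem

lemma int_unit {n : ℤ} (h : ¬ (r : ℤ) ∣ n) : IsU D.V (n : B) := by
  refine isU_of_not_nonunit (intCast_mem D.V n) fun hn => ?_
  have hcop : IsCoprime n (r : ℤ) := by
    have h1 := (Nat.prime_iff_prime_int.1 hr.out).coprime_iff_not_dvd.2 h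
    exact h1.symm
  obtain ⟨a, b, hab⟩ := hcop
  have h1 : (1 : B) ∈ D.V.nonunits := by
    have h2 : (1 : B) = a * n + b * r := by
      rw [← Int.cast_natCast r, ← Int.cast_mul, ← Int.cast_mul, ← Int.cast_add, hab, Int.cast_one]
    rw [h2]
    exact add_mem (nonunit_mul (intCast_mem D.V a) hn) (nonunit_mul (intCast_mem D.V b) D.r_mem)
  exact (isU_one (V := D.V)).not_nonunit h1

lemma int_nonunit_iff {n : ℤ} : (n : B) ∈ D.V.nonunits ↔ (r : ℤ) ∣ n := by
  constructor
  · intro h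
    by_contra hcon
    exact (D.int_unit hcon).not_nonunit h
  · exact D.int_nonunit

lemma root_unit {N : ℕ} (hN : N ≠ 0) {ζ : B} (h : ζ ^ N = 1) : IsU D.V ζ :=
  IsU.of_pow (Nat.pos_of_ne_zero hN) (by rw [h]; exact isU_one)

/-- different roots of unity of order prime to `r` have different reductions -/
lemma root_diff {N : ℕ} (hN : N ≠ 0) (hrN : ¬ r ∣ N) {ζ : B} (h : ζ ^ N = 1) (h1 : ζ ≠ 1) :
    1 - ζ ∉ D.V.nonunits := by
  intro hn
  have h2 : ∑ i ∈ Finset.range N, ζ ^ i = 0 := by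
    have h3 := mul_neg_geom_sum ζ N
    rw [h, sub_self] at h3
    rcases mul_eq_zero.1 h3 with h4 | h4
    · exact absurd (sub_eq_zero.1 h4).symm h1
    · exact h4
  have hζV : ζ ∈ D.V := (D.root_unit hN h).2.1
  have h3 : (N : B) ∈ D.V.nonunits := by
    have h4 : (N : B) = ∑ i ∈ Finset.range N, (1 - ζ ^ i) := by
      rw [Finset.sum_sub_distrib, h2, sub_zero, Finset.sum_const, Finset.card_range, nsmul_eq_mul,
        mul_one]
    rw [h4]
    refine sum_mem fun i _ => ?_
    rw [← mul_neg_geom_sum ζ i, mul_comm]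
    exact nonunit_mul (sum_mem fun j _ => pow_mem hζV j) hn
  have h4 := D.int_nonunit_iff (n := (N : ℤ))
  rw [Int.cast_natCast] at h4
  exact hrN (Int.natCast_dvd_natCast.1 (h4.1 h3))

/-- the Frobenius automorphism on roots of unity -/
lemma frob_root {N : ℕ} (hN : N ≠ 0) (hrN : ¬ r ∣ N) {ζ : B} (h : ζ ^ N = 1) :
    D.φ ζ = ζ ^ r := by
  have hu := D.root_unit hN h
  by_contra hcon
  have h0 : ζ ^ r ≠ 0 := pow_ne_zero _ hu.1
  have h1 : (D.φ ζ / ζ ^ r) ^ N = 1 := by
    rw [div_pow, ← map_pow, h, map_one, ← pow_mul, mul_comm, pow_mul, h, one_pow, div_one]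
  refine D.root_diff hN hrN h1 (fun h2 => hcon (div_eq_one_iff_eq h0 |>.1 h2)) ?_
  have h3 : 1 - D.φ ζ / ζ ^ r = (-(ζ ^ r)⁻¹) * (D.φ ζ - ζ ^ r) := by
    field_simp
    ring
  rw [h3]
  exact nonunit_mul ((hu.pow r).inv.neg.2.1) (D.frob ζ hu.2.1)

lemma stab_nonunit (x : B) : D.φ x ∈ D.V.nonunits ↔ x ∈ D.V.nonunits := by
  rw [ValuationSubring.mem_nonunits_iff_or, ValuationSubring.mem_nonunits_iff_or,
    map_eq_zero_iff _ D.φ.injective, ← map_inv₀, D.stab]

lemma stab_unit {x : B} (h : IsU D.V x) : IsU D.V (D.φ x) :=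
  ⟨(map_ne_zero_iff _ D.φ.injective).2 h.1, (D.stab x).2 h.2.1, by
    rw [← map_inv₀, D.stab]; exact h.2.2⟩

lemma stab_unit_pow {x : B} (h : IsU D.V x) (i : ℕ) : IsU D.V ((D.φ ^ i) x) := by
  induction i with
  | zero => exact h
  | succ i ih => rw [pow_succ', AlgEquiv.mul_apply]; exact D.stab_unit ih

/-- elements fixed by Frobenius have their residue in the prime field -/
lemma residue_int {x : B} (hx : x ∈ D.V) (h : D.φ x = x) : ∃ n : ℤ, x - n ∈ D.V.nonunits := by
  classical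
  have h1 := D.frob x hx
  rw [h] at h1
  have hres : ∀ y : B, ∀ hy : y ∈ D.V, IsLocalRing.residue D.V ⟨y, hy⟩ = 0 ↔ y ∈ D.V.nonunits := by
    intro y hy
    rw [IsLocalRing.residue_eq_zero_iff]
    exact (D.V.mem_nonunits_iff_exists_mem_maximalIdeal.trans
      ⟨fun ⟨_, h⟩ => h, fun h => ⟨hy, h⟩⟩).symm
  set κ := IsLocalRing.ResidueField D.V
  have hchar : CharP κ r := by
    have h2 : ((r : ℕ) : κ) = 0 := by
      have h3 := (hres (r : B) (D.V.nonunits_subset D.r_mem)).2 D.r_mem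
      rw [← h3, ← map_natCast (IsLocalRing.residue D.V)]
      rfl
    exact (CharP.charP_iff_prime_eq_zero hr.out).2 h2
  letI : Algebra (ZMod r) κ := ZMod.algebra κ r
  set y : κ := IsLocalRing.residue D.V ⟨x, hx⟩ with hy
  have hy1 : y ^ r = y := by
    have h2 := (hres _ (D.V.nonunits_subset h1)).2 h1
    have h3 : (⟨x - x ^ r, D.V.nonunits_subset h1⟩ : D.V) = ⟨x, hx⟩ - ⟨x, hx⟩ ^ r := rfl
    rw [h3, map_sub, map_pow, sub_eq_zero] at h2
    exact h2.symm
  have hs : (X ^ r - X : (ZMod r)[X]).Splits := by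
    have key : ∀ n, Fintype.card (ZMod r) = n → (X ^ n - X : (ZMod r)[X]).Splits := by
      rintro n rfl
      rw [splits_iff_card_roots, FiniteField.roots_X_pow_card_sub_X,
        FiniteField.X_pow_card_sub_X_natDegree_eq _ Fintype.one_lt_card]
      rfl
    exact key r (ZMod.card r)
  have hne : (X ^ r - X : (ZMod r)[X]) ≠ 0 := by
    have := FiniteField.X_pow_card_sub_X_ne_zero (ZMod r) (Fintype.one_lt_card (α := ZMod r))
    rwa [ZMod.card] at this
  obtain ⟨a, ha⟩ := hs.mem_range_of_isRoot (i := algebraMap (ZMod r) κ) (x := y) hne (by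
    simp [hy1])
  refine ⟨(a.val : ℤ), ?_⟩
  have hmem : x - ((a.val : ℤ) : B) ∈ D.V := sub_mem hx (intCast_mem D.V _)
  rw [← hres _ hmem]
  have h3 : (⟨x - ((a.val : ℤ) : B), hmem⟩ : D.V) = ⟨x, hx⟩ - ((a.val : ℕ) : D.V) := by
    apply Subtype.ext
    push_cast
    rfl
  rw [h3, map_sub, ← hy, map_natCast, sub_eq_zero, ← ha]
  conv_lhs => rw [← ZMod.natCast_zmod_val a]
  rw [map_natCast]

variable [CharZero B]

lemma r_ne : (r : B) ≠ 0 := Nat.cast_ne_zero.2 hr.out.ne_zero

/-- the powers of `r` are units only for the exponent zero -/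
lemma zpow_unit {j : ℤ} (h : IsU D.V ((r : B) ^ j)) : j = 0 := by
  obtain ⟨j, rfl | rfl⟩ := j.eq_nat_or_neg
  · rw [zpow_natCast] at h
    rcases Nat.eq_zero_or_pos j with h0 | h0
    · rw [h0]; rfl
    · exact absurd D.r_mem ((IsU.of_pow h0 h).not_nonunit)
  · rw [zpow_neg, zpow_natCast] at h
    have h1 := h.inv
    rw [inv_inv] at h1
    rcases Nat.eq_zero_or_pos j with h0 | h0
    · rw [h0]; rfl
    · exact absurd D.r_mem ((IsU.of_pow h0 h1).not_nonunit)

lemma rat_unit {x : ℚ} (hx : x ≠ 0) : IsU D.V ((x : B) / (r : B) ^ (padicValRat r x)) := by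
  have hnum : x.num ≠ 0 := Rat.num_ne_zero.2 hx
  have hN : ∀ n : ℕ, n ≠ 0 → IsU D.V ((n : B) / (r : B) ^ (padicValNat r n)) := by
    intro n hn
    obtain ⟨m, hm⟩ := pow_padicValNat_dvd (p := r) (n := n)
    have hrm : ¬ r ∣ m := by
      rintro ⟨m', rfl⟩
      apply pow_succ_padicValNat_not_dvd (p := r) hn
      rw [pow_succ]
      exact ⟨m', by rw [mul_assoc]; exact hm⟩
    have h1 : (n : B) / (r : B) ^ (padicValNat r n) = ((m : ℤ) : B) := by
      rw [div_eq_iff (pow_ne_zero _ r_ne), Int.cast_natCast, mul_comm]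
      exact_mod_cast hm
    rw [h1]
    exact D.int_unit (fun h => hrm (Int.natCast_dvd_natCast.1 h))
  have h1 := hN x.num.natAbs (Int.natAbs_ne_zero.2 hnum)
  have h2 := hN x.den x.den_nz
  have h3 : IsU D.V ((x.num : B) / (r : B) ^ (padicValNat r x.num.natAbs)) := by
    rcases Int.natAbs_eq x.num with h | h
    · rw [h, Int.cast_natCast]; exact h1
    · rw [h, Int.cast_neg, Int.cast_natCast, Int.natAbs_neg, Int.natAbs_natCast, neg_div]
      exact h1.neg
  have h4 : (x : B) / (r : B) ^ (padicValRat r x) =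
      ((x.num : B) / (r : B) ^ (padicValNat r x.num.natAbs)) /
        ((x.den : B) / (r : B) ^ (padicValNat r x.den)) := by
    rw [padicValRat.eq_1, padicValInt, zpow_sub₀ r_ne, zpow_natCast, zpow_natCast, Rat.cast_def]
    have h5 : (x.den : B) ≠ 0 := Nat.cast_ne_zero.2 x.den_nz
    have h6 : (r : B) ≠ 0 := r_ne
    field_simp
  rw [h4]
  exact h3.div h2

lemma val_rat {x : ℚ} (hx : x ≠ 0) {j : ℤ} (h : IsU D.V ((x : B) / (r : B) ^ j)) :
    padicValRat r x = j := by
  have h1 := (D.rat_unit hx).div h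
  have h2 : ((x : B) / (r : B) ^ (padicValRat r x)) / ((x : B) / (r : B) ^ j) =
      (r : B) ^ (j - padicValRat r x) := by
    have h5 : (x : B) ≠ 0 := Rat.cast_ne_zero.2 hx
    have h6 : (r : B) ^ (padicValRat r x) ≠ 0 := zpow_ne_zero _ r_ne
    rw [zpow_sub₀ r_ne]
    field_simp
  rw [h2] at h1
  have h3 := D.zpow_unit h1
  omega

end FD

end Pool.Agent.K3h48.MN
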